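import Pool.Agent.H3.FQ.Defs
import Pool.Agent.H82.LD.Rig

/-!
# RIG: rigidity of `K_{3,t}`

`RIG0`: the real linear map `B` with `x2' - x1' = B (x2 - x1)`, `x3' - x1' = B (x3 - x1)` exists (the differences are a basis), `det B = crs x1' x2' x3' / crs x1 x2 x3 > 0`. Let `(m11, m12; m21, m22) = M = (Bᵀ)⁻¹`,
`det M > 0`. If `|x_a - y| = |x_a' - y'|` for `a = 1, 2, 3` then, subtracting the squared equation for `a = 1`, `2 (x_a - x1)·y - (|x_a|^2 - |x1|^2) = 2 (x_a' - x1')·y' - (|x_a'|^2 - |x1'|^2)`,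
`(x_a - x1)·(y - Bᵀ y') = const_a`, so `y - Bᵀ y'` is a fixed vector `κ` (independent of `y, y'`), `y' = M (y - κ)`.
`RIG1`: if `M` is orthogonal (`m11^2+m21^2 = 1`, `m12^2+m22^2 = 1`, `m11 m12 + m21 m22 = 0`) and `det M > 0` then `M` is the rotation by `a = m11 + i m21`, `B = M` as well, so `x_a' = a x_a + b` with `b = x1' - a x1`, and
`y' = a y + b`: `g = (a, b)` satisfies `|x_a' - y'| = |x_a - g⁻¹ y'|` for three non-collinear `x_a`, and `|x_a - y|` are the same three numbers, so `g⁻¹ y' = y`.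
(Statement `RIG` combines both: either congruent, or affine with non-orthogonal linear part.)
-/

set_option autoImplicit false

namespace Pool.Agent.H3.FQ

/-- the real-affine map with matrix `(m 0, m 1; m 2, m 3)` and translation `(m 4, m 5)` -/
def aff (m : Fin 6 → ℝ) (z : ℂ) : ℂ := ⟨m 0 * z.re + m 1 * z.im + m 4, m 2 * z.re + m 3 * z.im + m 5⟩

/-- the linear part is orthogonal -/
def orth (m : Fin 6 → ℝ) : Prop := m 0 ^ 2 + m 2 ^ 2 = 1 ∧ m 1 ^ 2 + m 3 ^ 2 = 1 ∧ m 0 * m 1 + m 2 * m 3 = 0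

private lemma RIG_vec {x1 x2 x3 x1' x2' x3' y y' : ℂ} (h1 : dist x1 y = dist x1' y')
    (h2 : dist x2 y = dist x2' y') (h3 : dist x3 y = dist x3' y') :
    ∀ k : Fin 3, ‖(![x1, x2, x3] : Fin 3 → ℂ) k - y‖ = ‖(![x1', x2', x3'] : Fin 3 → ℂ) k - y'‖ := by
  intro k
  rw [dist_eq_norm, dist_eq_norm] at h1 h2 h3
  fin_cases k
  · exact h1
  · exact h2
  · exact h3

theorem RIG (x1 x2 x3 x1' x2' x3' : ℂ) (ho : 0 < crs x1 x2 x3) (ho' : 0 < crs x1' x2' x3') :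
    (∃ g : ℂ × ℂ, ‖g.1‖ = 1 ∧ x1' = act g x1 ∧ x2' = act g x2 ∧ x3' = act g x3 ∧
      ∀ y y' : ℂ, dist x1 y = dist x1' y' → dist x2 y = dist x2' y' → dist x3 y = dist x3' y' → y' = act g y) ∨
    (∃ m : Fin 6 → ℝ, 0 < m 0 * m 3 - m 1 * m 2 ∧ ¬ orth m ∧
      ∀ y y' : ℂ, dist x1 y = dist x1' y' → dist x2 y = dist x2' y' → dist x3 y = dist x3' y' → y' = aff m y) := by
  have h : 0 < H82.LD.cr ((![x1, x2, x3] : Fin 3 → ℂ) 1 - (![x1, x2, x3] : Fin 3 → ℂ) 0)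
      ((![x1, x2, x3] : Fin 3 → ℂ) 2 - (![x1, x2, x3] : Fin 3 → ℂ) 0) := ho
  have h' : 0 < H82.LD.cr ((![x1', x2', x3'] : Fin 3 → ℂ) 1 - (![x1', x2', x3'] : Fin 3 → ℂ) 0)
      ((![x1', x2', x3'] : Fin 3 → ℂ) 2 - (![x1', x2', x3'] : Fin 3 → ℂ) 0) := ho'
  obtain ⟨T, hT, hT1, t1, t2⟩ := H82.LD.rig_map _ _ h h'
  by_cases ho : orth ![T.a, T.b, T.c, T.d, T.e, T.f]
  · left
    obtain ⟨o1, o2, o3⟩ := ho
    obtain ⟨u, w, hu, hx, hy⟩ := H82.LD.rig_cong _ _ h' T hT t1 t2 o1 o3 o2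
    exact ⟨(u, w), hu, hx 0, hx 1, hx 2, fun y y' e1 e2 e3 => hy y y' (RIG_vec e1 e2 e3)⟩
  · right
    exact ⟨_, hT, ho, fun y y' e1 e2 e3 => hT1 y y' (RIG_vec e1 e2 e3)⟩

end Pool.Agent.H3.FQ
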