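import Pool.Agent.H3.FQ.FIVE
import Pool.Agent.H3.FQ.RIG

/-!
# ALG: no affine self-map of a conic in the non-congruent case

`M = (m 0, m 1; m 2, m 3)`, `T = aff m`, `d = det M > 0`; `E = (c 0, c 1 / 2; c 1 / 2, c 2)` the quadratic part of `p = qd c`. Suppose `c` vanishes on `Y` (`gen5`), `isConic c`, `p (T y) = 0` and
`|x - y|^2 = |x' - T y|^2` for `y ∈ Y`. By `FIVE` (applied to the coefficient vectors of `p ∘ T` and of `y ↦ |x - y|^2 - |x' - T y|^2`): `p ∘ T = mu p` and `|x - y|^2 - |x' - T y|^2 = lam p(y)` for all `y`. Quadratic parts: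
(1) `Mᵀ E M = mu E`, (2) `I - Mᵀ M = lam E`. `mu ≠ 0` (`M` invertible, `E ≠ 0`). Claim `lam = 0` (that is `orth m`). Suppose `lam ≠ 0`.

`ALG1` (`det E ≠ 0`). Let `z` be the centre (gradient of `p` zero at `z`), `p(y) = (y-z)ᵀE(y-z) + f'`. `f' ≠ 0`: otherwise, for `y ∈ Y`, `y ≠ z`, `p(z + s (y-z)) = s^2 p(y) = 0` for all `s`, so `c = 0` by `FIVE0`.
`p ∘ T = mu p`: the gradient of `p ∘ T` at `y` is `Mᵀ (grad p)(T y)`, so `grad p (T z) = 0`, `T z = z` (`E` invertible), so `f' = p(T z) = mu p(z) = mu f'`, `mu = 1`; determinants in (1): `d^2 = 1`, `d = 1`.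
With `s = tr M`: `M^2 = s M - I`, `M⁻¹ = s I - M`, (1) gives `E M = (s I - Mᵀ) E`; insert `lam E = I - MᵀM`: `M + Mᵀ - MᵀM^2 - (Mᵀ)^2 M = s (I - MᵀM)`; `MᵀM^2 = s MᵀM - Mᵀ`, so `2 (M + Mᵀ) = s (I + MᵀM)`. Trace: `s (2 - tr MᵀM) = 0`.
`s = 0`: `M + Mᵀ = 0`, `d = 1`: `M = ± J`, orthogonal. `tr MᵀM = 2`, `det MᵀM = 1`: eigenvalues `1, 1`, `MᵀM = I`. Both contradict `lam ≠ 0`. (In coordinates: `m0 m3 - m1 m2 = 1`, `m0^2+m1^2+m2^2+m3^2 = 2` gives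
`(m0 - m3)^2 + (m1 + m2)^2 = 0`.)

`ALG2` (`det E = 0`, `E ≠ 0`): `E = eps w w^T`, `|w| = 1`, `eps ≠ 0`, `u ⊥ w`, `|u| = 1`. (1): `eps (Mᵀw)(Mᵀw)ᵀ = mu eps w wᵀ`, so `Mᵀ w = s w`, `s^2 = mu > 0`. (2): `|M u|^2 = 1`, `(M w)·(M u) = 0`; `w·(M u) = (Mᵀw)·u = 0`, so `M u = ± u`, then
`M w ⊥ u`, `M w = s w` (`w·M w = s`), `mu = |M w|^2 = 1 - lam eps`. `p(y) = eps (w·y)^2 + 2 e1 (w·y) + 2 e2 (u·y) + f`; `e2 ≠ 0`, otherwise `p` vanishes on the line `y + ℝ u`, `y ∈ Y`, and `c = 0` by `FIVE0`. In `p ∘ T = mu p` the coefficient of `u·y` is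
`± 2 e2 = 2 mu e2`, so `mu = 1` (`mu > 0`), `lam eps = 0`: contradiction.
`ALG`: the conclusion.
-/

set_option autoImplicit false

namespace Pool.Agent.H3.FQ

open Classical

/-- the coefficients of `p ∘ T` -/
def ALG_k (c m : Fin 6 → ℝ) : Fin 6 → ℝ :=
  ![c 0 * m 0 ^ 2 + c 1 * (m 0 * m 2) + c 2 * m 2 ^ 2,
    2 * c 0 * (m 0 * m 1) + c 1 * (m 0 * m 3 + m 1 * m 2) + 2 * c 2 * (m 2 * m 3),
    c 0 * m 1 ^ 2 + c 1 * (m 1 * m 3) + c 2 * m 3 ^ 2,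
    2 * c 0 * (m 0 * m 4) + c 1 * (m 0 * m 5 + m 2 * m 4) + 2 * c 2 * (m 2 * m 5) + c 3 * m 0 + c 4 * m 2,
    2 * c 0 * (m 1 * m 4) + c 1 * (m 1 * m 5 + m 3 * m 4) + 2 * c 2 * (m 3 * m 5) + c 3 * m 1 + c 4 * m 3,
    c 0 * m 4 ^ 2 + c 1 * (m 4 * m 5) + c 2 * m 5 ^ 2 + c 3 * m 4 + c 4 * m 5 + c 5]

lemma ALG_k_qd (c m : Fin 6 → ℝ) (y : ℂ) : qd (ALG_k c m) y = qd c (aff m y) := by
  have e0 : ALG_k c m 0 = c 0 * m 0 ^ 2 + c 1 * (m 0 * m 2) + c 2 * m 2 ^ 2 := rfl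
  have e1 : ALG_k c m 1 = 2 * c 0 * (m 0 * m 1) + c 1 * (m 0 * m 3 + m 1 * m 2) +
    2 * c 2 * (m 2 * m 3) := rfl
  have e2 : ALG_k c m 2 = c 0 * m 1 ^ 2 + c 1 * (m 1 * m 3) + c 2 * m 3 ^ 2 := rfl
  have e3 : ALG_k c m 3 = 2 * c 0 * (m 0 * m 4) + c 1 * (m 0 * m 5 + m 2 * m 4) +
    2 * c 2 * (m 2 * m 5) + c 3 * m 0 + c 4 * m 2 := rfl
  have e4 : ALG_k c m 4 = 2 * c 0 * (m 1 * m 4) + c 1 * (m 1 * m 5 + m 3 * m 4) +
    2 * c 2 * (m 3 * m 5) + c 3 * m 1 + c 4 * m 3 := rfl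
  have e5 : ALG_k c m 5 = c 0 * m 4 ^ 2 + c 1 * (m 4 * m 5) + c 2 * m 5 ^ 2 + c 3 * m 4 +
    c 4 * m 5 + c 5 := rfl
  unfold qd aff
  rw [e0, e1, e2, e3, e4, e5]
  ring

/-- the coefficients of `|x - y|^2 - |x' - T y|^2` -/
noncomputable def ALG_d (m : Fin 6 → ℝ) (x x' : ℂ) : Fin 6 → ℝ :=
  ![1 - (m 0 ^ 2 + m 2 ^ 2), -2 * (m 0 * m 1 + m 2 * m 3), 1 - (m 1 ^ 2 + m 3 ^ 2),
    -2 * x.re + 2 * (m 0 * (x'.re - m 4) + m 2 * (x'.im - m 5)),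
    -2 * x.im + 2 * (m 1 * (x'.re - m 4) + m 3 * (x'.im - m 5)),
    x.re ^ 2 + x.im ^ 2 - ((x'.re - m 4) ^ 2 + (x'.im - m 5) ^ 2)]

lemma ALG_dist (x y : ℂ) : dist x y ^ 2 = (x.re - y.re) ^ 2 + (x.im - y.im) ^ 2 := by
  rw [Complex.dist_eq, Complex.sq_norm, Complex.normSq_apply, Complex.sub_re, Complex.sub_im]
  ring

lemma ALG_d_qd (m : Fin 6 → ℝ) (x x' y : ℂ) :
    qd (ALG_d m x x') y = dist x y ^ 2 - dist x' (aff m y) ^ 2 := by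
  have e0 : ALG_d m x x' 0 = 1 - (m 0 ^ 2 + m 2 ^ 2) := rfl
  have e1 : ALG_d m x x' 1 = -2 * (m 0 * m 1 + m 2 * m 3) := rfl
  have e2 : ALG_d m x x' 2 = 1 - (m 1 ^ 2 + m 3 ^ 2) := rfl
  have e3 : ALG_d m x x' 3 = -2 * x.re + 2 * (m 0 * (x'.re - m 4) + m 2 * (x'.im - m 5)) := rfl
  have e4 : ALG_d m x x' 4 = -2 * x.im + 2 * (m 1 * (x'.re - m 4) + m 3 * (x'.im - m 5)) := rfl
  have e5 : ALG_d m x x' 5 = x.re ^ 2 + x.im ^ 2 - ((x'.re - m 4) ^ 2 + (x'.im - m 5) ^ 2) := rfl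
  rw [ALG_dist, ALG_dist]
  unfold qd aff
  rw [e0, e1, e2, e3, e4, e5]
  ring

/-- comparison of coefficients -/
lemma ALG_cmp {k c : Fin 6 → ℝ} {l : ℝ} (h : ∀ y : ℂ, qd k y = l * qd c y) (i : Fin 6) :
    k i = l * c i := by
  have h1 : (fun i => k i - l * c i) = 0 := FIVE_coeff fun z => by
    rw [FIVE_lin, h z, sub_self]
  have h2 := congrFun h1 i
  change k i - l * c i = 0 at h2
  linarith

/-- a symmetric matrix with trace two and determinant one is the identity -/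
lemma ALG_orth {m : Fin 6 → ℝ} (hd : (m 0 * m 3 - m 1 * m 2) ^ 2 = 1)
    (ht : m 0 ^ 2 + m 2 ^ 2 + (m 1 ^ 2 + m 3 ^ 2) = 2) : orth m := by
  have h1 : (m 0 ^ 2 + m 2 ^ 2 - 1) ^ 2 + (m 0 * m 1 + m 2 * m 3) ^ 2 = 0 := by
    linear_combination (m 0 ^ 2 + m 2 ^ 2) * ht - hd
  have h2 : (m 0 ^ 2 + m 2 ^ 2 - 1) ^ 2 = 0 := by
    have := sq_nonneg (m 0 ^ 2 + m 2 ^ 2 - 1)
    have := sq_nonneg (m 0 * m 1 + m 2 * m 3)
    linarith
  have h3 : (m 0 * m 1 + m 2 * m 3) ^ 2 = 0 := by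
    have := sq_nonneg (m 0 ^ 2 + m 2 ^ 2 - 1)
    have := sq_nonneg (m 0 * m 1 + m 2 * m 3)
    linarith
  have h4 : m 0 ^ 2 + m 2 ^ 2 - 1 = 0 := pow_eq_zero_iff two_ne_zero |>.1 h2
  have h5 : m 0 * m 1 + m 2 * m 3 = 0 := pow_eq_zero_iff two_ne_zero |>.1 h3
  exact ⟨by linarith, by linarith, h5⟩

lemma ALG_det {m : Fin 6 → ℝ} (hm : 0 < m 0 * m 3 - m 1 * m 2) {G1 G2 : ℝ}
    (h1 : m 0 * G1 + m 2 * G2 = 0) (h2 : m 1 * G1 + m 3 * G2 = 0) : G1 = 0 ∧ G2 = 0 := by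
  have e1 : (m 0 * m 3 - m 1 * m 2) * G1 = 0 := by linear_combination m 3 * h1 - m 2 * h2
  have e2 : (m 0 * m 3 - m 1 * m 2) * G2 = 0 := by linear_combination m 0 * h2 - m 1 * h1
  exact ⟨(mul_eq_zero.1 e1).resolve_left hm.ne', (mul_eq_zero.1 e2).resolve_left hm.ne'⟩

theorem ALG1 (Y : Finset ℂ) (hY : gen5 Y) (c : Fin 6 → ℝ) (hc0 : isConic c) (hc : ∀ y ∈ Y, qd c y = 0) (m : Fin 6 → ℝ)
    (hm : 0 < m 0 * m 3 - m 1 * m 2) (x x' : ℂ) (mu lam : ℝ) (h1 : ∀ y : ℂ, qd c (aff m y) = mu * qd c y)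
    (h2 : ∀ y : ℂ, dist x y ^ 2 - dist x' (aff m y) ^ 2 = lam * qd c y) (hE : 4 * c 0 * c 2 - c 1 ^ 2 ≠ 0) : orth m := by
  have k0 := ALG_cmp (k := ALG_k c m) (c := c) (l := mu)
    (fun y => (ALG_k_qd c m y).trans (h1 y)) 0
  have k1 := ALG_cmp (k := ALG_k c m) (c := c) (l := mu)
    (fun y => (ALG_k_qd c m y).trans (h1 y)) 1
  have k2 := ALG_cmp (k := ALG_k c m) (c := c) (l := mu)
    (fun y => (ALG_k_qd c m y).trans (h1 y)) 2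
  have k3 := ALG_cmp (k := ALG_k c m) (c := c) (l := mu)
    (fun y => (ALG_k_qd c m y).trans (h1 y)) 3
  have k4 := ALG_cmp (k := ALG_k c m) (c := c) (l := mu)
    (fun y => (ALG_k_qd c m y).trans (h1 y)) 4
  have l0 := ALG_cmp (k := ALG_d m x x') (c := c) (l := lam)
    (fun y => (ALG_d_qd m x x' y).trans (h2 y)) 0
  have l1 := ALG_cmp (k := ALG_d m x x') (c := c) (l := lam)
    (fun y => (ALG_d_qd m x x' y).trans (h2 y)) 1
  have l2 := ALG_cmp (k := ALG_d m x x') (c := c) (l := lam)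
    (fun y => (ALG_d_qd m x x' y).trans (h2 y)) 2
  change c 0 * m 0 ^ 2 + c 1 * (m 0 * m 2) + c 2 * m 2 ^ 2 = mu * c 0 at k0
  change 2 * c 0 * (m 0 * m 1) + c 1 * (m 0 * m 3 + m 1 * m 2) + 2 * c 2 * (m 2 * m 3) = mu * c 1 at k1
  change c 0 * m 1 ^ 2 + c 1 * (m 1 * m 3) + c 2 * m 3 ^ 2 = mu * c 2 at k2
  change 2 * c 0 * (m 0 * m 4) + c 1 * (m 0 * m 5 + m 2 * m 4) + 2 * c 2 * (m 2 * m 5) + c 3 * m 0 +
    c 4 * m 2 = mu * c 3 at k3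
  change 2 * c 0 * (m 1 * m 4) + c 1 * (m 1 * m 5 + m 3 * m 4) + 2 * c 2 * (m 3 * m 5) + c 3 * m 1 +
    c 4 * m 3 = mu * c 4 at k4
  change 1 - (m 0 ^ 2 + m 2 ^ 2) = lam * c 0 at l0
  change -2 * (m 0 * m 1 + m 2 * m 3) = lam * c 1 at l1
  change 1 - (m 1 ^ 2 + m 3 ^ 2) = lam * c 2 at l2
  -- the centre
  obtain ⟨zx, hzx⟩ : ∃ zx, zx = (-2 * c 2 * c 3 + c 1 * c 4) / (4 * c 0 * c 2 - c 1 ^ 2) := ⟨_, rfl⟩
  obtain ⟨zy, hzy⟩ : ∃ zy, zy = (c 1 * c 3 - 2 * c 0 * c 4) / (4 * c 0 * c 2 - c 1 ^ 2) := ⟨_, rfl⟩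
  rw [eq_div_iff hE] at hzx hzy
  have g1 : 2 * c 0 * zx + c 1 * zy + c 3 = 0 := by
    have h : (4 * c 0 * c 2 - c 1 ^ 2) * (2 * c 0 * zx + c 1 * zy + c 3) = 0 := by
      linear_combination 2 * c 0 * hzx + c 1 * hzy
    exact (mul_eq_zero.1 h).resolve_left hE
  have g2 : c 1 * zx + 2 * c 2 * zy + c 4 = 0 := by
    have h : (4 * c 0 * c 2 - c 1 ^ 2) * (c 1 * zx + 2 * c 2 * zy + c 4) = 0 := by
      linear_combination c 1 * hzx + 2 * c 2 * hzy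
    exact (mul_eq_zero.1 h).resolve_left hE
  -- the centre is a fixed point
  obtain ⟨T1, hT1⟩ : ∃ T1, T1 = m 0 * zx + m 1 * zy + m 4 := ⟨_, rfl⟩
  obtain ⟨T2, hT2⟩ : ∃ T2, T2 = m 2 * zx + m 3 * zy + m 5 := ⟨_, rfl⟩
  obtain ⟨G1, G2⟩ := ALG_det hm (G1 := 2 * c 0 * T1 + c 1 * T2 + c 3) (G2 := c 1 * T1 + 2 * c 2 * T2 + c 4)
    (by rw [hT1, hT2]; linear_combination 2 * zx * k0 + zy * k1 + k3 + mu * g1)
    (by rw [hT1, hT2]; linear_combination zx * k1 + 2 * zy * k2 + k4 + mu * g2)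
  have w1 : T1 = zx := by
    have h : (4 * c 0 * c 2 - c 1 ^ 2) * (T1 - zx) = 0 := by
      linear_combination 2 * c 2 * (G1 - g1) - c 1 * (G2 - g2)
    have := (mul_eq_zero.1 h).resolve_left hE
    linarith
  have w2 : T2 = zy := by
    have h : (4 * c 0 * c 2 - c 1 ^ 2) * (T2 - zy) = 0 := by
      linear_combination 2 * c 0 * (G2 - g2) - c 1 * (G1 - g1)
    have := (mul_eq_zero.1 h).resolve_left hE
    linarith
  have hfix : aff m ⟨zx, zy⟩ = ⟨zx, zy⟩ := by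
    unfold aff
    refine Complex.ext ?_ ?_
    · change m 0 * zx + m 1 * zy + m 4 = zx
      rw [← hT1, w1]
    · change m 2 * zx + m 3 * zy + m 5 = zy
      rw [← hT2, w2]
  have hc00 : c ≠ 0 := by
    rintro rfl
    exact hc0 ⟨rfl, rfl, rfl⟩
  -- the value at the centre
  have hz0 : qd c ⟨zx, zy⟩ ≠ 0 := by
    intro hz
    have h5 : 1 < Y.card := by
      have := hY.1
      omega
    obtain ⟨y, hy, hyz⟩ := Finset.exists_mem_ne h5 (⟨zx, zy⟩ : ℂ)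
    refine hc00 (FIVE0 Y hY c hc ⟨zx, zy⟩ y hyz.symm 2 two_ne_zero (by norm_num) hz (hc y hy) ?_)
    have hy0 := hc y hy
    unfold qd at hz hy0 ⊢
    simp only [Complex.add_re, Complex.add_im, Complex.mul_re, Complex.mul_im, Complex.ofReal_re,
      Complex.ofReal_im, zero_mul, sub_zero, add_zero, Complex.sub_re, Complex.sub_im] at hz hy0 ⊢
    linear_combination 4 * hy0 - 3 * hz - 2 * (y.re - zx) * g1 - 2 * (y.im - zy) * g2
  have hmu : mu = 1 := by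
    have h := h1 ⟨zx, zy⟩
    rw [hfix] at h
    have h' : (mu - 1) * qd c ⟨zx, zy⟩ = 0 := by linear_combination -h
    have := (mul_eq_zero.1 h').resolve_right hz0
    linarith
  subst hmu
  have hd : (m 0 * m 3 - m 1 * m 2) ^ 2 = 1 := by
    have h : (4 * c 0 * c 2 - c 1 ^ 2) * ((m 0 * m 3 - m 1 * m 2) ^ 2 - 1) = 0 := by
      have e1 : (4 * c 0 * c 2 - c 1 ^ 2) * (m 0 * m 3 - m 1 * m 2) ^ 2 =
          4 * (c 0 * m 0 ^ 2 + c 1 * (m 0 * m 2) + c 2 * m 2 ^ 2) *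
            (c 0 * m 1 ^ 2 + c 1 * (m 1 * m 3) + c 2 * m 3 ^ 2) -
          (2 * c 0 * (m 0 * m 1) + c 1 * (m 0 * m 3 + m 1 * m 2) + 2 * c 2 * (m 2 * m 3)) ^ 2 := by
        ring
      rw [mul_sub, e1, k0, k1, k2]
      ring
    have := (mul_eq_zero.1 h).resolve_left hE
    linarith
  refine ALG_orth hd ?_
  obtain ⟨a, ha⟩ : ∃ a, a = m 0 ^ 2 + m 2 ^ 2 := ⟨_, rfl⟩
  obtain ⟨b, hb⟩ : ∃ b, b = m 0 * m 1 + m 2 * m 3 := ⟨_, rfl⟩
  obtain ⟨e, he⟩ : ∃ e, e = m 1 ^ 2 + m 3 ^ 2 := ⟨_, rfl⟩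
  have hP : a * e - b ^ 2 = 1 := by
    rw [ha, hb, he]
    linear_combination hd
  rw [← ha, ← he]
  rw [← ha] at l0
  rw [← hb] at l1
  rw [← he] at l2
  have q0 : a * m 0 ^ 2 + 2 * b * (m 0 * m 2) + e * m 2 ^ 2 = 2 * a - 1 := by
    linear_combination (-lam) * k0 + (1 - m 0 ^ 2) * l0 - (m 0 * m 2) * l1 - m 2 ^ 2 * l2 - ha
  have q1 : a * (m 0 * m 1) + b * (m 0 * m 3 + m 1 * m 2) + e * (m 2 * m 3) = 2 * b := by
    linear_combination (-lam / 2) * k1 - (m 0 * m 1) * l0 + (1 - (m 0 * m 3 + m 1 * m 2)) / 2 * l1 -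
      (m 2 * m 3) * l2 - hb
  have q2 : a * m 1 ^ 2 + 2 * b * (m 1 * m 3) + e * m 3 ^ 2 = 2 * e - 1 := by
    linear_combination (-lam) * k2 - (m 1 ^ 2) * l0 - (m 1 * m 3) * l1 + (1 - m 3 ^ 2) * l2 - he
  have hdet : (2 * a - 1) * (2 * e - 1) - (2 * b) ^ 2 = 1 := by
    have e3 : (a * m 0 ^ 2 + 2 * b * (m 0 * m 2) + e * m 2 ^ 2) *
        (a * m 1 ^ 2 + 2 * b * (m 1 * m 3) + e * m 3 ^ 2) -
        (a * (m 0 * m 1) + b * (m 0 * m 3 + m 1 * m 2) + e * (m 2 * m 3)) ^ 2 =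
        (a * e - b ^ 2) * (m 0 * m 3 - m 1 * m 2) ^ 2 := by ring
    rw [hP, hd, one_mul, q0, q1, q2] at e3
    exact e3
  linear_combination (-1 / 2 : ℝ) * hdet + 2 * hP

theorem ALG2 (Y : Finset ℂ) (hY : gen5 Y) (c : Fin 6 → ℝ) (hc0 : isConic c) (hc : ∀ y ∈ Y, qd c y = 0) (m : Fin 6 → ℝ)
    (hm : 0 < m 0 * m 3 - m 1 * m 2) (x x' : ℂ) (mu lam : ℝ) (h1 : ∀ y : ℂ, qd c (aff m y) = mu * qd c y)
    (h2 : ∀ y : ℂ, dist x y ^ 2 - dist x' (aff m y) ^ 2 = lam * qd c y) (hE : 4 * c 0 * c 2 - c 1 ^ 2 = 0) : orth m := by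
  have k0 := ALG_cmp (k := ALG_k c m) (c := c) (l := mu)
    (fun y => (ALG_k_qd c m y).trans (h1 y)) 0
  have k1 := ALG_cmp (k := ALG_k c m) (c := c) (l := mu)
    (fun y => (ALG_k_qd c m y).trans (h1 y)) 1
  have k2 := ALG_cmp (k := ALG_k c m) (c := c) (l := mu)
    (fun y => (ALG_k_qd c m y).trans (h1 y)) 2
  have k3 := ALG_cmp (k := ALG_k c m) (c := c) (l := mu)
    (fun y => (ALG_k_qd c m y).trans (h1 y)) 3
  have k4 := ALG_cmp (k := ALG_k c m) (c := c) (l := mu)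
    (fun y => (ALG_k_qd c m y).trans (h1 y)) 4
  have l0 := ALG_cmp (k := ALG_d m x x') (c := c) (l := lam)
    (fun y => (ALG_d_qd m x x' y).trans (h2 y)) 0
  have l1 := ALG_cmp (k := ALG_d m x x') (c := c) (l := lam)
    (fun y => (ALG_d_qd m x x' y).trans (h2 y)) 1
  have l2 := ALG_cmp (k := ALG_d m x x') (c := c) (l := lam)
    (fun y => (ALG_d_qd m x x' y).trans (h2 y)) 2
  change c 0 * m 0 ^ 2 + c 1 * (m 0 * m 2) + c 2 * m 2 ^ 2 = mu * c 0 at k0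
  change 2 * c 0 * (m 0 * m 1) + c 1 * (m 0 * m 3 + m 1 * m 2) + 2 * c 2 * (m 2 * m 3) = mu * c 1 at k1
  change c 0 * m 1 ^ 2 + c 1 * (m 1 * m 3) + c 2 * m 3 ^ 2 = mu * c 2 at k2
  change 2 * c 0 * (m 0 * m 4) + c 1 * (m 0 * m 5 + m 2 * m 4) + 2 * c 2 * (m 2 * m 5) + c 3 * m 0 +
    c 4 * m 2 = mu * c 3 at k3
  change 2 * c 0 * (m 1 * m 4) + c 1 * (m 1 * m 5 + m 3 * m 4) + 2 * c 2 * (m 3 * m 5) + c 3 * m 1 +
    c 4 * m 3 = mu * c 4 at k4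
  change 1 - (m 0 ^ 2 + m 2 ^ 2) = lam * c 0 at l0
  change -2 * (m 0 * m 1 + m 2 * m 3) = lam * c 1 at l1
  change 1 - (m 1 ^ 2 + m 3 ^ 2) = lam * c 2 at l2
  -- notation
  obtain ⟨a, ha⟩ : ∃ a, a = m 0 ^ 2 + m 2 ^ 2 := ⟨_, rfl⟩
  obtain ⟨b, hb⟩ : ∃ b, b = m 0 * m 1 + m 2 * m 3 := ⟨_, rfl⟩
  obtain ⟨e, he⟩ : ∃ e, e = m 1 ^ 2 + m 3 ^ 2 := ⟨_, rfl⟩
  obtain ⟨D, hD⟩ : ∃ D, D = (m 0 * m 3 - m 1 * m 2) ^ 2 := ⟨_, rfl⟩
  have hDpos : 0 < D := by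
    rw [hD]
    positivity
  have hP : a * e - b ^ 2 = D := by
    rw [ha, hb, he, hD]
    ring
  rw [← ha] at l0
  rw [← hb] at l1
  rw [← he] at l2
  have htr : a + e = 1 + D := by
    have h : (1 - a) * (1 - e) - b ^ 2 = 0 := by
      have e1 : 4 * ((1 - a) * (1 - e) - b ^ 2) = lam ^ 2 * (4 * c 0 * c 2 - c 1 ^ 2) := by
        linear_combination 4 * (1 - e) * l0 + 4 * lam * c 0 * l2 + (2 * b - lam * c 1) * l1
      rw [hE, mul_zero] at e1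
      linarith
    linear_combination hP - h
  have q0 : a * m 0 ^ 2 + 2 * b * (m 0 * m 2) + e * m 2 ^ 2 = (1 + mu) * a - mu := by
    linear_combination (-lam) * k0 + (mu - m 0 ^ 2) * l0 - (m 0 * m 2) * l1 - m 2 ^ 2 * l2 - ha
  have q1 : a * (m 0 * m 1) + b * (m 0 * m 3 + m 1 * m 2) + e * (m 2 * m 3) = (1 + mu) * b := by
    linear_combination (-lam / 2) * k1 - (m 0 * m 1) * l0 + (mu - (m 0 * m 3 + m 1 * m 2)) / 2 * l1 -
      (m 2 * m 3) * l2 - hb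
  have q2 : a * m 1 ^ 2 + 2 * b * (m 1 * m 3) + e * m 3 ^ 2 = (1 + mu) * e - mu := by
    linear_combination (-lam) * k2 - (m 1 ^ 2) * l0 - (m 1 * m 3) * l1 + (mu - m 3 ^ 2) * l2 - he
  have hdet : ((1 + mu) * a - mu) * ((1 + mu) * e - mu) - ((1 + mu) * b) ^ 2 = D * D := by
    have e3 : (a * m 0 ^ 2 + 2 * b * (m 0 * m 2) + e * m 2 ^ 2) *
        (a * m 1 ^ 2 + 2 * b * (m 1 * m 3) + e * m 3 ^ 2) -
        (a * (m 0 * m 1) + b * (m 0 * m 3 + m 1 * m 2) + e * (m 2 * m 3)) ^ 2 =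
        (a * e - b ^ 2) * (m 0 * m 3 - m 1 * m 2) ^ 2 := by ring
    rw [hP, ← hD, q0, q1, q2] at e3
    exact e3
  have hfac : (D - 1) * (D - mu) = 0 := by
    linear_combination (-1 : ℝ) * hdet + (1 + mu) ^ 2 * hP - mu * (1 + mu) * htr
  have hfin : D = 1 → orth m := by
    intro h
    refine ALG_orth (by rw [← hD, h]) ?_
    rw [← ha, ← he, htr, h]
    norm_num
  rcases mul_eq_zero.1 hfac with h | h
  · exact hfin (by linarith)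
  have hmuD : mu = D := by linarith
  apply hfin
  -- the kernel vector
  have hw : ∃ w1 w2 : ℝ, (w1 ≠ 0 ∨ w2 ≠ 0) ∧ 2 * c 0 * w1 + c 1 * w2 = 0 ∧
      c 1 * w1 + 2 * c 2 * w2 = 0 := by
    by_cases h01 : c 0 = 0 ∧ c 1 = 0
    · exact ⟨1, 0, Or.inl one_ne_zero, by rw [h01.1, h01.2]; ring, by rw [h01.2]; ring⟩
    · refine ⟨-c 1, 2 * c 0, ?_, by ring, by linear_combination hE⟩
      by_contra hcon
      push Not at hcon
      exact h01 ⟨by linarith [hcon.2], by linarith [hcon.1]⟩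
  obtain ⟨w1, w2, hw0, hw1, hw2⟩ := hw
  obtain ⟨z1, hz1⟩ : ∃ z1, z1 = m 0 * w1 + m 1 * w2 := ⟨_, rfl⟩
  obtain ⟨z2, hz2⟩ : ∃ z2, z2 = m 2 * w1 + m 3 * w2 := ⟨_, rfl⟩
  obtain ⟨G1, G2⟩ := ALG_det hm (G1 := 2 * c 0 * z1 + c 1 * z2) (G2 := c 1 * z1 + 2 * c 2 * z2)
    (by rw [hz1, hz2]; linear_combination 2 * w1 * k0 + w2 * k1 + mu * hw1)
    (by rw [hz1, hz2]; linear_combination w1 * k1 + 2 * w2 * k2 + mu * hw2)
  have hcross : z1 * w2 - z2 * w1 = 0 := by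
    by_contra hne
    apply hc0
    refine ⟨?_, ?_, ?_⟩
    · have h' : c 0 * (z1 * w2 - z2 * w1) = 0 := by
        linear_combination (w2 / 2) * G1 - (z2 / 2) * hw1
      exact (mul_eq_zero.1 h').resolve_right hne
    · have h' : c 1 * (z1 * w2 - z2 * w1) = 0 := by
        linear_combination z1 * hw1 - w1 * G1
      exact (mul_eq_zero.1 h').resolve_right hne
    · have h' : c 2 * (z1 * w2 - z2 * w1) = 0 := by
        linear_combination (z1 / 2) * hw2 - (w1 / 2) * G2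
      exact (mul_eq_zero.1 h').resolve_right hne
  have hnorm : z1 ^ 2 + z2 ^ 2 = w1 ^ 2 + w2 ^ 2 := by
    have h' : z1 ^ 2 + z2 ^ 2 = w1 ^ 2 * a + 2 * (w1 * w2) * b + w2 ^ 2 * e := by
      rw [hz1, hz2, ha, hb, he]
      ring
    rw [h']
    linear_combination (-(w1 ^ 2)) * l0 - (w1 * w2) * l1 - w2 ^ 2 * l2 - (lam / 2 * w1) * hw1 -
      (lam / 2 * w2) * hw2
  obtain ⟨κ, hκ⟩ : ∃ κ, κ = c 3 * w1 + c 4 * w2 := ⟨_, rfl⟩
  have hder : c 3 * z1 + c 4 * z2 = mu * κ := by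
    rw [hκ]
    have h' : w1 * (2 * c 0 * (m 0 * m 4) + c 1 * (m 0 * m 5 + m 2 * m 4) + 2 * c 2 * (m 2 * m 5) +
        c 3 * m 0 + c 4 * m 2) + w2 * (2 * c 0 * (m 1 * m 4) + c 1 * (m 1 * m 5 + m 3 * m 4) +
        2 * c 2 * (m 3 * m 5) + c 3 * m 1 + c 4 * m 3) =
        m 4 * (2 * c 0 * z1 + c 1 * z2) + m 5 * (c 1 * z1 + 2 * c 2 * z2) + (c 3 * z1 + c 4 * z2) := by
      rw [hz1, hz2]
      ring
    rw [k3, k4, G1, G2] at h'
    linear_combination -h'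
  have hκ0 : κ ≠ 0 := by
    intro hκz
    have hc00 : c ≠ 0 := by
      rintro rfl
      exact hc0 ⟨rfl, rfl, rfl⟩
    have h5 : 0 < Y.card := by
      have := hY.1
      omega
    obtain ⟨y, hy⟩ := Finset.card_pos.1 h5
    have hline : ∀ t : ℝ, qd c ⟨y.re + t * w1, y.im + t * w2⟩ = 0 := by
      intro t
      have hy0 := hc y hy
      rw [hκ] at hκz
      unfold qd at hy0 ⊢
      change c 0 * (y.re + t * w1) ^ 2 + c 1 * ((y.re + t * w1) * (y.im + t * w2)) +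
        c 2 * (y.im + t * w2) ^ 2 + c 3 * (y.re + t * w1) + c 4 * (y.im + t * w2) + c 5 = 0
      linear_combination hy0 + t * hκz + (t * y.re + t ^ 2 * w1 / 2) * hw1 +
        (t * y.im + t ^ 2 * w2 / 2) * hw2
    refine hc00 (FIVE0 Y hY c hc y ⟨y.re + 1 * w1, y.im + 1 * w2⟩ ?_ 2 two_ne_zero (by norm_num)
      (hc y hy) (hline 1) ?_)
    · intro hyy
      have r1 := congrArg Complex.re hyy
      have r2 := congrArg Complex.im hyy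
      change y.re = y.re + 1 * w1 at r1
      change y.im = y.im + 1 * w2 at r2
      rcases hw0 with h | h
      · exact h (by linarith)
      · exact h (by linarith)
    · have h' := hline 2
      have e1 : y + ((2 : ℝ) : ℂ) * ((⟨y.re + 1 * w1, y.im + 1 * w2⟩ : ℂ) - y) =
          ⟨y.re + 2 * w1, y.im + 2 * w2⟩ := by
        refine Complex.ext ?_ ?_
        · simp only [Complex.add_re, Complex.mul_re, Complex.ofReal_re, Complex.ofReal_im,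
            zero_mul, sub_zero, Complex.sub_re]
          ring
        · simp only [Complex.add_im, Complex.mul_im, Complex.ofReal_re, Complex.ofReal_im,
            zero_mul, add_zero, Complex.sub_im]
          ring
      rw [e1]
      exact h'
  -- `z = ± w`
  have hmu2 : mu ^ 2 = 1 := by
    have hs : (c 3 * z1 + c 4 * z2) ^ 2 = κ ^ 2 := by
      -- z = ρ w with ρ ^ 2 = 1
      have hn : 0 < w1 ^ 2 + w2 ^ 2 := by
        rcases hw0 with h | h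
        · have := sq_nonneg w2
          have : 0 < w1 ^ 2 := by positivity
          linarith
        · have := sq_nonneg w1
          have : 0 < w2 ^ 2 := by positivity
          linarith
      obtain ⟨ρ, hρ⟩ : ∃ ρ, ρ = (z1 * w1 + z2 * w2) / (w1 ^ 2 + w2 ^ 2) := ⟨_, rfl⟩
      rw [eq_div_iff hn.ne'] at hρ
      have r1 : z1 = ρ * w1 := by
        have h' : (w1 ^ 2 + w2 ^ 2) * (z1 - ρ * w1) = 0 := by
          linear_combination w2 * hcross - w1 * hρ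
        have := (mul_eq_zero.1 h').resolve_left hn.ne'
        linarith
      have r2 : z2 = ρ * w2 := by
        have h' : (w1 ^ 2 + w2 ^ 2) * (z2 - ρ * w2) = 0 := by
          linear_combination (-w1) * hcross - w2 * hρ
        have := (mul_eq_zero.1 h').resolve_left hn.ne'
        linarith
      have r3 : ρ ^ 2 = 1 := by
        have h' : (w1 ^ 2 + w2 ^ 2) * (ρ ^ 2 - 1) = 0 := by
          rw [r1, r2] at hnorm
          linear_combination hnorm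
        have := (mul_eq_zero.1 h').resolve_left hn.ne'
        linarith
      rw [r1, r2, hκ]
      linear_combination (c 3 * w1 + c 4 * w2) ^ 2 * r3
    rw [hder] at hs
    have h' : κ ^ 2 * (mu ^ 2 - 1) = 0 := by linear_combination hs
    have := (mul_eq_zero.1 h').resolve_left (pow_ne_zero 2 hκ0)
    linarith
  have hmu0 : 0 < mu := by
    rw [hmuD]
    exact hDpos
  have hmu1 : (mu - 1) * (mu + 1) = 0 := by linear_combination hmu2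
  rcases mul_eq_zero.1 hmu1 with h' | h'
  · linarith
  · linarith

theorem ALG (Y : Finset ℂ) (hY : gen5 Y) (c : Fin 6 → ℝ) (hc0 : isConic c) (hc : ∀ y ∈ Y, qd c y = 0) (m : Fin 6 → ℝ)
    (hm : 0 < m 0 * m 3 - m 1 * m 2) (x x' : ℂ) (hT : ∀ y ∈ Y, qd c (aff m y) = 0)
    (hd : ∀ y ∈ Y, dist x y = dist x' (aff m y)) : orth m := by
  have hc00 : c ≠ 0 := by
    rintro rfl
    exact hc0 ⟨rfl, rfl, rfl⟩
  obtain ⟨mu, hmu⟩ := FIVE Y hY c (ALG_k c m) hc00 hc (fun y hy => by rw [ALG_k_qd]; exact hT y hy)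
  obtain ⟨lam, hlam⟩ := FIVE Y hY c (ALG_d m x x') hc00 hc (fun y hy => by
    rw [ALG_d_qd, hd y hy, sub_self])
  have hq : ∀ (k : Fin 6 → ℝ) (l : ℝ), (∀ i, k i = l * c i) → ∀ y, qd k y = l * qd c y := by
    intro k l h y
    unfold qd
    rw [h 0, h 1, h 2, h 3, h 4, h 5]
    ring
  have h1 : ∀ y : ℂ, qd c (aff m y) = mu * qd c y := fun y => by
    rw [← ALG_k_qd]
    exact hq _ _ hmu y
  have h2 : ∀ y : ℂ, dist x y ^ 2 - dist x' (aff m y) ^ 2 = lam * qd c y := fun y => by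
    rw [← ALG_d_qd]
    exact hq _ _ hlam y
  by_cases hE : 4 * c 0 * c 2 - c 1 ^ 2 = 0
  · exact ALG2 Y hY c hc0 hc m hm x x' mu lam h1 h2 hE
  · exact ALG1 Y hY c hc0 hc m hm x x' mu lam h1 h2 hE

end Pool.Agent.H3.FQ
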