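import Pool.Agent.H3.FQ.CH

/-!
# ANG: few popular isometries with the same rotation factor

`A_g = dom0 q v g ⊆ range q`, `|A_g| ≥ η q`. For `g ≠ h` in `S` (same rotation factor `a`, translations `b ≠ b'`): `|A_g ∩ A_h| ≤ 1`, since `i ∈ A_g ∩ A_h` gives `j, j' < q` with
`v j - v j' = b - b' ≠ 0`, and by `nt` the pair `(j, j')` is the same for all `i`, so `v i` (`a ≠ 0` not needed: if `a = 0` then all `act g (v i) = b`... so assume `a ≠ 0`, given) and `i` (`Chain_inj`) are determined.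
If `|S| > 2/η + 1` choose a subset of size `s = ⌊2/η⌋ + 1`, `2/η < s ≤ 2/η + 1`: `q ≥ |⋃ A_g| ≥ s η q - s (s-1)/2 ≥ 2 q - s^2/2` (inclusion-exclusion, e.g. order the sets `A_1, ..., A_s` and count new elements, or
`∑_i c_i - ∑_i c_i (c_i - 1)/2 ≤ q` pointwise with `c_i = #{g : i ∈ A_g}`, `c - c (c-1)/2 ≤ 1`), so `q ≤ s^2/2 ≤ (2/η+1)^2/2 < q`. Contradiction.
-/

set_option autoImplicit false

namespace Pool.Agent.H3.FQ

open Classical

private lemma ANG_inter {q : ℕ} {v : ℕ → ℂ} (hv : Chain q v) {g h : ℂ × ℂ} (hgh : g ≠ h)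
    (h1 : g.1 = h.1) (h0 : g.1 ≠ 0) : (dom0 q v g ∩ dom0 q v h).card ≤ 1 := by
  rw [Finset.card_le_one]
  intro i hi i' hi'
  simp only [dom0, Finset.mem_inter, Finset.mem_filter, Finset.mem_range] at hi hi'
  obtain ⟨⟨hiq, j, hj, ej⟩, ⟨-, k, hk, ek⟩⟩ := hi
  obtain ⟨⟨hiq', j', hj', ej'⟩, ⟨-, k', hk', ek'⟩⟩ := hi'
  have hb : g.2 - h.2 ≠ 0 := by
    intro hb
    exact hgh (Prod.ext h1 (sub_eq_zero.1 hb))
  have e1 : v j - v k = g.2 - h.2 := by
    rw [ej, ek]
    unfold act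
    rw [h1]
    ring
  have e2 : v j' - v k' = g.2 - h.2 := by
    rw [ej', ek']
    unfold act
    rw [h1]
    ring
  have hne : k ≠ j := by
    intro he
    rw [he, sub_self] at e1
    exact hb e1.symm
  obtain ⟨-, hjj⟩ := nt hv hk hj hk' hj' hne (e1.trans e2.symm)
  apply Chain_inj hv hiq hiq'
  have e3 : act g (v i) = act g (v i') := by rw [← ej, ← ej', hjj]
  unfold act at e3
  exact mul_left_cancel₀ h0 (add_right_cancel e3)

private lemma ANG_incl {α : Type*} [DecidableEq α] (A : α → Finset ℕ) (T : Finset α)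
    (h : ∀ g ∈ T, ∀ h ∈ T, g ≠ h → (A g ∩ A h).card ≤ 1) :
    2 * ∑ g ∈ T, (A g).card + T.card ≤ 2 * (T.biUnion A).card + T.card * T.card := by
  induction T using Finset.induction_on with
  | empty => simp
  | insert x T hx ih =>
    have ih' := ih (fun g hg h' hh' hne => h g (Finset.mem_insert_of_mem hg) h' (Finset.mem_insert_of_mem hh') hne)
    rw [Finset.sum_insert hx, Finset.biUnion_insert, Finset.card_insert_of_notMem hx]
    have h1 : (A x ∩ T.biUnion A).card ≤ T.card := by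
      rw [Finset.inter_biUnion]
      refine Finset.card_biUnion_le.trans ?_
      calc ∑ u ∈ T, (A x ∩ A u).card ≤ ∑ u ∈ T, 1 := by
            apply Finset.sum_le_sum
            intro u hu
            exact h x (Finset.mem_insert_self _ _) u (Finset.mem_insert_of_mem hu)
              (fun he => hx (he ▸ hu))
        _ = T.card := by simp
    have h2 := Finset.card_union_add_card_inter (A x) (T.biUnion A)
    nlinarith

theorem ANG {q : ℕ} {v : ℕ → ℂ} (hv : Chain q v) (η : ℝ) (hη : 0 < η) (S : Finset (ℂ × ℂ)) (a : ℂ) (ha : a ≠ 0)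
    (hS : ∀ g ∈ S, g.1 = a ∧ η * q ≤ ((dom0 q v g).card : ℝ)) (hq : (2 / η + 1) ^ 2 ≤ (q : ℝ)) :
    (S.card : ℝ) ≤ 2 / η + 1 := by
  by_contra hcon
  rw [not_le] at hcon
  have hη2 : 0 < 2 / η := by positivity
  have hs1 : 2 / η < ((⌊2 / η⌋₊ + 1 : ℕ) : ℝ) := by
    push_cast
    exact Nat.lt_floor_add_one _
  have hs2 : ((⌊2 / η⌋₊ + 1 : ℕ) : ℝ) ≤ 2 / η + 1 := by
    push_cast
    linarith [Nat.floor_le hη2.le]
  generalize hsd : ⌊2 / η⌋₊ + 1 = s at hs1 hs2
  have hsS : s ≤ S.card := by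
    have : (s : ℝ) < S.card := lt_of_le_of_lt hs2 hcon
    exact_mod_cast this.le
  obtain ⟨T, hTS, hTc⟩ := Finset.exists_subset_card_eq hsS
  have h1 := ANG_incl (fun g => dom0 q v g) T (by
    intro g hg h hh hne
    refine ANG_inter hv hne ?_ ?_
    · rw [(hS g (hTS hg)).1, (hS h (hTS hh)).1]
    · rw [(hS g (hTS hg)).1]
      exact ha)
  have h2 : (T.biUnion (fun g => dom0 q v g)).card ≤ q := by
    have : T.biUnion (fun g => dom0 q v g) ⊆ Finset.range q := by
      intro i hi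
      rw [Finset.mem_biUnion] at hi
      obtain ⟨g, -, hg⟩ := hi
      exact (Finset.mem_filter.1 hg).1
    simpa using Finset.card_le_card this
  have h3 : (s : ℝ) * (η * q) ≤ ∑ g ∈ T, ((dom0 q v g).card : ℝ) := by
    calc (s : ℝ) * (η * q) = ∑ g ∈ T, η * q := by rw [Finset.sum_const, hTc, nsmul_eq_mul]
      _ ≤ _ := Finset.sum_le_sum (fun g hg => (hS g (hTS hg)).2)
  have h4 : 2 * ∑ g ∈ T, ((dom0 q v g).card : ℝ) + s ≤ 2 * q + s * s := by
    have h5 : 2 * ∑ g ∈ T, (dom0 q v g).card + T.card ≤ 2 * q + T.card * T.card := by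
      refine h1.trans ?_
      gcongr
    rw [hTc] at h5
    exact_mod_cast h5
  have hq1 : (1 : ℝ) < q := by nlinarith
  have h6 : 2 < s * η := by
    rw [div_lt_iff₀ hη] at hs1
    exact hs1
  have hs0 : (0 : ℝ) ≤ s := by positivity
  have h7 : (s : ℝ) * s ≤ q := by nlinarith
  nlinarith

end Pool.Agent.H3.FQ
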