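import Pool.Agent.H3.FQ.Defs

/-!
# CH: facts on chains

Let `t` be the slopes. For `i < j < q`, `Δ = v j - v i`, `Δ.re > 0`: `supp` at `i` (point `j`) gives `t i Δ.re < Δ.im`, `supp` at `j` (point `i`) gives `t j (-Δ.re) < -Δ.im`, so
`t i Δ.re < Δ.im < t j Δ.re`.
* `Chain_slope`: `|Δ.im| < Δ.re` (`|t| ≤ 1`). `Chain_inj`.
* `mon1`, `mon2`: `i < j < l`: `a = v i - v j`, `b = v l - v j`: `a.re < 0 < b.re`, `|a.im| < -a.re`, `|b.im| < b.re`, so `a.re b.re + a.im b.im < 0`;
  `dist(v i, v l)^2 = |a|^2 + |b|^2 - 2 (a.re b.re + a.im b.im) > |a|^2, |b|^2`.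
* `ori`: slopes `(v j - v i)` < `t j` < slope of `v l - v j`: `crs (v i) (v j) (v l) = re(v j - v i) im(v l - v j) - im(v j - v i) re(v l - v j) > 0`.
* `nt`: if `v j - v i = v l - v k ≠ 0` and `i ≠ k`; real parts: `i < j` iff `k < l`, w.l.o.g. `i < j`, `k < l`, `i < k` (then `j < l`). If `j ≤ k`: slope of `(i,j)` `< t j ≤ t k <` slope of `(k,l)`
  (`t` is strictly increasing), contradiction with equal slopes. If `i < k < j < l`: slope(i,j) < slope(k,j) < slope(k,l) by `ori` for `(i,k,j)` and `(k,j,l)`.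
-/

set_option autoImplicit false

namespace Pool.Agent.H3.FQ

/-- both supporting lines -/
theorem CH_two {q : ℕ} {v : ℕ → ℂ} {t : ℕ → ℝ}
    (hm : ∀ i j, i < j → j < q → (v i).re < (v j).re)
    (ht : ∀ i < q, |t i| ≤ 1 ∧ ∀ j < q, j ≠ i → t i * ((v j).re - (v i).re) < (v j).im - (v i).im)
    {i j : ℕ} (hij : i < j) (hj : j < q) :
    0 < (v j).re - (v i).re ∧ t i * ((v j).re - (v i).re) < (v j).im - (v i).im ∧
      (v j).im - (v i).im < t j * ((v j).re - (v i).re) := by
  have h1 := hm i j hij hj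
  have h2 := (ht i (hij.trans hj)).2 j hj hij.ne'
  have h3 := (ht j hj).2 i (hij.trans hj) hij.ne
  refine ⟨by linarith, h2, by linarith⟩

theorem CH_lt {x y t : ℝ} (ht : |t| ≤ 1) (hx : 0 < x) : -x ≤ t * x ∧ t * x ≤ x := by
  obtain ⟨h1, h2⟩ := abs_le.1 ht
  constructor <;> nlinarith

theorem Chain_slope {q : ℕ} {v : ℕ → ℂ} (hv : Chain q v) {i j : ℕ} (hij : i < j) (hj : j < q) :
    |(v j).im - (v i).im| < (v j).re - (v i).re := by
  obtain ⟨t, ht⟩ := hv.supp
  obtain ⟨h1, h2, h3⟩ := CH_two hv.mono ht hij hj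
  have h4 := (CH_lt (y := 0) (ht i (hij.trans hj)).1 h1).1
  have h5 := (CH_lt (y := 0) (ht j hj).1 h1).2
  rw [abs_lt]
  constructor <;> linarith

theorem Chain_inj {q : ℕ} {v : ℕ → ℂ} (hv : Chain q v) {i j : ℕ} (hi : i < q) (hj : j < q) (h : v i = v j) : i = j := by
  rcases lt_trichotomy i j with h1 | h1 | h1
  · have := hv.mono i j h1 hj
    rw [h] at this
    exact absurd this (lt_irrefl _)
  · exact h1
  · have := hv.mono j i h1 hi
    rw [h] at this
    exact absurd this (lt_irrefl _)

/-- the angle at the middle point is obtuse -/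
theorem CH_obt {q : ℕ} {v : ℕ → ℂ} (hv : Chain q v) {i j l : ℕ} (hij : i < j) (hjl : j < l) (hl : l < q) :
    0 < ((v j).re - (v i).re) * ((v l).re - (v j).re) + ((v j).im - (v i).im) * ((v l).im - (v j).im) := by
  have h1 := Chain_slope hv hij (hjl.trans hl)
  have h2 := Chain_slope hv hjl hl
  have h3 : |((v j).im - (v i).im) * ((v l).im - (v j).im)| < ((v j).re - (v i).re) * ((v l).re - (v j).re) := by
    rw [abs_mul]
    exact mul_lt_mul'' h1 h2 (abs_nonneg _) (abs_nonneg _)
  have h4 := (abs_lt.1 h3).1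
  linarith

theorem CH_sq {a b c d : ℝ} (h : 0 < a * c + b * d) (ha : a ≠ 0 ∨ b ≠ 0) : c ^ 2 + d ^ 2 < (a + c) ^ 2 + (b + d) ^ 2 := by
  have : 0 < a ^ 2 + b ^ 2 := by
    rcases ha with h | h
    · positivity
    · positivity
  nlinarith

theorem mon1 {q : ℕ} {v : ℕ → ℂ} (hv : Chain q v) {i j l : ℕ} (hij : i < j) (hjl : j < l) (hl : l < q) :
    dist (v i) (v j) < dist (v i) (v l) := by
  have h := CH_obt hv hij hjl hl
  have h1 := hv.mono j l hjl hl
  rw [Complex.dist_eq_re_im, Complex.dist_eq_re_im]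
  apply Real.sqrt_lt_sqrt (by positivity)
  have := CH_sq (a := (v l).re - (v j).re) (b := (v l).im - (v j).im) (c := (v j).re - (v i).re)
    (d := (v j).im - (v i).im) (by linarith) (Or.inl (by linarith))
  nlinarith

theorem mon2 {q : ℕ} {v : ℕ → ℂ} (hv : Chain q v) {i j l : ℕ} (hij : i < j) (hjl : j < l) (hl : l < q) :
    dist (v j) (v l) < dist (v i) (v l) := by
  have h := CH_obt hv hij hjl hl
  have h1 := hv.mono i j hij (hjl.trans hl)
  rw [Complex.dist_eq_re_im, Complex.dist_eq_re_im]
  apply Real.sqrt_lt_sqrt (by positivity)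
  have := CH_sq (a := (v j).re - (v i).re) (b := (v j).im - (v i).im) (c := (v l).re - (v j).re)
    (d := (v l).im - (v j).im) (by linarith) (Or.inl (by linarith))
  nlinarith

theorem ori {q : ℕ} {v : ℕ → ℂ} (hv : Chain q v) {i j l : ℕ} (hij : i < j) (hjl : j < l) (hl : l < q) :
    0 < crs (v i) (v j) (v l) := by
  obtain ⟨t, ht⟩ := hv.supp
  obtain ⟨h1, h2, h3⟩ := CH_two hv.mono ht hij (hjl.trans hl)
  obtain ⟨h4, h5, h6⟩ := CH_two hv.mono ht hjl hl
  have e : crs (v i) (v j) (v l) = ((v j).re - (v i).re) * ((v l).im - (v j).im)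
      - ((v j).im - (v i).im) * ((v l).re - (v j).re) := by
    unfold crs; ring
  rw [e]
  have k1 := mul_lt_mul_of_pos_left h5 h1
  have k2 := mul_lt_mul_of_pos_right h3 h4
  nlinarith

/-- two different chords with the same positive difference vector do not exist -/
theorem CH_nt {q : ℕ} {v : ℕ → ℂ} (hv : Chain q v) {i j k l : ℕ} (hij : i < j) (hj : j < q) (hkl : k < l) (hl : l < q)
    (h : v j - v i = v l - v k) : ¬ i < k := by
  intro hik
  have hre : (v j).re - (v i).re = (v l).re - (v k).re := by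
    have := congrArg Complex.re h
    simpa using this
  have him : (v j).im - (v i).im = (v l).im - (v k).im := by
    have := congrArg Complex.im h
    simpa using this
  have hk : k < q := hkl.trans hl
  have h0 := hv.mono i k hik hk
  have hjl : j < l := by
    by_contra hcon
    have hlj : l ≤ j := not_lt.1 hcon
    rcases hlj.eq_or_lt with h1 | h1
    · rw [h1] at hre
      linarith
    · have := hv.mono l j h1 hj
      linarith
  obtain ⟨t, ht⟩ := hv.supp
  -- slopes: `(i, j)` against `(j, l)` and `(i, k)` against `(k, l)`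
  obtain ⟨a1, a2, a3⟩ := CH_two hv.mono ht hij hj
  obtain ⟨b1, b2, b3⟩ := CH_two hv.mono ht hkl hl
  obtain ⟨c1, c2, c3⟩ := CH_two hv.mono ht hik hk
  obtain ⟨d1, d2, d3⟩ := CH_two hv.mono ht hjl hl
  -- slope `(i, l)` both ways: parallelogram `v k - v i = v l - v j`
  have e1 : (v k).re - (v i).re = (v l).re - (v j).re := by linarith
  have e2 : (v k).im - (v i).im = (v l).im - (v j).im := by linarith
  -- `t k Re(k - i) > Im(k - i) = Im(l - j) > t j Re(l - j)`, so `t k > t j`
  have f1 : t j < t k := by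
    by_contra hcon
    have hcon' : t k ≤ t j := not_lt.1 hcon
    have := mul_le_mul_of_nonneg_right hcon' c1.le
    rw [← e1, ← e2] at d2
    linarith
  -- `t k Re(l - k) < Im(l - k) = Im(j - i) < t j Re(j - i)`, so `t k < t j`
  have f2 : t k < t j := by
    by_contra hcon
    have hcon' : t j ≤ t k := not_lt.1 hcon
    have := mul_le_mul_of_nonneg_right hcon' a1.le
    rw [← hre, ← him] at b2
    linarith
  exact lt_irrefl _ (f1.trans f2)

theorem nt {q : ℕ} {v : ℕ → ℂ} (hv : Chain q v) {i j k l : ℕ} (hi : i < q) (hj : j < q) (hk : k < q) (hl : l < q)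
    (hne : i ≠ j) (h : v j - v i = v l - v k) : i = k ∧ j = l := by
  have hre : (v j).re - (v i).re = (v l).re - (v k).re := by
    have := congrArg Complex.re h
    simpa using this
  have key : i = k → i = k ∧ j = l := by
    intro hik
    refine ⟨hik, ?_⟩
    rw [hik] at h
    exact Chain_inj hv hj hl (sub_left_injective h)
  apply key
  rcases lt_or_gt_of_ne hne with hij | hij
  · have h1 := hv.mono i j hij hj
    have hkl : k < l := by
      by_contra hcon
      rcases (not_lt.1 hcon).eq_or_lt with h2 | h2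
      · rw [h2] at hre; linarith
      · have := hv.mono l k h2 hk
        linarith
    rcases lt_trichotomy i k with h2 | h2 | h2
    · exact absurd h2 (CH_nt hv hij hj hkl hl h)
    · exact h2
    · exact absurd h2 (CH_nt hv hkl hl hij hj h.symm)
  · have h1 := hv.mono j i hij hi
    have hkl : l < k := by
      by_contra hcon
      rcases (not_lt.1 hcon).eq_or_lt with h2 | h2
      · rw [h2] at hre; linarith
      · have := hv.mono k l h2 hl
        linarith
    have h' : v i - v j = v k - v l := by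
      have := congrArg Neg.neg h
      simpa using this
    have h3 : j = l := by
      rcases lt_trichotomy j l with h2 | h2 | h2
      · exact absurd h2 (CH_nt hv hij hi hkl hk h')
      · exact h2
      · exact absurd h2 (CH_nt hv hkl hk hij hi h'.symm)
    rw [h3] at h'
    exact Chain_inj hv hi hk (sub_left_injective h')

end Pool.Agent.H3.FQ
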