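import Pool.Agent.H3.FQ.CH

/-!
# CHN: sets in convex position contain chains

`CHNa`: `V ⊆ ℂ`, every `x ∈ V` has `a, b` with `|a| ≤ b`, `0 < b` and `a re x + b im x < a re y + b im y` for the other `y ∈ V`. Different points have different real parts (equal real parts: `b im x < b im y` and conversely). Sort by real part:
`v 0, ..., v (|V|-1)` (e.g. `Finset.sort`/`orderEmbOfFin` of `V.image re` and the inverse of `re`, or induction), slope `t i = -a/b`.
`CHN`: `x ∉ convexHull ℝ (V \ {x})` (a compact convex set, `Set.Finite.isCompact_convexHull`, closed): `geometric_hahn_banach_point_closed` gives a continuous linear functional `f` with `f x < f y` for all `y ∈ V \ {x}`. With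
`e0 : Plane ≃ₗᵢ[ℝ] ℂ` (`Complex.orthonormalBasisOneI.repr.symm`), `f x = a re (e0 x) + b im (e0 x)`; if `(a, b) = 0` then `V = {x}` and we may take `(0, 1)`. One of `|a| ≤ b`, `|a| ≤ -b`, `|b| ≤ a`, `|b| ≤ -a` holds; multiplication by
`1, -1, i, -i` of `ℂ` (`(a, b)` is rotated accordingly) brings it to the first case. One of the four classes has at least `|V|/4` elements; `CHNa` for its image (under the isometry `e = k e0`); the inequalities hold for all `y ∈ V`, so in the class.
-/

set_option autoImplicit false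

namespace Pool.Agent.H3.FQ

open Classical

theorem CHNa (V : Finset ℂ) (h : ∀ x ∈ V, ∃ a b : ℝ, |a| ≤ b ∧ 0 < b ∧ ∀ y ∈ V, y ≠ x → a * x.re + b * x.im < a * y.re + b * y.im) :
    ∃ v : ℕ → ℂ, Chain V.card v ∧ ∀ i < V.card, v i ∈ V := by
  have hinj : Set.InjOn Complex.re (V : Set ℂ) := by
    intro x hx y hy hxy
    by_contra hne
    obtain ⟨a, b, -, hb, h1⟩ := h x hx
    obtain ⟨a', b', -, hb', h2⟩ := h y hy
    have h3 := h1 y hy (Ne.symm hne)
    have h4 := h2 x hx hne
    rw [hxy] at h3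
    rw [hxy] at h4
    have h5 : x.im < y.im := lt_of_mul_lt_mul_left (by linarith) hb.le
    have h6 : y.im < x.im := lt_of_mul_lt_mul_left (by linarith) hb'.le
    linarith
  have hc : (V.image Complex.re).card = V.card := Finset.card_image_of_injOn hinj
  have hf : ∀ i : Fin V.card, ∃ x ∈ V, x.re = (V.image Complex.re).orderEmbOfFin hc i := fun i =>
    Finset.mem_image.1 (Finset.orderEmbOfFin_mem (V.image Complex.re) hc i)
  choose w hw hwf using hf
  have hlt : ∀ i j : Fin V.card, i < j → (w i).re < (w j).re := by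
    intro i j hij
    rw [hwf i, hwf j]
    exact ((V.image Complex.re).orderEmbOfFin hc).strictMono hij
  obtain ⟨v, hv⟩ : ∃ v : ℕ → ℂ, ∀ i (hi : i < V.card), v i = w ⟨i, hi⟩ :=
    ⟨fun i => if hi : i < V.card then w ⟨i, hi⟩ else 0, fun i hi => dif_pos hi⟩
  have hmem : ∀ i < V.card, v i ∈ V := fun i hi => by
    rw [hv i hi]
    exact hw _
  have hmono : ∀ i j, i < j → j < V.card → (v i).re < (v j).re := by
    intro i j hij hj
    rw [hv i (hij.trans hj), hv j hj]
    exact hlt _ _ hij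
  refine ⟨v, ⟨hmono, ?_⟩, hmem⟩
  have h' : ∀ i : ℕ, ∃ t : ℝ, i < V.card → |t| ≤ 1 ∧ ∀ j < V.card, j ≠ i →
      t * ((v j).re - (v i).re) < (v j).im - (v i).im := by
    intro i
    by_cases hi : i < V.card
    · obtain ⟨a, b, hab, hb, h1⟩ := h (v i) (hmem i hi)
      refine ⟨-a / b, fun _ => ⟨?_, ?_⟩⟩
      · rw [abs_div, abs_neg, abs_of_pos hb, div_le_one hb]
        exact hab
      · intro j hj hji
        have hne : v j ≠ v i := by
          intro h2
          rcases lt_or_gt_of_ne hji with h3 | h3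
          · have h4 := hmono j i h3 hi
            rw [h2] at h4
            exact lt_irrefl _ h4
          · have h4 := hmono i j h3 hj
            rw [h2] at h4
            exact lt_irrefl _ h4
        have h5 := h1 (v j) (hmem j hj) hne
        have h6 : -a / b * ((v j).re - (v i).re) = (-a * ((v j).re - (v i).re)) / b := by ring
        rw [h6, div_lt_iff₀ hb]
        linarith
    · exact ⟨0, fun h2 => absurd h2 hi⟩
  choose t ht using h'
  exact ⟨t, ht⟩

/-- a separating direction -/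
theorem CHN_fun (V : Finset (EuclideanSpace ℝ (Fin 2))) (e0 : EuclideanSpace ℝ (Fin 2) ≃ₗᵢ[ℝ] ℂ)
    (x : EuclideanSpace ℝ (Fin 2))
    (h : x ∉ convexHull ℝ ((V : Set (EuclideanSpace ℝ (Fin 2))) \ {x})) :
    ∃ a b : ℝ, ¬ (a = 0 ∧ b = 0) ∧ ∀ y ∈ V, y ≠ x →
      a * (e0 x).re + b * (e0 x).im < a * (e0 y).re + b * (e0 y).im := by
  have hfin : ((V : Set (EuclideanSpace ℝ (Fin 2))) \ {x}).Finite := V.finite_toSet.subset Set.sdiff_subset
  obtain ⟨f, u, hu, hf⟩ := geometric_hahn_banach_point_closed (convex_convexHull ℝ _)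
    (hfin.isClosed_convexHull ℝ) h
  have hlt : ∀ y ∈ V, y ≠ x → f x < f y := fun y hy hyx =>
    hu.trans (hf y (subset_convexHull ℝ _ ⟨Finset.mem_coe.2 hy, hyx⟩))
  have hg : ∀ p, f p = f (e0.symm 1) * (e0 p).re + f (e0.symm Complex.I) * (e0 p).im := by
    intro p
    have h1 : e0 p = (e0 p).re • (1 : ℂ) + (e0 p).im • Complex.I := by
      apply Complex.ext <;> simp
    have h2 : p = (e0 p).re • e0.symm 1 + (e0 p).im • e0.symm Complex.I := by
      rw [← map_smul, ← map_smul, ← map_add, ← h1, LinearIsometryEquiv.symm_apply_apply]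
    have h3 : f p = f ((e0 p).re • e0.symm 1 + (e0 p).im • e0.symm Complex.I) := congrArg f h2
    rw [h3, map_add, map_smul, map_smul, smul_eq_mul, smul_eq_mul, mul_comm, mul_comm (e0 p).im]
  by_cases h0 : f (e0.symm 1) = 0 ∧ f (e0.symm Complex.I) = 0
  · refine ⟨0, 1, fun h1 => one_ne_zero h1.2, ?_⟩
    intro y hy hyx
    have h1 := hlt y hy hyx
    rw [hg x, hg y, h0.1, h0.2] at h1
    simp only [zero_mul, add_zero] at h1
    exact absurd h1 (lt_irrefl _)
  · refine ⟨_, _, h0, ?_⟩
    intro y hy hyx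
    rw [← hg x, ← hg y]
    exact hlt y hy hyx

/-- the class of `k` -/
theorem CHN_class (V : Finset (EuclideanSpace ℝ (Fin 2))) (e0 : EuclideanSpace ℝ (Fin 2) ≃ₗᵢ[ℝ] ℂ)
    (k : ℂ) (hk : ‖k‖ = 1) :
    ∃ (v : ℕ → ℂ) (e : EuclideanSpace ℝ (Fin 2) ≃ᵢ ℂ),
      Chain (V.filter (fun x => ∃ a b : ℝ, |a| ≤ b ∧ 0 < b ∧ ∀ y ∈ V, y ≠ x →
        a * (k * e0 x).re + b * (k * e0 x).im < a * (k * e0 y).re + b * (k * e0 y).im)).card v ∧
      ∀ i < (V.filter (fun x => ∃ a b : ℝ, |a| ≤ b ∧ 0 < b ∧ ∀ y ∈ V, y ≠ x →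
        a * (k * e0 x).re + b * (k * e0 x).im < a * (k * e0 y).re + b * (k * e0 y).im)).card,
        e.symm (v i) ∈ V := by
  obtain ⟨W, hW⟩ : ∃ W, W = V.filter (fun x => ∃ a b : ℝ, |a| ≤ b ∧ 0 < b ∧ ∀ y ∈ V, y ≠ x →
        a * (k * e0 x).re + b * (k * e0 x).im < a * (k * e0 y).re + b * (k * e0 y).im) := ⟨_, rfl⟩
  rw [← hW]
  obtain ⟨r, hr⟩ : ∃ r : ℂ ≃ₗᵢ[ℝ] ℂ, ∀ z, r z = k * z :=
    ⟨rotation ⟨k, mem_sphere_zero_iff_norm.2 hk⟩, fun z => rotation_apply _ z⟩
  have hinj : Function.Injective (fun x => r (e0 x)) := r.injective.comp e0.injective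
  have hcard : (W.image (fun x => r (e0 x))).card = W.card := Finset.card_image_of_injective _ hinj
  obtain ⟨v, hv, hmem⟩ := CHNa (W.image (fun x => r (e0 x))) (by
    intro z hz
    obtain ⟨x, hx, rfl⟩ := Finset.mem_image.1 hz
    have hx' := hx
    rw [hW] at hx'
    obtain ⟨hxV, a, b, hab, hb, h1⟩ := Finset.mem_filter.1 hx'
    refine ⟨a, b, hab, hb, ?_⟩
    intro z' hz' hne
    obtain ⟨y, hy, rfl⟩ := Finset.mem_image.1 hz'
    have hy' := hy
    rw [hW] at hy'
    have hyx : y ≠ x := fun h2 => hne (by rw [h2])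
    have h2 := h1 y (Finset.mem_filter.1 hy').1 hyx
    show a * (r (e0 x)).re + b * (r (e0 x)).im < a * (r (e0 y)).re + b * (r (e0 y)).im
    rw [hr, hr]
    exact h2)
  rw [hcard] at hv hmem
  refine ⟨v, (e0.trans r).toIsometryEquiv, hv, ?_⟩
  intro i hi
  obtain ⟨x, hx, hxv⟩ := Finset.mem_image.1 (hmem i hi)
  rw [hW] at hx
  have h1 : (e0.trans r).toIsometryEquiv.symm (v i) = x := by
    rw [← hxv]
    exact (e0.trans r).symm_apply_apply x
  rw [h1]
  exact (Finset.mem_filter.1 hx).1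

theorem CHN (V : Finset (EuclideanSpace ℝ (Fin 2)))
    (h : ∀ x ∈ V, x ∉ convexHull ℝ ((V : Set (EuclideanSpace ℝ (Fin 2))) \ {x})) :
    ∃ (q : ℕ) (v : ℕ → ℂ) (e : EuclideanSpace ℝ (Fin 2) ≃ᵢ ℂ), V.card ≤ 4 * q ∧ Chain q v ∧ ∀ i < q, e.symm (v i) ∈ V := by
  obtain ⟨e0⟩ : Nonempty (EuclideanSpace ℝ (Fin 2) ≃ₗᵢ[ℝ] ℂ) := ⟨Complex.orthonormalBasisOneI.repr.symm⟩
  obtain ⟨P, hP⟩ : ∃ P : ℂ → EuclideanSpace ℝ (Fin 2) → Prop, P = fun k x => ∃ a b : ℝ, |a| ≤ b ∧ 0 < b ∧
    ∀ y ∈ V, y ≠ x → a * (k * e0 x).re + b * (k * e0 x).im < a * (k * e0 y).re + b * (k * e0 y).im := ⟨_, rfl⟩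
  have hcov : ∀ x ∈ V, P 1 x ∨ P (-1) x ∨ P Complex.I x ∨ P (-Complex.I) x := by
    intro x hx
    obtain ⟨a, b, h0, h1⟩ := CHN_fun V e0 x (h x hx)
    rw [hP]
    rcases le_total |a| |b| with hab | hab
    · rcases le_total 0 b with hb | hb
      · left
        rw [abs_of_nonneg hb] at hab
        have hb' : 0 < b := by
          rcases hb.lt_or_eq with h2 | h2
          · exact h2
          · exfalso
            rw [← h2] at hab
            exact h0 ⟨abs_nonpos_iff.1 hab, h2.symm⟩
        refine ⟨a, b, hab, hb', fun y hy hyx => ?_⟩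
        have h2 := h1 y hy hyx
        simpa using h2
      · right; left
        rw [abs_of_nonpos hb] at hab
        have hb' : 0 < -b := by
          rcases hb.lt_or_eq with h2 | h2
          · linarith
          · exfalso
            rw [h2, neg_zero] at hab
            exact h0 ⟨abs_nonpos_iff.1 hab, h2⟩
        refine ⟨-a, -b, by rw [abs_neg]; exact hab, hb', fun y hy hyx => ?_⟩
        have h2 := h1 y hy hyx
        simpa using h2
    · rcases le_total 0 a with ha | ha
      · right; right; left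
        rw [abs_of_nonneg ha] at hab
        have ha' : 0 < a := by
          rcases ha.lt_or_eq with h2 | h2
          · exact h2
          · exfalso
            rw [← h2] at hab
            exact h0 ⟨h2.symm, abs_nonpos_iff.1 hab⟩
        refine ⟨-b, a, by rw [abs_neg]; exact hab, ha', fun y hy hyx => ?_⟩
        have h2 := h1 y hy hyx
        simp only [Complex.mul_re, Complex.mul_im, Complex.I_re, Complex.I_im]
        linarith
      · right; right; right
        rw [abs_of_nonpos ha] at hab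
        have ha' : 0 < -a := by
          rcases ha.lt_or_eq with h2 | h2
          · linarith
          · exfalso
            rw [h2, neg_zero] at hab
            exact h0 ⟨h2, abs_nonpos_iff.1 hab⟩
        refine ⟨b, -a, hab, ha', fun y hy hyx => ?_⟩
        have h2 := h1 y hy hyx
        simp only [Complex.mul_re, Complex.mul_im, Complex.neg_re, Complex.neg_im, Complex.I_re, Complex.I_im]
        linarith
  have hex : ∃ k : ℂ, ‖k‖ = 1 ∧ V.card ≤ 4 * (V.filter (P k)).card := by
    by_contra hcon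
    push Not at hcon
    have c1 := hcon 1 (by simp)
    have c2 := hcon (-1) (by simp)
    have c3 := hcon Complex.I (by simp)
    have c4 := hcon (-Complex.I) (by simp)
    have h1 : V ⊆ (V.filter (P 1) ∪ V.filter (P (-1))) ∪ (V.filter (P Complex.I) ∪ V.filter (P (-Complex.I))) := by
      intro x hx
      rcases hcov x hx with h2 | h2 | h2 | h2
      · exact Finset.mem_union_left _ (Finset.mem_union_left _ (Finset.mem_filter.2 ⟨hx, h2⟩))
      · exact Finset.mem_union_left _ (Finset.mem_union_right _ (Finset.mem_filter.2 ⟨hx, h2⟩))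
      · exact Finset.mem_union_right _ (Finset.mem_union_left _ (Finset.mem_filter.2 ⟨hx, h2⟩))
      · exact Finset.mem_union_right _ (Finset.mem_union_right _ (Finset.mem_filter.2 ⟨hx, h2⟩))
    have h2 := Finset.card_le_card h1
    have h3 := Finset.card_union_le (V.filter (P 1) ∪ V.filter (P (-1))) (V.filter (P Complex.I) ∪ V.filter (P (-Complex.I)))
    have h4 := Finset.card_union_le (V.filter (P 1)) (V.filter (P (-1)))
    have h5 := Finset.card_union_le (V.filter (P Complex.I)) (V.filter (P (-Complex.I)))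
    omega
  obtain ⟨k, hk, hcard⟩ := hex
  obtain ⟨v, e, hv, hmem⟩ := CHN_class V e0 k hk
  have h6 : V.filter (P k) = V.filter (fun x => ∃ a b : ℝ, |a| ≤ b ∧ 0 < b ∧ ∀ y ∈ V, y ≠ x →
        a * (k * e0 x).re + b * (k * e0 x).im < a * (k * e0 y).re + b * (k * e0 y).im) := by
    rw [hP]
  rw [h6] at hcard
  exact ⟨_, v, e, hcard, hv, hmem⟩

end Pool.Agent.H3.FQ
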