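import Pool.Agent.H3.FQ.PC

/-!
# SYM: number of popular isometries

For `g ∈ S` let `r = |dom2 q v G g| ≥ η q ≥ 8 G + 8`. The pairs `(i, k)` in `dom2 g` with `i + 2 G < k` number at least `r (r - 1) / 2 - 2 G r = r (r - 1 - 4 G) / 2 ≥ r^2 / 4 ≥ η^2 q^2 / 4`
(for `i ∈ dom2 g` at most `2 G` elements `k` of `dom2 g` satisfy `i < k ≤ i + 2 G`). `PCs`: `|S| η^2 q^2 / 4 ≤ q^2 (2 G + 1)`; `q > 0`: `η^2 |S| ≤ 8 G + 4`... so with `12 (G + 1)` on the right hand side.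
-/

set_option autoImplicit false

namespace Pool.Agent.H3.FQ

open Classical

private lemma SYM_near (A : Finset ℕ) (m : ℕ) :
    ((A ×ˢ A).filter (fun p => p.1 ≤ p.2 + m ∧ p.2 ≤ p.1 + m)).card ≤ A.card * (2 * m + 1) := by
  have h1 : (A ×ˢ A).filter (fun p => p.1 ≤ p.2 + m ∧ p.2 ≤ p.1 + m) ⊆
      A.biUnion (fun i => (Finset.range (2 * m + 1)).image (fun t => (i, i + t - m))) := by
    intro p hp
    obtain ⟨h2, h3, h4⟩ := Finset.mem_filter.1 hp
    obtain ⟨h5, h6⟩ := Finset.mem_product.1 h2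
    refine Finset.mem_biUnion.2 ⟨p.1, h5, Finset.mem_image.2 ⟨p.2 + m - p.1, ?_, ?_⟩⟩
    · exact Finset.mem_range.2 (by omega)
    · refine Prod.ext rfl ?_
      show p.1 + (p.2 + m - p.1) - m = p.2
      omega
  refine (Finset.card_le_card h1).trans (Finset.card_biUnion_le.trans ?_)
  refine (Finset.sum_le_card_nsmul _ _ (2 * m + 1) (fun i _ => ?_)).trans (le_of_eq ?_)
  · exact Finset.card_image_le.trans (le_of_eq (Finset.card_range _))
  · rw [smul_eq_mul]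

private lemma SYM_far (A : Finset ℕ) (m : ℕ) :
    A.card ^ 2 ≤ 2 * ((A ×ˢ A).filter (fun p => p.1 + m < p.2)).card + A.card * (2 * m + 1) := by
  have h1 : ((A ×ˢ A).filter (fun p => p.2 + m < p.1)).card =
      ((A ×ˢ A).filter (fun p => p.1 + m < p.2)).card := by
    refine Finset.card_bij (fun p _ => (p.2, p.1)) ?_ ?_ ?_
    · intro p hp
      obtain ⟨h2, h3⟩ := Finset.mem_filter.1 hp
      obtain ⟨h5, h6⟩ := Finset.mem_product.1 h2
      exact Finset.mem_filter.2 ⟨Finset.mem_product.2 ⟨h6, h5⟩, h3⟩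
    · intro p _ p' _ h
      have h7 := congrArg Prod.fst h
      have h8 := congrArg Prod.snd h
      exact Prod.ext h8 h7
    · intro p hp
      obtain ⟨h2, h3⟩ := Finset.mem_filter.1 hp
      obtain ⟨h5, h6⟩ := Finset.mem_product.1 h2
      exact ⟨(p.2, p.1), Finset.mem_filter.2 ⟨Finset.mem_product.2 ⟨h6, h5⟩, h3⟩, rfl⟩
  have h2 : A ×ˢ A ⊆ ((A ×ˢ A).filter (fun p => p.1 + m < p.2) ∪
      (A ×ˢ A).filter (fun p => p.2 + m < p.1)) ∪
      (A ×ˢ A).filter (fun p => p.1 ≤ p.2 + m ∧ p.2 ≤ p.1 + m) := by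
    intro p hp
    rw [Finset.mem_union, Finset.mem_union, Finset.mem_filter, Finset.mem_filter,
      Finset.mem_filter]
    by_cases h3 : p.1 + m < p.2
    · exact Or.inl (Or.inl ⟨hp, h3⟩)
    by_cases h4 : p.2 + m < p.1
    · exact Or.inl (Or.inr ⟨hp, h4⟩)
    · exact Or.inr ⟨hp, by omega, by omega⟩
  have h3 := Finset.card_le_card h2
  rw [Finset.card_product] at h3
  have h4 := Finset.card_union_le ((A ×ˢ A).filter (fun p => p.1 + m < p.2) ∪
      (A ×ˢ A).filter (fun p => p.2 + m < p.1))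
      ((A ×ˢ A).filter (fun p => p.1 ≤ p.2 + m ∧ p.2 ≤ p.1 + m))
  have h5 := Finset.card_union_le ((A ×ˢ A).filter (fun p => p.1 + m < p.2))
      ((A ×ˢ A).filter (fun p => p.2 + m < p.1))
  have h6 := SYM_near A m
  rw [sq]
  omega

private lemma SYM_sum {α β : Type} (S : Finset α) (R : Finset β) (P : α × β → Prop)
    (i1 : DecidablePred P) (i2 : ∀ g, DecidablePred (fun b => P (g, b))) :
    ∑ g ∈ S, (R.filter (fun b => P (g, b))).card = ((S ×ˢ R).filter P).card := by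
  rw [Finset.card_filter, Finset.sum_product]
  refine Finset.sum_congr rfl fun g _ => ?_
  rw [Finset.card_filter]

theorem SYM {q : ℕ} {v : ℕ → ℂ} (hv : Chain q v) (G : ℕ) (η : ℝ) (hη : 0 < η) (S : Finset (ℂ × ℂ))
    (hS : ∀ g ∈ S, ‖g.1‖ = 1 ∧ η * q ≤ ((dom2 q v G g).card : ℝ)) (hq : 8 * (G : ℝ) + 8 ≤ η * q) :
    η ^ 2 * (S.card : ℝ) ≤ 12 * (G + 1) := by
  have hG : (0 : ℝ) ≤ G := Nat.cast_nonneg _
  have hq0 : (0 : ℝ) < q := by
    by_contra h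
    push Not at h
    nlinarith
  have h1 := PCs hv G S (fun g hg => (hS g hg).1)
  have h1' : ∑ g ∈ S, ((Finset.range q ×ˢ Finset.range q).filter (fun b => b.1 ∈ dom2 q v G g ∧
        b.2 ∈ dom2 q v G g ∧ b.1 + 2 * G < b.2)).card ≤ q ^ 2 * (2 * G + 1) := by
    refine le_trans (le_of_eq ?_) h1
    have e := SYM_sum S (Finset.range q ×ˢ Finset.range q) (fun p => p.2.1 ∈ dom2 q v G p.1 ∧
      p.2.2 ∈ dom2 q v G p.1 ∧ p.2.1 + 2 * G < p.2.2) (Classical.decPred _)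
      (fun g => Classical.decPred _)
    convert e
  have h2 : ∀ g ∈ S, η ^ 2 * (q : ℝ) ^ 2 / 4 ≤
      (((Finset.range q ×ˢ Finset.range q).filter (fun b => b.1 ∈ dom2 q v G g ∧
        b.2 ∈ dom2 q v G g ∧ b.1 + 2 * G < b.2)).card : ℝ) := by
    intro g hg
    obtain ⟨-, hr⟩ := hS g hg
    have hsub : dom2 q v G g ⊆ Finset.range q := Finset.filter_subset _ _
    have h3 : ((dom2 q v G g ×ˢ dom2 q v G g).filter (fun p => p.1 + 2 * G < p.2)).card ≤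
        ((Finset.range q ×ˢ Finset.range q).filter (fun b => b.1 ∈ dom2 q v G g ∧
        b.2 ∈ dom2 q v G g ∧ b.1 + 2 * G < b.2)).card := by
      refine Finset.card_le_card fun p hp => ?_
      obtain ⟨h4, h5⟩ := Finset.mem_filter.1 hp
      obtain ⟨h6, h7⟩ := Finset.mem_product.1 h4
      exact Finset.mem_filter.2 ⟨Finset.mem_product.2 ⟨hsub h6, hsub h7⟩, h6, h7, h5⟩
    have h4 := SYM_far (dom2 q v G g) (2 * G)
    have h5 : (((dom2 q v G g).card : ℝ)) ^ 2 ≤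
        2 * (((Finset.range q ×ˢ Finset.range q).filter (fun b => b.1 ∈ dom2 q v G g ∧
        b.2 ∈ dom2 q v G g ∧ b.1 + 2 * G < b.2)).card : ℝ) +
          ((dom2 q v G g).card : ℝ) * (2 * (2 * G) + 1) := by
      have h6 : ((dom2 q v G g).card) ^ 2 ≤
        2 * ((Finset.range q ×ˢ Finset.range q).filter (fun b => b.1 ∈ dom2 q v G g ∧
        b.2 ∈ dom2 q v G g ∧ b.1 + 2 * G < b.2)).card +
          (dom2 q v G g).card * (2 * (2 * G) + 1) := by omega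
      exact_mod_cast h6
    obtain ⟨r, hrdef⟩ : ∃ r : ℝ, r = ((dom2 q v G g).card : ℝ) := ⟨_, rfl⟩
    rw [← hrdef] at hr h5
    have hr8 : 8 * (G : ℝ) + 8 ≤ r := hq.trans hr
    have h7 : (η * q) ^ 2 ≤ r ^ 2 := pow_le_pow_left₀ (by positivity) hr 2
    have h8 : r * (8 * (G : ℝ) + 8) ≤ r * r := mul_le_mul_of_nonneg_left hr8 (by linarith)
    nlinarith
  have h3 : (S.card : ℝ) * (η ^ 2 * (q : ℝ) ^ 2 / 4) ≤ (q : ℝ) ^ 2 * (2 * G + 1) := by
    calc (S.card : ℝ) * (η ^ 2 * (q : ℝ) ^ 2 / 4) = ∑ _g ∈ S, η ^ 2 * (q : ℝ) ^ 2 / 4 := by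
          rw [Finset.sum_const, nsmul_eq_mul]
      _ ≤ ∑ g ∈ S, (((Finset.range q ×ˢ Finset.range q).filter (fun b => b.1 ∈ dom2 q v G g ∧
        b.2 ∈ dom2 q v G g ∧ b.1 + 2 * G < b.2)).card : ℝ) := Finset.sum_le_sum h2
      _ ≤ (q : ℝ) ^ 2 * (2 * G + 1) := by exact_mod_cast h1'
  have h4 : (q : ℝ) ^ 2 * (η ^ 2 * (S.card : ℝ)) ≤ (q : ℝ) ^ 2 * (12 * (G + 1)) := by
    nlinarith [mul_nonneg (sq_nonneg (q : ℝ)) hG, sq_nonneg (q : ℝ)]
  exact le_of_mul_le_mul_left h4 (by positivity)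

end Pool.Agent.H3.FQ
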