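import Pool.Agent.H3.FQ.QUO
import Pool.Agent.H3.FQ.SYM

/-!
# DBL: small doubling of the rotation factors

`η = ρ^2/32`, `N1 = |Y1|`, `dom = dom q v G`. `Y_p = {y ∈ Y1 : p ∈ dom y}`, `bad` pairs: `|dom y ∩ dom z| < η q`, `bad_p` = number of bad pairs in `Y_p^2`. `∑_p |Y_p| ≥ ρ q N1`, `∑_p |Y_p|^2 ≥ ρ^2 q N1^2`,
`∑_p bad_p ≤ η q N1^2`; so `∑_p (|Y_p|^2 - 16 bad_p) ≥ ρ^2 q N1^2 / 2` and some `p < q` has `|Y_p|^2 - 16 bad_p ≥ ρ^2 N1^2 / 2`. `Y = {y ∈ Y_p : at most |Y_p|/4 of the z ∈ Y_p are bad with y}`: the other `y` number less than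
`bad_p / (|Y_p|/4) ≤ |Y_p|/4`, so `|Y| ≥ (3/4) |Y_p| ≥ (3/4) (ρ/√2) N1 ≥ (ρ/2) N1`. `Pi = {ag (quo y z) : (y, z) ∈ Y1^2 good}`: `|Pi| ≤ 12 (G+1)/η^2` (`SYM` with the set of the `quo y z`, `QUO2`, `QUOn`). For `y, y' ∈ Y` at least `|Y_p|/2`
elements `z ∈ Y_p` are good for both, and `(ag y - ag z, ag y' - ag z) ∈ Pi^2` (`QUOa`); choosing one `(y, y')` for each `δ ∈ Θ - Θ` (`Θ = Y.image ag`) this is injective in `(δ, z)` (`δ` is the difference, then `ag z`, then `z` by `hinj`, as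
`‖z.1‖ = 1` and `ag z` determine `z.1`). So `|Θ - Θ| |Y_p| / 2 ≤ |Pi|^2 ≤ 144 (G+1)^2/η^4`, `|Y| ≤ |Y_p|`. (If `N1 = 0` take `Y = ∅`.)
-/

set_option autoImplicit false

namespace Pool.Agent.H3.FQ

open scoped Pointwise
open Classical

lemma DBL_ag {y z : ℂ × ℂ} (hy : ‖y.1‖ = 1) (hz : ‖z.1‖ = 1) (h : ag y = ag z) : y.1 = z.1 := by
  unfold ag at h
  rw [Complex.arg_coe_angle_eq_iff] at h
  exact Complex.ext_norm_arg (hy.trans hz.symm) h

/-- the choice of the point `p` -/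
lemma DBL_p {α : Type} (Y1 : Finset α) (q : ℕ) (D : α → Finset ℕ) (hD : ∀ y ∈ Y1, D y ⊆ Finset.range q)
    (ρ : ℝ) (hρ : 0 < ρ) (h1 : ∀ y ∈ Y1, ρ * q ≤ ((D y).card : ℝ)) (hq : 0 < q) :
    ∃ p < q, ρ ^ 2 * (Y1.card : ℝ) ^ 2 / 2 +
      16 * ((((Y1.filter (fun y => p ∈ D y)) ×ˢ (Y1.filter (fun y => p ∈ D y))).filter
        (fun w => ((D w.1 ∩ D w.2).card : ℝ) < ρ ^ 2 / 32 * q)).card : ℝ) ≤
      ((Y1.filter (fun y => p ∈ D y)).card : ℝ) ^ 2 := by
  by_contra hcon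
  push Not at hcon
  have hq' : (0 : ℝ) < q := by exact_mod_cast hq
  have hs1 : ρ * q * Y1.card ≤ ∑ p ∈ Finset.range q, ((Y1.filter (fun y => p ∈ D y)).card : ℝ) := by
    have h2 : ∑ p ∈ Finset.range q, ((Y1.filter (fun y => p ∈ D y)).card : ℝ) = ∑ y ∈ Y1, ((D y).card : ℝ) := by
      have h3 : ∀ p, ((Y1.filter (fun y => p ∈ D y)).card : ℝ) = ∑ y ∈ Y1, if p ∈ D y then (1 : ℝ) else 0 := by
        intro p
        rw [Finset.card_filter]
        push_cast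
        rfl
      simp only [h3]
      rw [Finset.sum_comm]
      refine Finset.sum_congr rfl fun y hy => ?_
      rw [← Finset.sum_filter, Finset.sum_const, nsmul_eq_mul, mul_one]
      congr 2
      ext p
      simp only [Finset.mem_filter]
      exact ⟨fun h => h.2, fun h => ⟨hD y hy h, h⟩⟩
    rw [h2]
    calc ρ * q * Y1.card = ∑ _y ∈ Y1, ρ * q := by rw [Finset.sum_const, nsmul_eq_mul]; ring
      _ ≤ _ := Finset.sum_le_sum h1
  have hs2 : (∑ p ∈ Finset.range q, ((Y1.filter (fun y => p ∈ D y)).card : ℝ)) ^ 2 ≤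
      q * ∑ p ∈ Finset.range q, ((Y1.filter (fun y => p ∈ D y)).card : ℝ) ^ 2 := by
    have h2 := sq_sum_le_card_mul_sum_sq (s := Finset.range q)
      (f := fun p => ((Y1.filter (fun y => p ∈ D y)).card : ℝ))
    rwa [Finset.card_range] at h2
  have hs3 : ∑ p ∈ Finset.range q, ((((Y1.filter (fun y => p ∈ D y)) ×ˢ (Y1.filter (fun y => p ∈ D y))).filter
        (fun w => ((D w.1 ∩ D w.2).card : ℝ) < ρ ^ 2 / 32 * q)).card : ℝ) ≤ ρ ^ 2 / 32 * q * (Y1.card : ℝ) ^ 2 := by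
    have h3 : ∀ p ∈ Finset.range q, ((((Y1.filter (fun y => p ∈ D y)) ×ˢ (Y1.filter (fun y => p ∈ D y))).filter
        (fun w => ((D w.1 ∩ D w.2).card : ℝ) < ρ ^ 2 / 32 * q)).card : ℝ) =
        ∑ w ∈ (Y1 ×ˢ Y1).filter (fun w => ((D w.1 ∩ D w.2).card : ℝ) < ρ ^ 2 / 32 * q),
          if p ∈ D w.1 ∩ D w.2 then (1 : ℝ) else 0 := by
      intro p _
      rw [← Finset.sum_filter, Finset.sum_const, nsmul_eq_mul, mul_one]
      congr 2
      ext w
      simp only [Finset.mem_filter, Finset.mem_product, Finset.mem_inter]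
      tauto
    rw [Finset.sum_congr rfl h3, Finset.sum_comm]
    calc _ ≤ ∑ _w ∈ (Y1 ×ˢ Y1).filter (fun w => ((D w.1 ∩ D w.2).card : ℝ) < ρ ^ 2 / 32 * q), ρ ^ 2 / 32 * q := by
          refine Finset.sum_le_sum fun w hw => ?_
          rw [Finset.mem_filter] at hw
          refine le_trans ?_ hw.2.le
          rw [← Finset.sum_filter, Finset.sum_const, nsmul_eq_mul, mul_one]
          have : (Finset.range q).filter (fun p => p ∈ D w.1 ∩ D w.2) ⊆ D w.1 ∩ D w.2 := by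
            intro p hp
            exact (Finset.mem_filter.mp hp).2
          exact_mod_cast Finset.card_le_card this
      _ ≤ _ := by
          rw [Finset.sum_const, nsmul_eq_mul]
          have h4 : (((Y1 ×ˢ Y1).filter (fun w => ((D w.1 ∩ D w.2).card : ℝ) < ρ ^ 2 / 32 * q)).card : ℝ) ≤
              (Y1.card : ℝ) ^ 2 := by
            have h5 := Finset.card_filter_le (Y1 ×ˢ Y1) (fun w => ((D w.1 ∩ D w.2).card : ℝ) < ρ ^ 2 / 32 * q)
            rw [Finset.card_product] at h5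
            calc (((Y1 ×ˢ Y1).filter (fun w => ((D w.1 ∩ D w.2).card : ℝ) < ρ ^ 2 / 32 * q)).card : ℝ) ≤
                ((Y1.card * Y1.card : ℕ) : ℝ) := by exact_mod_cast h5
              _ = _ := by push_cast; ring
          have h6 : 0 ≤ ρ ^ 2 / 32 * q := by positivity
          calc _ ≤ (Y1.card : ℝ) ^ 2 * (ρ ^ 2 / 32 * q) := mul_le_mul_of_nonneg_right h4 h6
            _ = _ := by ring
  have hs4 : ∑ p ∈ Finset.range q, ((Y1.filter (fun y => p ∈ D y)).card : ℝ) ^ 2 <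
      ∑ p ∈ Finset.range q, (ρ ^ 2 * (Y1.card : ℝ) ^ 2 / 2 +
      16 * ((((Y1.filter (fun y => p ∈ D y)) ×ˢ (Y1.filter (fun y => p ∈ D y))).filter
        (fun w => ((D w.1 ∩ D w.2).card : ℝ) < ρ ^ 2 / 32 * q)).card : ℝ)) := by
    refine Finset.sum_lt_sum_of_nonempty ⟨0, Finset.mem_range.mpr hq⟩ fun p hp => hcon p (Finset.mem_range.mp hp)
  rw [Finset.sum_add_distrib, Finset.sum_const, Finset.card_range, nsmul_eq_mul, ← Finset.mul_sum] at hs4
  have hs5 : (ρ * q * Y1.card) ^ 2 ≤ (∑ p ∈ Finset.range q, ((Y1.filter (fun y => p ∈ D y)).card : ℝ)) ^ 2 :=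
    pow_le_pow_left₀ (by positivity) hs1 2
  have hs6 : q * (ρ ^ 2 * q * (Y1.card : ℝ) ^ 2) ≤ q *
      ∑ p ∈ Finset.range q, ((Y1.filter (fun y => p ∈ D y)).card : ℝ) ^ 2 := by
    calc q * (ρ ^ 2 * q * (Y1.card : ℝ) ^ 2) = (ρ * q * Y1.card) ^ 2 := by ring
      _ ≤ _ := hs5.trans hs2
  have hs7 := le_of_mul_le_mul_left hs6 hq'
  nlinarith [hs3, hs4, hs7]

/-- the choice of `Y` -/
lemma DBL_Y {α : Type} (P : Finset α) (bad : α → α → Prop)
    (hb : 16 * (((P ×ˢ P).filter (fun w => bad w.1 w.2)).card : ℝ) ≤ (P.card : ℝ) ^ 2) :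
    3 / 4 * (P.card : ℝ) ≤ ((P.filter (fun y => 4 * (P.filter (fun z => bad y z)).card ≤ P.card)).card : ℝ) := by
  obtain ⟨Y, hY⟩ : ∃ Y, Y = P.filter (fun y => 4 * (P.filter (fun z => bad y z)).card ≤ P.card) := ⟨_, rfl⟩
  obtain ⟨B, hB⟩ : ∃ B, B = P.filter (fun y => ¬ (4 * (P.filter (fun z => bad y z)).card ≤ P.card)) := ⟨_, rfl⟩
  rw [← hY]
  have h1 : (Y.card : ℝ) + B.card = P.card := by
    have := Finset.card_filter_add_card_filter_not (s := P) (fun y => 4 * (P.filter (fun z => bad y z)).card ≤ P.card)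
    rw [← hY, ← hB] at this
    exact_mod_cast this
  have h2 : (B.card : ℝ) * (P.card : ℝ) ≤ 4 * (((P ×ˢ P).filter (fun w => bad w.1 w.2)).card : ℝ) := by
    have h3 : (((P ×ˢ P).filter (fun w => bad w.1 w.2)).card : ℝ) = ∑ y ∈ P, ((P.filter (fun z => bad y z)).card : ℝ) := by
      rw [Finset.card_filter, Finset.sum_product]
      push_cast
      refine Finset.sum_congr rfl fun y _ => ?_
      rw [Finset.card_filter]
      push_cast
      rfl
    have h4 : ∑ y ∈ B, ((P.filter (fun z => bad y z)).card : ℝ) ≤ ∑ y ∈ P, ((P.filter (fun z => bad y z)).card : ℝ) := by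
      refine Finset.sum_le_sum_of_subset_of_nonneg ?_ fun _ _ _ => by positivity
      rw [hB]
      exact Finset.filter_subset _ _
    have h5 : ∑ _y ∈ B, ((P.card : ℝ) / 4) ≤ ∑ y ∈ B, ((P.filter (fun z => bad y z)).card : ℝ) := by
      refine Finset.sum_le_sum fun y hy => ?_
      rw [hB, Finset.mem_filter] at hy
      have h6 : (P.card : ℝ) ≤ 4 * ((P.filter (fun z => bad y z)).card : ℝ) := by
        exact_mod_cast (not_le.mp hy.2).le
      linarith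
    rw [Finset.sum_const, nsmul_eq_mul] at h5
    rw [h3]
    linarith
  have h0 : (0 : ℝ) ≤ P.card := by positivity
  rcases h0.eq_or_lt with h0 | h0
  · rw [← h0]
    simp
  · have h7 : (B.card : ℝ) ≤ P.card / 4 := by
      by_contra h8
      push Not at h8
      nlinarith
    linarith

theorem DBL {q : ℕ} {v : ℕ → ℂ} (hv : Chain q v) (G : ℕ) (ρ : ℝ) (hρ : 0 < ρ) (Y1 : Finset (ℂ × ℂ))
    (h1 : ∀ y ∈ Y1, ‖y.1‖ = 1 ∧ ρ * q ≤ ((dom q v G y).card : ℝ)) (hinj : ∀ y ∈ Y1, ∀ z ∈ Y1, y.1 = z.1 → y = z)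
    (hq : 8 * (G : ℝ) + 8 ≤ ρ ^ 2 / 32 * q) :
    ∃ Y ⊆ Y1, ρ / 2 * (Y1.card : ℝ) ≤ (Y.card : ℝ) ∧
      ((Y.image ag - Y.image ag).card : ℝ) * (Y.card : ℝ) ≤ 288 * (G + 1) ^ 2 / (ρ ^ 2 / 32) ^ 4 := by
  have hG0 : (0 : ℝ) ≤ G := by positivity
  have hq0 : 0 < q := by
    rcases Nat.eq_zero_or_pos q with h | h
    · rw [h] at hq
      simp only [Nat.cast_zero, mul_zero] at hq
      linarith
    · exact h
  obtain ⟨p, hp, hpp⟩ := DBL_p Y1 q (dom q v G) (fun y _ => Finset.filter_subset _ _) ρ hρ (fun y hy => (h1 y hy).2) hq0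
  obtain ⟨P, hP⟩ : ∃ P, P = Y1.filter (fun y => p ∈ dom q v G y) := ⟨_, rfl⟩
  obtain ⟨bad, hbad⟩ : ∃ bad : ℂ × ℂ → ℂ × ℂ → Prop,
      bad = fun y z => ((dom q v G y ∩ dom q v G z).card : ℝ) < ρ ^ 2 / 32 * q := ⟨_, rfl⟩
  have hpp' : ρ ^ 2 * (Y1.card : ℝ) ^ 2 / 2 + 16 * (((P ×ˢ P).filter (fun w => bad w.1 w.2)).card : ℝ) ≤ (P.card : ℝ) ^ 2 := by
    rw [hP, hbad]
    exact hpp
  clear hpp
  have hN0 : (0 : ℝ) ≤ Y1.card := by positivity
  have hb0 : (0 : ℝ) ≤ (((P ×ˢ P).filter (fun w => bad w.1 w.2)).card : ℝ) := by positivity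
  have hYc := DBL_Y P bad (by nlinarith [mul_nonneg (sq_nonneg ρ) (sq_nonneg (Y1.card : ℝ))])
  obtain ⟨Y, hY⟩ : ∃ Y, Y = P.filter (fun y => 4 * (P.filter (fun z => bad y z)).card ≤ P.card) := ⟨_, rfl⟩
  rw [← hY] at hYc
  have hPY1 : P ⊆ Y1 := by
    rw [hP]
    exact Finset.filter_subset _ _
  have hYP : Y ⊆ P := by
    rw [hY]
    exact Finset.filter_subset _ _
  have hYP' : (Y.card : ℝ) ≤ P.card := by exact_mod_cast Finset.card_le_card hYP
  have hP0 : (0 : ℝ) ≤ P.card := by positivity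
  refine ⟨Y, hYP.trans hPY1, ?_, ?_⟩
  · have h2 : (ρ / 2 * (Y1.card : ℝ)) ^ 2 ≤ (Y.card : ℝ) ^ 2 := by
      have h3 : (3 / 4 * (P.card : ℝ)) ^ 2 ≤ (Y.card : ℝ) ^ 2 := pow_le_pow_left₀ (by positivity) hYc 2
      nlinarith [mul_nonneg (sq_nonneg ρ) (sq_nonneg (Y1.card : ℝ))]
    exact (pow_le_pow_iff_left₀ (by positivity) (by positivity) two_ne_zero).mp h2
  · obtain ⟨η, hη⟩ : ∃ η, η = ρ ^ 2 / 32 := ⟨_, rfl⟩
    have hη0 : 0 < η := by rw [hη]; positivity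
    rw [← hη] at hq ⊢
    obtain ⟨S, hS⟩ : ∃ S, S = ((Y1 ×ˢ Y1).filter (fun w => ¬ bad w.1 w.2)).image (fun w => quo w.1 w.2) := ⟨_, rfl⟩
    have hSc : η ^ 2 * (S.card : ℝ) ≤ 12 * (G + 1) := by
      refine SYM hv G η hη0 S ?_ hq
      intro g hg
      rw [hS, Finset.mem_image] at hg
      obtain ⟨w, hw, rfl⟩ := hg
      rw [Finset.mem_filter, Finset.mem_product, hbad, not_lt, ← hη] at hw
      refine ⟨QUOn _ _ (h1 _ hw.1.1).1 (h1 _ hw.1.2).1, hw.2.trans ?_⟩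
      exact_mod_cast QUO2 hv G w.1 w.2 (h1 _ hw.1.2).1
    have hPi : ∀ y ∈ Y1, ∀ z ∈ Y1, ¬ bad y z → ag y - ag z ∈ S.image ag := by
      intro y hy z hz hg
      rw [Finset.mem_image]
      refine ⟨quo y z, ?_, QUOa y z (h1 y hy).1 (h1 z hz).1⟩
      rw [hS, Finset.mem_image]
      exact ⟨(y, z), Finset.mem_filter.mpr ⟨Finset.mem_product.mpr ⟨hy, hz⟩, hg⟩, rfl⟩
    obtain ⟨D, hD⟩ : ∃ D, D = Y.image ag - Y.image ag := ⟨_, rfl⟩
    rw [← hD]
    have hch : ∀ δ : Real.Angle, ∃ w : (ℂ × ℂ) × (ℂ × ℂ), δ ∈ D → w.1 ∈ Y ∧ w.2 ∈ Y ∧ ag w.1 - ag w.2 = δ := by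
      intro δ
      by_cases hδ : δ ∈ D
      · rw [hD, Finset.mem_sub] at hδ
        obtain ⟨a, ha, b, hb, hab⟩ := hδ
        rw [Finset.mem_image] at ha hb
        obtain ⟨y, hy, rfl⟩ := ha
        obtain ⟨y', hy', rfl⟩ := hb
        exact ⟨(y, y'), fun _ => ⟨hy, hy', hab⟩⟩
      · exact ⟨((0, 0), (0, 0)), fun h => absurd h hδ⟩
    choose w hw using hch
    obtain ⟨T, hT⟩ : ∃ T : Finset (Real.Angle × (ℂ × ℂ)),
        T = (D ×ˢ P).filter (fun t => ¬ bad (w t.1).1 t.2 ∧ ¬ bad (w t.1).2 t.2) := ⟨_, rfl⟩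
    have hT1 : (D.card : ℝ) * (P.card / 2) ≤ T.card := by
      have h3 : (T.card : ℝ) = ∑ δ ∈ D, ((P.filter (fun z => ¬ bad (w δ).1 z ∧ ¬ bad (w δ).2 z)).card : ℝ) := by
        rw [hT, Finset.card_filter, Finset.sum_product]
        push_cast
        refine Finset.sum_congr rfl fun δ _ => ?_
        rw [Finset.card_filter]
        push_cast
        rfl
      rw [h3]
      calc (D.card : ℝ) * (P.card / 2) = ∑ _δ ∈ D, ((P.card : ℝ) / 2) := by rw [Finset.sum_const, nsmul_eq_mul]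
        _ ≤ _ := by
          refine Finset.sum_le_sum fun δ hδ => ?_
          obtain ⟨hw1, hw2, _⟩ := hw δ hδ
          rw [hY, Finset.mem_filter] at hw1 hw2
          have h4 : (4 : ℝ) * ((P.filter (fun z => bad (w δ).1 z)).card : ℝ) ≤ P.card := by exact_mod_cast hw1.2
          have h5 : (4 : ℝ) * ((P.filter (fun z => bad (w δ).2 z)).card : ℝ) ≤ P.card := by exact_mod_cast hw2.2
          have h6 : P ⊆ P.filter (fun z => ¬ bad (w δ).1 z ∧ ¬ bad (w δ).2 z) ∪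
              (P.filter (fun z => bad (w δ).1 z) ∪ P.filter (fun z => bad (w δ).2 z)) := by
            intro z hz
            simp only [Finset.mem_union, Finset.mem_filter]
            tauto
          have h7 := (Finset.card_le_card h6).trans ((Finset.card_union_le _ _).trans
            (Nat.add_le_add_left (Finset.card_union_le _ _) _))
          have h8 : (P.card : ℝ) ≤ ((P.filter (fun z => ¬ bad (w δ).1 z ∧ ¬ bad (w δ).2 z)).card : ℝ) +
              (((P.filter (fun z => bad (w δ).1 z)).card : ℝ) + ((P.filter (fun z => bad (w δ).2 z)).card : ℝ)) := by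
            exact_mod_cast h7
          linarith
    have hT2 : T.card ≤ ((S.image ag) ×ˢ (S.image ag)).card := by
      refine Finset.card_le_card_of_injOn (fun t => (ag (w t.1).1 - ag t.2, ag (w t.1).2 - ag t.2)) ?_ ?_
      · intro t ht
        rw [Finset.mem_coe, hT, Finset.mem_filter, Finset.mem_product] at ht
        obtain ⟨⟨ht1, ht2⟩, ht3, ht4⟩ := ht
        obtain ⟨hw1, hw2, _⟩ := hw t.1 ht1
        rw [Finset.mem_coe, Finset.mem_product]
        exact ⟨hPi _ (hPY1 (hYP hw1)) _ (hPY1 ht2) ht3, hPi _ (hPY1 (hYP hw2)) _ (hPY1 ht2) ht4⟩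
      · intro t ht s hs hts
        rw [Finset.mem_coe, hT, Finset.mem_filter, Finset.mem_product] at ht hs
        obtain ⟨⟨ht1, ht2⟩, _, _⟩ := ht
        obtain ⟨⟨hs1, hs2⟩, _, _⟩ := hs
        obtain ⟨_, _, htd⟩ := hw t.1 ht1
        obtain ⟨_, _, hsd⟩ := hw s.1 hs1
        simp only [Prod.mk.injEq] at hts
        obtain ⟨e1, e2⟩ := hts
        have h9 : t.1 = s.1 := by
          rw [← htd, ← hsd, ← sub_sub_sub_cancel_right (ag (w t.1).1) (ag (w t.1).2) (ag t.2), e1, e2,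
            sub_sub_sub_cancel_right]
        rw [h9] at e1
        have h10 : ag t.2 = ag s.2 := sub_right_injective e1
        have h11 := DBL_ag (h1 _ (hPY1 ht2)).1 (h1 _ (hPY1 hs2)).1 h10
        exact Prod.ext h9 (hinj _ (hPY1 ht2) _ (hPY1 hs2) h11)
    have hT3 : (T.card : ℝ) ≤ (S.card : ℝ) ^ 2 := by
      have h12 : ((S.image ag) ×ˢ (S.image ag)).card ≤ S.card * S.card := by
        rw [Finset.card_product]
        exact Nat.mul_le_mul Finset.card_image_le Finset.card_image_le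
      calc (T.card : ℝ) ≤ ((S.card * S.card : ℕ) : ℝ) := by exact_mod_cast hT2.trans h12
        _ = _ := by push_cast; ring
    have hS2 : (η ^ 2 * (S.card : ℝ)) ^ 2 ≤ (12 * (G + 1)) ^ 2 := pow_le_pow_left₀ (by positivity) hSc 2
    have hD0 : (0 : ℝ) ≤ D.card := by positivity
    rw [le_div_iff₀ (by positivity)]
    have h13 : (D.card : ℝ) * (Y.card : ℝ) ≤ 2 * (S.card : ℝ) ^ 2 := by
      have h14 : (D.card : ℝ) * (Y.card : ℝ) ≤ D.card * P.card := mul_le_mul_of_nonneg_left hYP' hD0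
      linarith
    have h15 : 0 < η ^ 4 := by positivity
    calc (D.card : ℝ) * (Y.card : ℝ) * η ^ 4 ≤ 2 * (S.card : ℝ) ^ 2 * η ^ 4 := mul_le_mul_of_nonneg_right h13 h15.le
      _ = 2 * (η ^ 2 * (S.card : ℝ)) ^ 2 := by ring
      _ ≤ 2 * (12 * (G + 1)) ^ 2 := by linarith
      _ = 288 * (G + 1) ^ 2 := by ring

end Pool.Agent.H3.FQ
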