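import Pool.Agent.H3.LC.Defs

/-!
# DCNT: number of distances

Every distance of `A` not counted in `low A` has more than `2 |A|` ordered pairs, and there are `|A| (|A| - 1)` ordered pairs in total (`Finset.offDiag_card`, `Finset.card_eq_sum_card_fiberwise`): such distances number at most `|A|/2`.
-/

set_option autoImplicit false

namespace Pool.Agent.H3.FQ

open Classical

theorem DCNT (A : Finset LC.Plane) : 2 * (LC.dset A).card ≤ 2 * LC.low A + A.card := by
  obtain ⟨D, hD⟩ : ∃ D : Finset ℝ, D = A.offDiag.image (fun p => dist p.1 p.2) := ⟨_, rfl⟩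
  have h1 : (LC.dset A).card = D.card := by rw [hD]; rfl
  have h2 : LC.low A = (D.filter
      (fun d => (A.offDiag.filter (fun p => dist p.1 p.2 = d)).card ≤ 2 * A.card)).card := by
    rw [hD]; rfl
  have h3 := Finset.card_filter_add_card_filter_not (s := D)
    (fun d => (A.offDiag.filter (fun p => dist p.1 p.2 = d)).card ≤ 2 * A.card)
  obtain ⟨E, hE⟩ : ∃ E : Finset ℝ, E = D.filter
      (fun d => ¬ (A.offDiag.filter (fun p => dist p.1 p.2 = d)).card ≤ 2 * A.card) := ⟨_, rfl⟩
  have h4 : E.card * (2 * A.card) ≤ A.card * A.card := by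
    have h5 : A.offDiag.card = ∑ d ∈ D, (A.offDiag.filter (fun p => dist p.1 p.2 = d)).card :=
      Finset.card_eq_sum_card_fiberwise (fun p hp => by
        rw [hD]
        exact Finset.mem_coe.2 (Finset.mem_image_of_mem _ hp))
    have h6 : ∑ d ∈ E, (A.offDiag.filter (fun p => dist p.1 p.2 = d)).card ≤
        ∑ d ∈ D, (A.offDiag.filter (fun p => dist p.1 p.2 = d)).card := by
      refine Finset.sum_le_sum_of_subset ?_
      rw [hE]
      exact Finset.filter_subset _ _
    have h7 : ∑ _d ∈ E, 2 * A.card ≤
        ∑ d ∈ E, (A.offDiag.filter (fun p => dist p.1 p.2 = d)).card := by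
      refine Finset.sum_le_sum fun d hd => ?_
      rw [hE, Finset.mem_filter] at hd
      exact (not_le.1 hd.2).le
    rw [Finset.sum_const, smul_eq_mul] at h7
    rw [Finset.offDiag_card] at h5
    have h8 : A.card * A.card - A.card ≤ A.card * A.card := Nat.sub_le _ _
    omega
  have h9 : 2 * E.card ≤ A.card := by
    rcases Nat.eq_zero_or_pos A.card with h0 | h0
    · have h10 : A = ∅ := Finset.card_eq_zero.1 h0
      have h11 : D = ∅ := by rw [hD, h10]; rfl
      have h12 : E = ∅ := by rw [hE, h11]; rfl
      rw [h12, Finset.card_empty]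
      exact Nat.zero_le _
    · refine Nat.le_of_mul_le_mul_right ?_ h0
      calc 2 * E.card * A.card = E.card * (2 * A.card) := by ring
        _ ≤ A.card * A.card := h4
  rw [h1, h2]
  rw [← hE] at h3
  omega

end Pool.Agent.H3.FQ
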