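import Mathlib

/-!
# MP_78a685 full question: definitions

Paper: `/team-store/H3_78a685_FULL.md`. Plane = `ℂ`, points `v 0, ..., v (q-1)`.
-/

set_option autoImplicit false

namespace Pool.Agent.H3.FQ

open Classical

/-- a chain: real parts increase, strict supporting lines from below with slopes in `[-1, 1]` -/
structure Chain (q : ℕ) (v : ℕ → ℂ) : Prop where
  mono : ∀ i j, i < j → j < q → (v i).re < (v j).re
  supp : ∃ t : ℕ → ℝ, ∀ i < q, |t i| ≤ 1 ∧ ∀ j < q, j ≠ i → t i * ((v j).re - (v i).re) < (v j).im - (v i).im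

/-- the distances of the chain -/
noncomputable def dD (q : ℕ) (v : ℕ → ℂ) : Finset ℝ :=
  ((Finset.range q ×ˢ Finset.range q).filter (fun p => p.1 < p.2)).image (fun p => dist (v p.1) (v p.2))

/-- the isometry `z ↦ a z + b` of `g = (a, b)` (`‖a‖ = 1`) -/
noncomputable def act (g : ℂ × ℂ) (z : ℂ) : ℂ := g.1 * z + g.2

/-- the quotient `g h⁻¹` -/
noncomputable def quo (g h : ℂ × ℂ) : ℂ × ℂ := (g.1 / h.1, g.2 - g.1 / h.1 * h.2)

/-- indices moved forward by at most `G` steps -/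
noncomputable def dom (q : ℕ) (v : ℕ → ℂ) (G : ℕ) (g : ℂ × ℂ) : Finset ℕ :=
  (Finset.range q).filter (fun i => ∃ j, i < j ∧ j ≤ i + G ∧ j < q ∧ v j = act g (v i))

/-- indices moved by at most `G` steps in either direction -/
noncomputable def dom2 (q : ℕ) (v : ℕ → ℂ) (G : ℕ) (g : ℂ × ℂ) : Finset ℕ :=
  (Finset.range q).filter (fun i => ∃ j, i ≤ j + G ∧ j ≤ i + G ∧ j < q ∧ v j = act g (v i))

/-- indices moved into the chain -/
noncomputable def dom0 (q : ℕ) (v : ℕ → ℂ) (g : ℂ × ℂ) : Finset ℕ :=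
  (Finset.range q).filter (fun i => ∃ j, j < q ∧ v j = act g (v i))

/-- pairs `(j, j')` with `0 < j' - j ≤ G` -/
noncomputable def Vs (q G : ℕ) : Finset (ℕ × ℕ) :=
  (Finset.range q ×ˢ Finset.range q).filter (fun w => w.1 < w.2 ∧ w.2 ≤ w.1 + G)

/-- pairs `u = (i, i')` to the left of `w = (j, j')` with `|v_i v_j| = |v_i' v_j'|` -/
noncomputable def Nb (q : ℕ) (v : ℕ → ℂ) (G : ℕ) (w : ℕ × ℕ) : Finset (ℕ × ℕ) :=
  (Vs q G).filter (fun u => u.1 < w.1 ∧ u.2 < w.2 ∧ dist (v u.1) (v w.1) = dist (v u.2) (v w.2))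

/-- common neighbours of three pairs -/
noncomputable def cod (q : ℕ) (v : ℕ → ℂ) (G : ℕ) (u1 u2 u3 : ℕ × ℕ) : Finset (ℕ × ℕ) :=
  (Vs q G).filter (fun w => u1 ∈ Nb q v G w ∧ u2 ∈ Nb q v G w ∧ u3 ∈ Nb q v G w)

/-- triples with at least `m` common neighbours are congruent -/
def RR (q : ℕ) (v : ℕ → ℂ) (G m : ℕ) : Prop :=
  ∀ u1 u2 u3 : ℕ × ℕ, u1.1 < u2.1 → u2.1 < u3.1 → m ≤ (cod q v G u1 u2 u3).card →
    ∃ g : ℂ × ℂ, ‖g.1‖ = 1 ∧ v u1.2 = act g (v u1.1) ∧ v u2.2 = act g (v u2.1) ∧ v u3.2 = act g (v u3.1) ∧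
      ∀ w ∈ cod q v G u1 u2 u3, v w.2 = act g (v w.1)

/-- quadratic polynomials on the plane -/
def qd (c : Fin 6 → ℝ) (z : ℂ) : ℝ :=
  c 0 * z.re ^ 2 + c 1 * (z.re * z.im) + c 2 * z.im ^ 2 + c 3 * z.re + c 4 * z.im + c 5

def isConic (c : Fin 6 → ℝ) : Prop := ¬ (c 0 = 0 ∧ c 1 = 0 ∧ c 2 = 0)

/-- twice the oriented area of a triangle -/
def crs (x y z : ℂ) : ℝ := (y.re - x.re) * (z.im - x.im) - (y.im - x.im) * (z.re - x.re)

/-- angle of a rotation factor -/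
noncomputable def ag (g : ℂ × ℂ) : Real.Angle := (g.1.arg : Real.Angle)

end Pool.Agent.H3.FQ
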