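import Pool.Agent.H3.FQ.Defs

/-!
# LEV: a monotone chain of index pairs

Proof. Sort `L` as `a_1, ..., a_l` (increasing in both coordinates, `l = |L|`). For `1 ≤ r ≤ t` and `1 ≤ s ≤ l - r` consider the pair `(a_s, a_{s+r})`: there are at least `t l - t^2` of them
(`∑_{r ≤ t} (l - r) ≥ t l - t (t+1)/2` if `l > t`; if `l ≤ t` the bound `t l - t^2 ≤ 0` is trivial). For fixed `r`: `∑_s (first coordinate of a_{s+r} - first coordinate of a_s) ≤ r q` (telescoping: the
last `r` minus the first `r`), so at most `r q / G` values `s` have first coordinate difference `> G`; same for the second. Bad pairs: `≤ 2 ∑_{r ≤ t} r q / G ≤ 2 t^2 q / G`. Multiply by `G`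
(everything in `ℕ`; for `G = 0` it reads `0 ≤ ...`).
-/

set_option autoImplicit false

namespace Pool.Agent.H3.FQ

open Classical

private theorem LEV_gap (x : ℕ → ℕ) (q G r m : ℕ) (hm : ∀ i j, i ≤ j → j < m + r → x i ≤ x j)
    (hq : ∀ i, i < m + r → x i < q) :
    G * ((Finset.range m).filter (fun s => x s + G < x (s + r))).card ≤ r * q := by
  have e1 : ∑ i ∈ Finset.range (r + m), x i
      = ∑ i ∈ Finset.range r, x i + ∑ s ∈ Finset.range m, x (r + s) := Finset.sum_range_add x r m
  have e2 : ∑ i ∈ Finset.range (m + r), x i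
      = ∑ i ∈ Finset.range m, x i + ∑ s ∈ Finset.range r, x (m + s) := Finset.sum_range_add x m r
  have e3 : ∑ s ∈ Finset.range r, x (m + s) ≤ r * q := by
    calc ∑ s ∈ Finset.range r, x (m + s) ≤ ∑ s ∈ Finset.range r, q := by
          apply Finset.sum_le_sum
          intro s hs
          exact (hq (m + s) (by have := Finset.mem_range.mp hs; omega)).le
      _ = r * q := by rw [Finset.sum_const, Finset.card_range, smul_eq_mul]
  have e4 : ∑ s ∈ Finset.range m, x s
      + G * ((Finset.range m).filter (fun s => x s + G < x (s + r))).card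
      ≤ ∑ s ∈ Finset.range m, x (r + s) := by
    have e5 : G * ((Finset.range m).filter (fun s => x s + G < x (s + r))).card
        = ∑ s ∈ Finset.range m, if x s + G < x (s + r) then G else 0 := by
      rw [Finset.sum_ite, Finset.sum_const_zero, add_zero, Finset.sum_const, smul_eq_mul, mul_comm]
    rw [e5, ← Finset.sum_add_distrib]
    apply Finset.sum_le_sum
    intro s hs
    have hs' := Finset.mem_range.mp hs
    have h3 := hm s (s + r) (by omega) (by omega)
    rw [add_comm r s]
    split_ifs with h4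
    · omega
    · omega
  rw [add_comm m r] at e2
  omega

private theorem LEV_enum (L : Finset (ℕ × ℕ)) (h2 : ∀ a ∈ L, ∀ b ∈ L, a.1 = b.1 → a = b) :
    ∃ P : ℕ → ℕ × ℕ, (∀ i, i < L.card → P i ∈ L) ∧
      ∀ i j, i < j → j < L.card → (P i).1 < (P j).1 := by
  have hc : (L.image Prod.fst).card = L.card := by
    apply Finset.card_image_of_injOn
    intro a ha b hb hab
    exact h2 a ha b hb hab
  have hx : ∀ i : Fin L.card, ∃ a ∈ L, a.1 = (L.image Prod.fst).orderEmbOfFin hc i := by
    intro i
    have := (L.image Prod.fst).orderEmbOfFin_mem hc i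
    rw [Finset.mem_image] at this
    exact this
  choose p hp1 hp2 using hx
  refine ⟨fun i => if h : i < L.card then p ⟨i, h⟩ else (0, 0), ?_, ?_⟩
  · intro i hi
    simp only [dif_pos hi]
    exact hp1 _
  · intro i j hij hj
    have hi : i < L.card := lt_trans hij hj
    simp only [dif_pos hi, dif_pos hj]
    rw [hp2, hp2]
    exact ((L.image Prod.fst).orderEmbOfFin hc).strictMono hij

private theorem LEV_sum (t : ℕ) : ∑ r ∈ Finset.range t, (r + 1) ≤ t ^ 2 := by
  calc ∑ r ∈ Finset.range t, (r + 1) ≤ ∑ r ∈ Finset.range t, t := by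
        apply Finset.sum_le_sum
        intro r hr
        have := Finset.mem_range.mp hr
        omega
    _ = t ^ 2 := by rw [Finset.sum_const, Finset.card_range, smul_eq_mul, sq]

theorem LEV (q G t : ℕ) (L : Finset (ℕ × ℕ)) (h1 : ∀ a ∈ L, ∀ b ∈ L, a.1 < b.1 → a.2 < b.2)
    (h2 : ∀ a ∈ L, ∀ b ∈ L, a.1 = b.1 → a = b) (hq : ∀ a ∈ L, a.1 < q ∧ a.2 < q) :
    G * t * L.card ≤ G * ((L ×ˢ L).filter (fun p => p.1.1 < p.2.1 ∧ p.2.1 ≤ p.1.1 + G ∧ p.2.2 ≤ p.1.2 + G)).card
      + G * t ^ 2 + 2 * t ^ 2 * q := by
  obtain ⟨P, hP, hlt⟩ := LEV_enum L h2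
  set l := L.card with hl
  have hlt2 : ∀ i j, i < j → j < l → (P i).2 < (P j).2 := fun i j hij hj =>
    h1 _ (hP i (lt_trans hij hj)) _ (hP j hj) (hlt i j hij hj)
  have hle1 : ∀ i j, i ≤ j → j < l → (P i).1 ≤ (P j).1 := by
    intro i j hij hj
    rcases Nat.eq_or_lt_of_le hij with h | h
    · rw [h]
    · exact (hlt i j h hj).le
  have hle2 : ∀ i j, i ≤ j → j < l → (P i).2 ≤ (P j).2 := by
    intro i j hij hj
    rcases Nat.eq_or_lt_of_le hij with h | h
    · rw [h]
    · exact (hlt2 i j h hj).le
  -- the good pairs for a given difference `r + 1`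
  let good : ℕ → Finset ℕ := fun r => (Finset.range (l - (r + 1))).filter
    (fun s => (P (s + (r + 1))).1 ≤ (P s).1 + G ∧ (P (s + (r + 1))).2 ≤ (P s).2 + G)
  have key : ∀ r, G * l ≤ G * (good r).card + (G + 2 * q) * (r + 1) := by
    intro r
    by_cases hr : r + 1 ≤ l
    · have g1 := LEV_gap (fun i => (P i).1) q G (r + 1) (l - (r + 1))
        (fun i j hij hj => hle1 i j hij (by omega)) (fun i hi => (hq _ (hP i (by omega))).1)
      have g2 := LEV_gap (fun i => (P i).2) q G (r + 1) (l - (r + 1))
        (fun i j hij hj => hle2 i j hij (by omega)) (fun i hi => (hq _ (hP i (by omega))).2)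
      set B1 := (Finset.range (l - (r + 1))).filter (fun s => (P s).1 + G < (P (s + (r + 1))).1)
      set B2 := (Finset.range (l - (r + 1))).filter (fun s => (P s).2 + G < (P (s + (r + 1))).2)
      have hcov : Finset.range (l - (r + 1)) ⊆ good r ∪ (B1 ∪ B2) := by
        intro s hs
        by_cases c1 : (P s).1 + G < (P (s + (r + 1))).1
        · exact Finset.mem_union_right _ (Finset.mem_union_left _ (Finset.mem_filter.mpr ⟨hs, c1⟩))
        · by_cases c2 : (P s).2 + G < (P (s + (r + 1))).2
          · exact Finset.mem_union_right _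
              (Finset.mem_union_right _ (Finset.mem_filter.mpr ⟨hs, c2⟩))
          · exact Finset.mem_union_left _ (Finset.mem_filter.mpr ⟨hs, by omega, by omega⟩)
      have hc := (Finset.card_le_card hcov).trans
        ((Finset.card_union_le _ _).trans (Nat.add_le_add_left (Finset.card_union_le _ _) _))
      rw [Finset.card_range] at hc
      have hc2 : l ≤ (good r).card + (B1.card + B2.card) + (r + 1) := by omega
      have hc3 := Nat.mul_le_mul_left G hc2
      have g1' : G * B1.card ≤ (r + 1) * q := g1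
      have g2' : G * B2.card ≤ (r + 1) * q := g2
      nlinarith
    · have h3 : G * l ≤ G * (r + 1) := Nat.mul_le_mul_left G (by omega)
      nlinarith [Nat.zero_le (G * (good r).card), Nat.zero_le (2 * q * (r + 1))]
  have hsum := Finset.sum_le_sum (fun r (_ : r ∈ Finset.range t) => key r)
  rw [Finset.sum_const, Finset.card_range, smul_eq_mul, Finset.sum_add_distrib, ← Finset.mul_sum,
    ← Finset.mul_sum] at hsum
  -- the good pairs inject
  have hinj : ∑ r ∈ Finset.range t, (good r).card ≤ ((L ×ˢ L).filter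
      (fun p => p.1.1 < p.2.1 ∧ p.2.1 ≤ p.1.1 + G ∧ p.2.2 ≤ p.1.2 + G)).card := by
    rw [← Finset.card_sigma]
    apply Finset.card_le_card_of_injOn (fun z : (_ : ℕ) × ℕ => (P z.2, P (z.2 + (z.1 + 1))))
    · intro z hz
      have hz' := Finset.mem_sigma.mp (Finset.mem_coe.mp hz)
      have hg := Finset.mem_filter.mp hz'.2
      have hs := Finset.mem_range.mp hg.1
      apply Finset.mem_coe.mpr
      apply Finset.mem_filter.mpr
      refine ⟨Finset.mem_product.mpr ⟨hP _ (by omega), hP _ (by omega)⟩, ?_, hg.2.1, hg.2.2⟩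
      exact hlt z.2 (z.2 + (z.1 + 1)) (by omega) (by omega)
    · intro z hz w hw hzw
      have hz' := Finset.mem_range.mp
        (Finset.mem_filter.mp (Finset.mem_sigma.mp (Finset.mem_coe.mp hz)).2).1
      have hw' := Finset.mem_range.mp
        (Finset.mem_filter.mp (Finset.mem_sigma.mp (Finset.mem_coe.mp hw)).2).1
      have inj : ∀ i j, i < l → j < l → P i = P j → i = j := by
        intro i j hi hj hij
        rcases lt_trichotomy i j with h | h | h
        · have := hlt i j h hj
          rw [hij] at this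
          exact absurd this (lt_irrefl _)
        · exact h
        · have := hlt j i h hi
          rw [hij] at this
          exact absurd this (lt_irrefl _)
      have e1 : P z.2 = P w.2 := congrArg Prod.fst hzw
      have e2 : P (z.2 + (z.1 + 1)) = P (w.2 + (w.1 + 1)) := congrArg Prod.snd hzw
      have f1 := inj _ _ (by omega) (by omega) e1
      have f2 := inj _ _ (by omega) (by omega) e2
      obtain ⟨z1, z2⟩ := z
      obtain ⟨w1, w2⟩ := w
      simp only at f1 f2
      subst f1
      have f3 : z1 = w1 := by omega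
      rw [f3]
  have h4 := Nat.mul_le_mul_left G hinj
  have h5 := Nat.mul_le_mul_left (G + 2 * q) (LEV_sum t)
  have h6 : G * t * l = t * (G * l) := by ring
  have h7 : (G + 2 * q) * t ^ 2 = G * t ^ 2 + 2 * t ^ 2 * q := by ring
  rw [h7] at h5
  rw [h6]
  omega

end Pool.Agent.H3.FQ
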