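import Pool.Agent.H3.FQ.CH
import Pool.Agent.H3.FQ.LEV

/-!
# EN2: energy at bounded shift

Proof. `G = 8 C t`. For `d ∈ dD q v` let `L_d = {(i, j) : i < j < q, dist (v i) (v j) = d}`: by `mon1`, `mon2` strictly increasing in both coordinates (if `i < i'` and `j' ≤ j` then
`dist (v i') (v j') < dist (v i) (v j)`). `∑_d |L_d| = q (q-1)/2`. `LEV` for each `d` (the pairs counted there with `d` fixed are the quadruples `(i, i', j, j')` with `(i,j), (i',j') ∈ L_d`,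
`i < i' ≤ i + G`, hence `j < j'`, `j' ≤ j + G`; i.e. `w = (j, j') ∈ Vs q G`, `u = (i, i') ∈ Nb q v G w`), summed over at most `C q` values `d`:
`G t q (q-1)/2 ≤ G E + C q (G t^2 + 2 t^2 q)`, and `2 C t^2 q^2 = G t q^2 / 4`; so `E ≥ t (q (q-1)/2 - q^2/4 - C q t)`, `8 E ≥ t (2 q^2 - 4 q - 8 C t q) ≥ t q^2` as `q ≥ 8 C t + 4`.
-/

set_option autoImplicit false

namespace Pool.Agent.H3.FQ

open Classical

theorem EN2_pairs (q : ℕ) :
    2 * ((Finset.range q ×ˢ Finset.range q).filter (fun p => p.1 < p.2)).card = q * (q - 1) := by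
  have h1 : ((Finset.range q ×ˢ Finset.range q).filter (fun p => p.1 < p.2)).card =
      ∑ j ∈ Finset.range q, j := by
    rw [Finset.card_filter, Finset.sum_product_right]
    refine Finset.sum_congr rfl fun j hj => ?_
    rw [← Finset.card_filter]
    have h2 : (Finset.range q).filter (fun i => i < j) = Finset.range j := by
      ext i
      rw [Finset.mem_filter, Finset.mem_range, Finset.mem_range]
      constructor
      · exact fun h => h.2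
      · exact fun h => ⟨h.trans (Finset.mem_range.1 hj), h⟩
    rw [h2, Finset.card_range]
  rw [h1, mul_comm, Finset.sum_range_id_mul_two]

/-- the pairs at distance `d` -/
noncomputable def EN2_L (q : ℕ) (v : ℕ → ℂ) (d : ℝ) : Finset (ℕ × ℕ) :=
  ((Finset.range q ×ˢ Finset.range q).filter (fun p => p.1 < p.2)).filter
    (fun p => dist (v p.1) (v p.2) = d)

theorem EN2_mem {q : ℕ} {v : ℕ → ℂ} {d : ℝ} {a : ℕ × ℕ} :
    a ∈ EN2_L q v d ↔ (a.1 < q ∧ a.2 < q) ∧ a.1 < a.2 ∧ dist (v a.1) (v a.2) = d := by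
  rw [EN2_L, Finset.mem_filter, Finset.mem_filter, Finset.mem_product, Finset.mem_range,
    Finset.mem_range]
  tauto

theorem EN2_sum (q : ℕ) (v : ℕ → ℂ) : ∑ d ∈ dD q v, (EN2_L q v d).card =
    ((Finset.range q ×ˢ Finset.range q).filter (fun p => p.1 < p.2)).card := by
  rw [dD]
  exact (Finset.card_eq_sum_card_image _ _).symm

theorem EN2_h1 {q : ℕ} {v : ℕ → ℂ} (hv : Chain q v) {d : ℝ} :
    ∀ a ∈ EN2_L q v d, ∀ b ∈ EN2_L q v d, a.1 < b.1 → a.2 < b.2 := by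
  intro a ha b hb h
  obtain ⟨⟨-, a2⟩, a3, a4⟩ := EN2_mem.1 ha
  obtain ⟨⟨-, b2⟩, b3, b4⟩ := EN2_mem.1 hb
  by_contra hn
  push Not at hn
  have h1 : dist (v b.1) (v b.2) < dist (v a.1) (v b.2) := mon2 hv h b3 b2
  rcases Nat.lt_or_ge b.2 a.2 with h2 | h2
  · have h3 : dist (v a.1) (v b.2) < dist (v a.1) (v a.2) := mon1 hv (h.trans b3) h2 a2
    rw [b4] at h1
    rw [a4] at h3
    exact lt_irrefl _ (h1.trans h3)
  · have h4 : a.2 = b.2 := le_antisymm h2 hn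
    rw [← h4, a4, h4, b4] at h1
    exact lt_irrefl _ h1

theorem EN2_h2 {q : ℕ} {v : ℕ → ℂ} (hv : Chain q v) {d : ℝ} :
    ∀ a ∈ EN2_L q v d, ∀ b ∈ EN2_L q v d, a.1 = b.1 → a = b := by
  intro a ha b hb h
  obtain ⟨⟨-, a2⟩, a3, a4⟩ := EN2_mem.1 ha
  obtain ⟨⟨-, b2⟩, b3, b4⟩ := EN2_mem.1 hb
  refine Prod.ext h ?_
  rcases lt_trichotomy a.2 b.2 with h1 | h1 | h1
  · have h2 := mon1 hv a3 h1 b2
    rw [a4, h, b4] at h2
    exact absurd h2 (lt_irrefl _)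
  · exact h1
  · have h2 := mon1 hv b3 h1 a2
    rw [b4, ← h, a4] at h2
    exact absurd h2 (lt_irrefl _)

/-- the pairs of pairs at distance `d` -/
noncomputable def EN2_M (q : ℕ) (v : ℕ → ℂ) (G : ℕ) (d : ℝ) : Finset ((ℕ × ℕ) × (ℕ × ℕ)) :=
  (EN2_L q v d ×ˢ EN2_L q v d).filter
    (fun p => p.1.1 < p.2.1 ∧ p.2.1 ≤ p.1.1 + G ∧ p.2.2 ≤ p.1.2 + G)

theorem EN2_le {q : ℕ} {v : ℕ → ℂ} (hv : Chain q v) (G : ℕ) :
    ∑ d ∈ dD q v, (EN2_M q v G d).card ≤ ∑ w ∈ Vs q G, (Nb q v G w).card := by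
  rw [← Finset.card_sigma, ← Finset.card_sigma]
  refine Finset.card_le_card_of_injOn
    (fun x : (_ : ℝ) × ((ℕ × ℕ) × (ℕ × ℕ)) =>
      (⟨(x.2.1.2, x.2.2.2), (x.2.1.1, x.2.2.1)⟩ : (_ : ℕ × ℕ) × (ℕ × ℕ))) ?_ ?_
  · rintro ⟨d, a, b⟩ hx
    obtain ⟨-, hx2⟩ := Finset.mem_sigma.1 (Finset.mem_coe.1 hx)
    obtain ⟨h1, h2, h3, h4⟩ := Finset.mem_filter.1 hx2
    obtain ⟨ha, hb⟩ := Finset.mem_product.1 h1
    obtain ⟨⟨a1, a2⟩, a3, a4⟩ := EN2_mem.1 ha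
    obtain ⟨⟨b1, b2⟩, b3, b4⟩ := EN2_mem.1 hb
    have h5 : a.2 < b.2 := EN2_h1 hv a ha b hb h2
    refine Finset.mem_coe.2 (Finset.mem_sigma.2 ⟨?_, ?_⟩)
    · refine Finset.mem_filter.2 ⟨Finset.mem_product.2
        ⟨Finset.mem_range.2 a2, Finset.mem_range.2 b2⟩, h5, h4⟩
    · refine Finset.mem_filter.2 ⟨Finset.mem_filter.2 ⟨Finset.mem_product.2
        ⟨Finset.mem_range.2 a1, Finset.mem_range.2 b1⟩, h2, h3⟩, a3, b3, ?_⟩
      exact a4.trans b4.symm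
  · rintro ⟨d, a, b⟩ hx ⟨d', a', b'⟩ hx' he
    obtain ⟨-, hx2⟩ := Finset.mem_sigma.1 (Finset.mem_coe.1 hx)
    obtain ⟨-, hx2'⟩ := Finset.mem_sigma.1 (Finset.mem_coe.1 hx')
    have ha := (Finset.mem_product.1 (Finset.mem_filter.1 hx2).1).1
    have ha' := (Finset.mem_product.1 (Finset.mem_filter.1 hx2').1).1
    have e4 := (EN2_mem.1 ha).2.2
    have e4' := (EN2_mem.1 ha').2.2
    simp only [Sigma.mk.injEq, Prod.mk.injEq, heq_eq_eq] at he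
    obtain ⟨⟨e1, e2⟩, e3, e5⟩ := he
    have ea : a = a' := Prod.ext e3 e1
    have eb : b = b' := Prod.ext e5 e2
    have ed : d = d' := by
      change dist (v a.1) (v a.2) = d at e4
      change dist (v a'.1) (v a'.2) = d' at e4'
      rw [← e4, ← e4', ea]
    rw [ea, eb, ed]

theorem EN2 (C t q : ℕ) (v : ℕ → ℂ) (hv : Chain q v) (hC : 1 ≤ C) (ht : 1 ≤ t) (hD : (dD q v).card ≤ C * q)
    (hq : 8 * C * t + 4 ≤ q) :
    t * q ^ 2 ≤ 8 * ∑ w ∈ Vs q (8 * C * t), (Nb q v (8 * C * t) w).card := by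
  obtain ⟨G, hG⟩ : ∃ G, G = 8 * C * t := ⟨_, rfl⟩
  rw [← hG] at hq ⊢
  have h1 : ∀ d ∈ dD q v, G * t * (EN2_L q v d).card ≤
      G * (EN2_M q v G d).card + (G * t ^ 2 + 2 * t ^ 2 * q) := by
    intro d _
    have h := LEV q G t (EN2_L q v d) (EN2_h1 hv) (EN2_h2 hv) (fun a ha => (EN2_mem.1 ha).1)
    rw [add_assoc] at h
    exact h
  have h2 := Finset.sum_le_sum h1
  rw [← Finset.mul_sum, EN2_sum, Finset.sum_add_distrib, ← Finset.mul_sum, Finset.sum_const,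
    smul_eq_mul] at h2
  have h3 := EN2_le hv G
  have h4 := EN2_pairs q
  obtain ⟨P, hP⟩ : ∃ P, P =
      ((Finset.range q ×ˢ Finset.range q).filter (fun p => p.1 < p.2)).card := ⟨_, rfl⟩
  obtain ⟨E, hE⟩ : ∃ E, E = ∑ w ∈ Vs q G, (Nb q v G w).card := ⟨_, rfl⟩
  obtain ⟨M, hM⟩ : ∃ M, M = ∑ d ∈ dD q v, (EN2_M q v G d).card := ⟨_, rfl⟩
  rw [← hE, ← hM] at h3
  rw [← hP, ← hM] at h2
  rw [← hP] at h4
  rw [← hE]
  have h5 : (dD q v).card * (G * t ^ 2 + 2 * t ^ 2 * q) ≤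
      (C * q) * (G * t ^ 2 + 2 * t ^ 2 * q) := Nat.mul_le_mul_right _ hD
  have h6 : G * M ≤ G * E := Nat.mul_le_mul_left _ h3
  have h7 : G * t * P ≤ G * E + (C * q) * (G * t ^ 2 + 2 * t ^ 2 * q) := by
    linarith
  have hq1 : 1 ≤ q := by omega
  have hGpos : 0 < G := by
    rw [hG]
    positivity
  zify [hq1] at h4 h7 hq hG ⊢
  have h8 : (0 : ℤ) ≤ G * t * q * (q - (G + 4)) := by
    have h9 : (0 : ℤ) ≤ q - (G + 4) := by linarith
    positivity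
  have h10 : (G : ℤ) * (t * q ^ 2) ≤ G * (8 * E) := by
    have h11 : (8 : ℤ) * (C * q * (G * t ^ 2 + 2 * t ^ 2 * q)) =
        G * t * q * G + 2 * (G * t * q ^ 2) := by
      rw [hG]
      ring
    have h12 : (8 : ℤ) * (G * t * P) = 4 * (G * t * (q * (q - 1))) := by
      rw [← h4]
      ring
    nlinarith
  exact le_of_mul_le_mul_left h10 (by exact_mod_cast hGpos)

end Pool.Agent.H3.FQ
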