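import Pool.Agent.H3.FQ.Defs

/-!
# ENFa: many quintuples

`quin`: `(p, x, y, z, t)`, `x, y, z, t ∈ Psi`, `p` in all four domains, `quo y x = quo z t`. `N = |Psi|`, `Psi_p = {x ∈ Psi : p ∈ dm x}`, `∑_p |Psi_p| = ∑_x |dm x| ≥ ρ q N`. A pair `(x, y)` is good if `|dm x ∩ dm y| ≥ (ρ^2/2) q`.
`π_p` = number of good pairs in `Psi_p × Psi_p`: `∑_p π_p = ∑_{(x,y) good} |dm x ∩ dm y| ≥ ∑_{all (x,y)} |dm x ∩ dm y| - (ρ^2/2) q N^2 = ∑_p |Psi_p|^2 - (ρ^2/2) q N^2 ≥ (ρ q N)^2 / q - (ρ^2/2) q N^2 = (ρ^2/2) q N^2`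
(Cauchy-Schwarz over `p < q`). For fixed `p` the good pairs `(x, y) ∈ Psi_p^2` are mapped by `(x, y) ↦ quo y x` into a set of at most `M0` elements, so at least `π_p^2 / M0` pairs of good pairs `((x,y), (t,z))` satisfy
`quo y x = quo z t` (Cauchy-Schwarz over the fibres). Sum: `|quin| ≥ ∑_p π_p^2 / M0 ≥ (∑_p π_p)^2 / (q M0) ≥ ρ^4 q N^4 / (4 M0)`.
-/

set_option autoImplicit false

namespace Pool.Agent.H3.FQ

open Classical

noncomputable def quin (q : ℕ) (Psi : Finset (ℂ × ℂ)) (dm : ℂ × ℂ → Finset ℕ) :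
    Finset (ℕ × (ℂ × ℂ) × (ℂ × ℂ) × (ℂ × ℂ) × (ℂ × ℂ)) :=
  (Finset.range q ×ˢ Psi ×ˢ Psi ×ˢ Psi ×ˢ Psi).filter (fun p => p.1 ∈ dm p.2.1 ∧ p.1 ∈ dm p.2.2.1 ∧ p.1 ∈ dm p.2.2.2.1 ∧
    p.1 ∈ dm p.2.2.2.2 ∧ quo p.2.2.1 p.2.1 = quo p.2.2.2.1 p.2.2.2.2)

theorem ENFa_col {α β : Type*} (s : Finset α) (f : α → β) (B : Finset β) (hf : ∀ x ∈ s, f x ∈ B) :
    s.card ^ 2 ≤ B.card * ((s ×ˢ s).filter (fun p => f p.1 = f p.2)).card := by
  have e1 : s.card = ∑ b ∈ B, (s.filter (fun x => f x = b)).card :=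
    Finset.card_eq_sum_card_fiberwise (fun x hx => hf x hx)
  have e2 : ((s ×ˢ s).filter (fun p => f p.1 = f p.2)).card = ∑ b ∈ B, (s.filter (fun x => f x = b)).card ^ 2 := by
    rw [Finset.card_eq_sum_card_fiberwise (f := fun p : α × α => f p.1) (t := B)
      (fun p hp => hf _ (Finset.mem_product.1 (Finset.mem_filter.1 hp).1).1)]
    refine Finset.sum_congr rfl (fun b _ => ?_)
    rw [sq, ← Finset.card_product]
    congr 1
    ext p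
    simp only [Finset.mem_filter, Finset.mem_product]
    constructor
    · rintro ⟨⟨⟨h1, h2⟩, h3⟩, h4⟩
      exact ⟨⟨h1, h4⟩, ⟨h2, h3 ▸ h4⟩⟩
    · rintro ⟨⟨h1, h2⟩, ⟨h3, h4⟩⟩
      exact ⟨⟨⟨h1, h3⟩, h2.trans h4.symm⟩, h2⟩
  rw [e2, e1]
  exact sq_sum_le_card_mul_sum_sq

theorem ENFa (q : ℕ) (hq : 1 ≤ q) (ρ : ℝ) (hρ : 0 < ρ) (Psi : Finset (ℂ × ℂ)) (dm : ℂ × ℂ → Finset ℕ)
    (h1 : ∀ x ∈ Psi, dm x ⊆ Finset.range q ∧ ρ * q ≤ ((dm x).card : ℝ)) (M0 : ℝ) (hM0 : 0 < M0)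
    (hM : ((((Psi ×ˢ Psi).filter (fun p => ρ ^ 2 / 2 * q ≤ ((dm p.1 ∩ dm p.2).card : ℝ))).image (fun p => quo p.2 p.1)).card : ℝ) ≤ M0) :
    ρ ^ 4 * q * (Psi.card : ℝ) ^ 4 ≤ 4 * M0 * ((quin q Psi dm).card : ℝ) := by
  set GP := (Psi ×ˢ Psi).filter (fun p => ρ ^ 2 / 2 * q ≤ ((dm p.1 ∩ dm p.2).card : ℝ)) with hGP
  set B := GP.image (fun p => quo p.2 p.1) with hB
  let P : ℕ → Finset (ℂ × ℂ) := fun p => Psi.filter (fun x => p ∈ dm x)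
  let A : ℕ → Finset ((ℂ × ℂ) × (ℂ × ℂ)) := fun p => GP.filter (fun w => p ∈ dm w.1 ∧ p ∈ dm w.2)
  have hq0 : (0 : ℝ) < q := by exact_mod_cast hq
  -- step 1
  have s1 : ∑ p ∈ Finset.range q, ((P p).card : ℝ) = ∑ x ∈ Psi, ((dm x).card : ℝ) := by
    have : ∑ p ∈ Finset.range q, (P p).card = ∑ x ∈ Psi, (dm x).card := by
      have := Finset.sum_card_bipartiteAbove_eq_sum_card_bipartiteBelow (s := Finset.range q) (t := Psi)
        (fun (p : ℕ) (x : ℂ × ℂ) => p ∈ dm x)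
      rw [show (∑ p ∈ Finset.range q, (P p).card) = ∑ a ∈ Finset.range q, (Finset.bipartiteAbove (fun (p : ℕ) (x : ℂ × ℂ) => p ∈ dm x) Psi a).card from rfl, this]
      refine Finset.sum_congr rfl (fun x hx => ?_)
      congr 1
      ext p
      simp only [Finset.bipartiteBelow, Finset.mem_filter]
      exact ⟨fun h => h.2, fun h => ⟨(h1 x hx).1 h, h⟩⟩
    exact_mod_cast this
  have s1' : ρ * q * Psi.card ≤ ∑ p ∈ Finset.range q, ((P p).card : ℝ) := by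
    rw [s1]
    have := Finset.card_nsmul_le_sum Psi (fun x => ((dm x).card : ℝ)) (ρ * q) (fun x hx => (h1 x hx).2)
    rw [nsmul_eq_mul] at this
    linarith
  -- step 2
  have s2 : (∑ p ∈ Finset.range q, ((P p).card : ℝ)) ^ 2 ≤ q * ∑ p ∈ Finset.range q, ((P p).card : ℝ) ^ 2 := by
    have := sq_sum_le_card_mul_sum_sq (s := Finset.range q) (f := fun p => ((P p).card : ℝ))
    rwa [Finset.card_range] at this
  have s2' : ρ ^ 2 * q * Psi.card ^ 2 ≤ ∑ p ∈ Finset.range q, ((P p).card : ℝ) ^ 2 := by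
    have h0 : (0 : ℝ) ≤ ρ * q * Psi.card := by positivity
    have h := (pow_le_pow_left₀ h0 s1' 2).trans s2
    have h' : (q : ℝ) * (ρ ^ 2 * q * Psi.card ^ 2) ≤ q * ∑ p ∈ Finset.range q, ((P p).card : ℝ) ^ 2 := by
      calc (q : ℝ) * (ρ ^ 2 * q * Psi.card ^ 2) = (ρ * q * Psi.card) ^ 2 := by ring
        _ ≤ _ := h
    exact le_of_mul_le_mul_left h' hq0
  -- step 3
  have s3 : ∑ p ∈ Finset.range q, (P p).card ^ 2 = ∑ w ∈ Psi ×ˢ Psi, (dm w.1 ∩ dm w.2).card := by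
    have := Finset.sum_card_bipartiteAbove_eq_sum_card_bipartiteBelow (s := Finset.range q) (t := Psi ×ˢ Psi)
      (fun (p : ℕ) (w : (ℂ × ℂ) × (ℂ × ℂ)) => p ∈ dm w.1 ∧ p ∈ dm w.2)
    have e1 : ∑ p ∈ Finset.range q, (P p).card ^ 2 = ∑ a ∈ Finset.range q, (Finset.bipartiteAbove (fun (p : ℕ) (w : (ℂ × ℂ) × (ℂ × ℂ)) => p ∈ dm w.1 ∧ p ∈ dm w.2) (Psi ×ˢ Psi) a).card := by
      refine Finset.sum_congr rfl (fun p _ => ?_)
      rw [sq, ← Finset.card_product]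
      congr 1
      ext w
      simp only [P, Finset.bipartiteAbove, Finset.mem_filter, Finset.mem_product]
      tauto
    rw [e1, this]
    refine Finset.sum_congr rfl (fun w hw => ?_)
    congr 1
    ext p
    simp only [Finset.bipartiteBelow, Finset.mem_filter, Finset.mem_inter]
    exact ⟨fun h => h.2, fun h => ⟨(h1 w.1 (Finset.mem_product.1 hw).1).1 h.1, h⟩⟩
  have s3b : ∑ w ∈ GP, (dm w.1 ∩ dm w.2).card = ∑ p ∈ Finset.range q, (A p).card := by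
    have := Finset.sum_card_bipartiteAbove_eq_sum_card_bipartiteBelow (s := Finset.range q) (t := GP)
      (fun (p : ℕ) (w : (ℂ × ℂ) × (ℂ × ℂ)) => p ∈ dm w.1 ∧ p ∈ dm w.2)
    rw [show (∑ p ∈ Finset.range q, (A p).card) = ∑ a ∈ Finset.range q, (Finset.bipartiteAbove (fun (p : ℕ) (w : (ℂ × ℂ) × (ℂ × ℂ)) => p ∈ dm w.1 ∧ p ∈ dm w.2) GP a).card from rfl, this]
    refine Finset.sum_congr rfl (fun w hw => ?_)
    congr 1
    ext p
    simp only [Finset.bipartiteBelow, Finset.mem_filter, Finset.mem_inter]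
    have hw' : w ∈ Psi ×ˢ Psi := (Finset.mem_filter.1 hw).1
    exact ⟨fun h => ⟨(h1 w.1 (Finset.mem_product.1 hw').1).1 h.1, h⟩, fun h => h.2⟩
  have s3c : ∑ w ∈ (Psi ×ˢ Psi).filter (fun p => ¬ ρ ^ 2 / 2 * q ≤ ((dm p.1 ∩ dm p.2).card : ℝ)), ((dm w.1 ∩ dm w.2).card : ℝ) ≤ ρ ^ 2 / 2 * q * Psi.card ^ 2 := by
    have h := Finset.sum_le_card_nsmul ((Psi ×ˢ Psi).filter (fun p => ¬ ρ ^ 2 / 2 * q ≤ ((dm p.1 ∩ dm p.2).card : ℝ)))
      (fun w => ((dm w.1 ∩ dm w.2).card : ℝ)) (ρ ^ 2 / 2 * q) (fun w hw => (not_le.1 (Finset.mem_filter.1 hw).2).le)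
    rw [nsmul_eq_mul] at h
    have h2 : (((Psi ×ˢ Psi).filter (fun p => ¬ ρ ^ 2 / 2 * q ≤ ((dm p.1 ∩ dm p.2).card : ℝ))).card : ℝ) ≤ Psi.card ^ 2 := by
      have := Finset.card_filter_le (Psi ×ˢ Psi) (fun p => ¬ ρ ^ 2 / 2 * q ≤ ((dm p.1 ∩ dm p.2).card : ℝ))
      rw [Finset.card_product, ← sq] at this
      exact_mod_cast this
    calc _ ≤ _ := h
      _ ≤ Psi.card ^ 2 * (ρ ^ 2 / 2 * q) := mul_le_mul_of_nonneg_right h2 (by positivity)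
      _ = _ := by ring
  have s3' : ρ ^ 2 / 2 * q * Psi.card ^ 2 ≤ ∑ p ∈ Finset.range q, ((A p).card : ℝ) := by
    have e3 : ∑ p ∈ Finset.range q, ((P p).card : ℝ) ^ 2 = ∑ w ∈ Psi ×ˢ Psi, ((dm w.1 ∩ dm w.2).card : ℝ) := by
      exact_mod_cast s3
    have e4 : ∑ w ∈ GP, ((dm w.1 ∩ dm w.2).card : ℝ) = ∑ p ∈ Finset.range q, ((A p).card : ℝ) := by
      exact_mod_cast s3b
    have e5 := Finset.sum_filter_add_sum_filter_not (Psi ×ˢ Psi) (fun p => ρ ^ 2 / 2 * q ≤ ((dm p.1 ∩ dm p.2).card : ℝ))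
      (fun w => ((dm w.1 ∩ dm w.2).card : ℝ))
    rw [← hGP] at e5
    rw [e3] at s2'
    linarith
  -- step 4
  have s4 : ∑ p ∈ Finset.range q, (((A p) ×ˢ (A p)).filter (fun w => quo w.1.2 w.1.1 = quo w.2.2 w.2.1)).card
      ≤ (quin q Psi dm).card := by
    rw [Finset.card_eq_sum_card_fiberwise (s := quin q Psi dm) (f := fun w => w.1) (t := Finset.range q)
      (fun w hw => (Finset.mem_product.1 (Finset.mem_filter.1 hw).1).1)]
    refine Finset.sum_le_sum (fun p hp => ?_)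
    refine Finset.card_le_card_of_injOn (fun w => (p, w.1.1, w.1.2, w.2.2, w.2.1)) ?_ ?_
    · intro w hw
      obtain ⟨hw1, hw2⟩ := Finset.mem_filter.1 (Finset.mem_coe.1 hw)
      obtain ⟨ha, hb⟩ := Finset.mem_product.1 hw1
      obtain ⟨ha1, ha2, ha3⟩ := Finset.mem_filter.1 ha
      obtain ⟨hb1, hb2, hb3⟩ := Finset.mem_filter.1 hb
      obtain ⟨ha4, -⟩ := Finset.mem_filter.1 ha1
      obtain ⟨hb4, -⟩ := Finset.mem_filter.1 hb1
      obtain ⟨ha5, ha6⟩ := Finset.mem_product.1 ha4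
      obtain ⟨hb5, hb6⟩ := Finset.mem_product.1 hb4
      refine Finset.mem_coe.2 (Finset.mem_filter.2 ⟨Finset.mem_filter.2 ⟨?_, ha2, ha3, hb3, hb2, hw2⟩, rfl⟩)
      simp only [Finset.mem_product]
      exact ⟨hp, ha5, ha6, hb6, hb5⟩
    · intro w _ w' _ h
      simp only [Prod.mk.injEq] at h
      obtain ⟨-, h2, h3, h4, h5⟩ := h
      exact Prod.ext (Prod.ext h2 h3) (Prod.ext h5 h4)
  have s4b : ∀ p ∈ Finset.range q, ((A p).card : ℝ) ^ 2 ≤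
      M0 * ((((A p) ×ˢ (A p)).filter (fun w => quo w.1.2 w.1.1 = quo w.2.2 w.2.1)).card : ℝ) := by
    intro p _
    have h := ENFa_col (A p) (fun w => quo w.2 w.1) B (fun w hw => by
      rw [hB]
      exact Finset.mem_image_of_mem (fun p : (ℂ × ℂ) × (ℂ × ℂ) => quo p.2 p.1) (Finset.mem_filter.1 hw).1)
    have h' : ((A p).card : ℝ) ^ 2 ≤ (B.card : ℝ) * ((((A p) ×ˢ (A p)).filter (fun w => quo w.1.2 w.1.1 = quo w.2.2 w.2.1)).card : ℝ) := by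
      rw [← Nat.cast_pow, ← Nat.cast_mul]
      refine Nat.cast_le.2 ?_
      convert h
    exact h'.trans (mul_le_mul_of_nonneg_right hM (Nat.cast_nonneg _))
  -- step 5
  have s5 : (∑ p ∈ Finset.range q, ((A p).card : ℝ)) ^ 2 ≤ q * ∑ p ∈ Finset.range q, ((A p).card : ℝ) ^ 2 := by
    have := sq_sum_le_card_mul_sum_sq (s := Finset.range q) (f := fun p => ((A p).card : ℝ))
    rwa [Finset.card_range] at this
  have s6 : ∑ p ∈ Finset.range q, ((A p).card : ℝ) ^ 2 ≤ M0 * ((quin q Psi dm).card : ℝ) := by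
    calc _ ≤ ∑ p ∈ Finset.range q, M0 * ((((A p) ×ˢ (A p)).filter (fun w => quo w.1.2 w.1.1 = quo w.2.2 w.2.1)).card : ℝ) :=
        Finset.sum_le_sum s4b
      _ = M0 * ∑ p ∈ Finset.range q, ((((A p) ×ˢ (A p)).filter (fun w => quo w.1.2 w.1.1 = quo w.2.2 w.2.1)).card : ℝ) := by
        rw [Finset.mul_sum]
      _ ≤ _ := mul_le_mul_of_nonneg_left (by exact_mod_cast s4) hM0.le
  have s7 : (ρ ^ 2 / 2 * q * (Psi.card : ℝ) ^ 2) ^ 2 ≤ q * (M0 * ((quin q Psi dm).card : ℝ)) :=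
    (pow_le_pow_left₀ (by positivity) s3' 2).trans (s5.trans (mul_le_mul_of_nonneg_left s6 hq0.le))
  have s8 : (q : ℝ) * (ρ ^ 4 * q * (Psi.card : ℝ) ^ 4) ≤ q * (4 * M0 * ((quin q Psi dm).card : ℝ)) := by
    nlinarith [s7]
  exact le_of_mul_le_mul_left s8 hq0

end Pool.Agent.H3.FQ
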