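import Pool.Agent.H3.FQ.ENFa

/-!
# ENFb: two isometries with many companions

`quo` determines: `quo y x = quo z t` (all first components nonzero) and three of `x, y, z, t` determine the fourth (`quo y x = (y.1/x.1, y.2 - y.1/x.1 * x.2)`). `N = |Psi|`. Quintuples of `quin q Psi dm` with
`|dm y ∩ dm z| < (c0/4) q`: `(y, z, t)` determines `x`, `p ∈ dm y ∩ dm z`: at most `(c0/4) q N^3`. Those with `x = t`: `z = y`, at most `q N^2 ≤ (c0/4) q N^3`. The others, `≥ (c0/2) q N^3`, are distributed among the `≤ N^2`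
pairs `(x, t)`, `x ≠ t`: some pair has `≥ (c0/2) q N`; for fixed `(x, t)` the quintuple is determined by `(p, y)`, `p < q`, so there are `≥ (c0/2) N` elements `y`.
-/

set_option autoImplicit false

namespace Pool.Agent.H3.FQ

open Classical

theorem ENFb_fib {α β : Type*} (s : Finset α) (T : Finset β) (f : α → β) (hf : ∀ a ∈ s, f a ∈ T)
    (c : ℝ) (hc : ∀ b ∈ T, ∀ F : Finset α, F ⊆ s → (∀ a ∈ F, f a = b) → (F.card : ℝ) ≤ c) :
    (s.card : ℝ) ≤ T.card * c := by
  rw [Finset.card_eq_sum_card_fiberwise (fun a ha => hf a ha)]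
  push_cast
  refine (Finset.sum_le_sum (fun b hb => hc b hb _ (Finset.filter_subset _ _)
    (fun a ha => (Finset.mem_filter.1 ha).2))).trans (le_of_eq ?_)
  rw [Finset.sum_const, nsmul_eq_mul]

theorem ENFb_left {y z x : ℂ × ℂ} (hx : x.1 ≠ 0) (h : quo y x = quo z x) : y = z := by
  unfold quo at h
  obtain ⟨h1, h2⟩ := Prod.mk.inj h
  have h3 : y.1 = z.1 := by
    field_simp at h1
    exact h1
  rw [h3] at h2
  exact Prod.ext h3 (sub_left_injective h2)

theorem ENFb_right {y x t : ℂ × ℂ} (hy : y.1 ≠ 0) (hx : x.1 ≠ 0) (ht : t.1 ≠ 0)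
    (h : quo y x = quo y t) : x = t := by
  unfold quo at h
  obtain ⟨h1, h2⟩ := Prod.mk.inj h
  have h3 : x.1 = t.1 := by
    have h4 := (div_eq_div_iff hx ht).1 h1
    exact (mul_left_cancel₀ hy h4).symm
  rw [h3] at h2
  have h5 : y.1 / t.1 * x.2 = y.1 / t.1 * t.2 := sub_right_injective h2
  exact Prod.ext h3 (mul_left_cancel₀ (div_ne_zero hy ht) h5)

theorem ENFb (q : ℕ) (hq : 1 ≤ q) (Psi : Finset (ℂ × ℂ)) (dm : ℂ × ℂ → Finset ℕ) (h0 : ∀ x ∈ Psi, ‖x.1‖ = 1)
    (c0 : ℝ) (hc0 : 0 < c0) (hN : 4 ≤ c0 * (Psi.card : ℝ)) (h : c0 * q * (Psi.card : ℝ) ^ 3 ≤ ((quin q Psi dm).card : ℝ)) :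
    ∃ x ∈ Psi, ∃ t ∈ Psi, x ≠ t ∧ c0 / 4 * (Psi.card : ℝ) ≤
      ((Psi.filter (fun y => ∃ z ∈ Psi, quo y x = quo z t ∧ c0 / 4 * q ≤ ((dm y ∩ dm z).card : ℝ))).card : ℝ) := by
  by_contra hcon
  push Not at hcon
  have hne : ∀ x ∈ Psi, x.1 ≠ 0 := by
    intro x hx h1
    have := h0 x hx
    rw [h1, norm_zero] at this
    exact zero_ne_one this
  set N : ℝ := (Psi.card : ℝ) with hNdef
  have hNpos : 0 < N := by
    by_contra h1
    have h2 : c0 * N ≤ 0 := mul_nonpos_of_nonneg_of_nonpos hc0.le (not_lt.1 h1)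
    linarith
  have hqpos : (0 : ℝ) < q := by exact_mod_cast hq
  set Q := quin q Psi dm with hQ
  have hmem : ∀ p ∈ Q, p.1 < q ∧ p.2.1 ∈ Psi ∧ p.2.2.1 ∈ Psi ∧ p.2.2.2.1 ∈ Psi ∧ p.2.2.2.2 ∈ Psi ∧
      p.1 ∈ dm p.2.2.1 ∧ p.1 ∈ dm p.2.2.2.1 ∧ quo p.2.2.1 p.2.1 = quo p.2.2.2.1 p.2.2.2.2 := by
    intro p hp
    rw [hQ, quin, Finset.mem_filter] at hp
    obtain ⟨h1, h2, h3, h4, h5, h6⟩ := hp
    simp only [Finset.mem_product, Finset.mem_range] at h1
    exact ⟨h1.1, h1.2.1, h1.2.2.1, h1.2.2.2.1, h1.2.2.2.2, h3, h4, h6⟩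
  set A := Q.filter (fun p => ((dm p.2.2.1 ∩ dm p.2.2.2.1).card : ℝ) < c0 / 4 * q) with hA
  set B := Q.filter (fun p => p.2.1 = p.2.2.2.2) with hB
  set C := Q.filter (fun p => p.2.1 ≠ p.2.2.2.2 ∧ c0 / 4 * q ≤ ((dm p.2.2.1 ∩ dm p.2.2.2.1).card : ℝ)) with hC
  have hcov : Q ⊆ A ∪ (B ∪ C) := by
    intro p hp
    rw [Finset.mem_union, Finset.mem_union, hA, hB, hC, Finset.mem_filter, Finset.mem_filter, Finset.mem_filter]
    by_cases h1 : ((dm p.2.2.1 ∩ dm p.2.2.2.1).card : ℝ) < c0 / 4 * q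
    · exact Or.inl ⟨hp, h1⟩
    · by_cases h2 : p.2.1 = p.2.2.2.2
      · exact Or.inr (Or.inl ⟨hp, h2⟩)
      · exact Or.inr (Or.inr ⟨hp, h2, not_lt.1 h1⟩)
  have hcard : (Q.card : ℝ) ≤ A.card + (B.card + C.card) := by
    have h1 := (Finset.card_le_card hcov).trans ((Finset.card_union_le _ _).trans
      (Nat.add_le_add_left (Finset.card_union_le _ _) _))
    exact_mod_cast h1
  -- A
  have hAc : (A.card : ℝ) ≤ ((Psi ×ˢ Psi ×ˢ Psi).card : ℝ) * (c0 / 4 * q) := by
    refine ENFb_fib A (Psi ×ˢ Psi ×ˢ Psi) (fun p => (p.2.2.1, p.2.2.2.1, p.2.2.2.2)) ?_ _ ?_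
    · intro p hp
      obtain ⟨h1, h2⟩ := Finset.mem_filter.1 hp
      obtain ⟨-, -, k1, k2, k3, -⟩ := hmem p h1
      exact Finset.mem_product.2 ⟨k1, Finset.mem_product.2 ⟨k2, k3⟩⟩
    · rintro ⟨y, z, t⟩ hb F hF hFb
      rcases F.eq_empty_or_nonempty with he | ⟨p0, hp0⟩
      · rw [he]
        simp only [Finset.card_empty, Nat.cast_zero]
        positivity
      · have hlt : ((dm y ∩ dm z).card : ℝ) < c0 / 4 * q := by
          obtain ⟨h3, h4⟩ := Finset.mem_filter.1 (hF hp0)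
          obtain ⟨e1, e2⟩ := Prod.mk.inj (hFb p0 hp0)
          obtain ⟨e3, e4⟩ := Prod.mk.inj e2
          rw [e1, e3] at h4
          exact h4
        refine le_trans ?_ hlt.le
        have hle : F.card ≤ (dm y ∩ dm z).card := by
          refine Finset.card_le_card_of_injOn (fun p => p.1) ?_ ?_
          · intro p hp
            obtain ⟨h3, h4⟩ := Finset.mem_filter.1 (hF (Finset.mem_coe.1 hp))
            obtain ⟨e1, e2⟩ := Prod.mk.inj (hFb p (Finset.mem_coe.1 hp))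
            obtain ⟨e3, e4⟩ := Prod.mk.inj e2
            obtain ⟨-, -, -, -, -, k1, k2, -⟩ := hmem p h3
            rw [e1] at k1
            rw [e3] at k2
            exact Finset.mem_coe.2 (Finset.mem_inter.2 ⟨k1, k2⟩)
          · intro p hp p' hp' hpp
            obtain ⟨h3, h4⟩ := Finset.mem_filter.1 (hF (Finset.mem_coe.1 hp))
            obtain ⟨e1, e2⟩ := Prod.mk.inj (hFb p (Finset.mem_coe.1 hp))
            obtain ⟨e3, e4⟩ := Prod.mk.inj e2
            obtain ⟨-, k1, k2, k3, k4, -, -, k5⟩ := hmem p h3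
            obtain ⟨h3', h4'⟩ := Finset.mem_filter.1 (hF (Finset.mem_coe.1 hp'))
            obtain ⟨e1', e2'⟩ := Prod.mk.inj (hFb p' (Finset.mem_coe.1 hp'))
            obtain ⟨e3', e4'⟩ := Prod.mk.inj e2'
            obtain ⟨-, k1', k2', k3', k4', -, -, k5'⟩ := hmem p' h3'
            have e5 : quo p.2.2.1 p.2.1 = quo p.2.2.1 p'.2.1 := by
              rw [k5, e1, e3, e4, ← e1', ← e3', ← e4', ← k5']
            have e6 : p.2.1 = p'.2.1 := ENFb_right (hne _ k2) (hne _ k1) (hne _ k1') e5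
            obtain ⟨p1, p2, p3, p4, p5⟩ := p
            obtain ⟨p1', p2', p3', p4', p5'⟩ := p'
            simp only at hpp e1 e3 e4 e1' e3' e4' e6
            subst hpp e1 e3 e4 e6
            rw [← e1', ← e3', ← e4']
        exact_mod_cast hle
  -- B
  have hBc : (B.card : ℝ) ≤ q * (N * N) := by
    have hle : B.card ≤ (Finset.range q ×ˢ Psi ×ˢ Psi).card := by
      refine Finset.card_le_card_of_injOn (fun p => (p.1, p.2.1, p.2.2.1)) ?_ ?_
      · intro p hp
        obtain ⟨h1, h2⟩ := Finset.mem_filter.1 (Finset.mem_coe.1 hp)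
        obtain ⟨k0, k1, k2, -⟩ := hmem p h1
        exact Finset.mem_coe.2 (Finset.mem_product.2 ⟨Finset.mem_range.2 k0, Finset.mem_product.2 ⟨k1, k2⟩⟩)
      · intro p hp p' hp' hpp
        obtain ⟨h1, h2⟩ := Finset.mem_filter.1 (Finset.mem_coe.1 hp)
        obtain ⟨-, k1, k2, k3, k4, -, -, k5⟩ := hmem p h1
        obtain ⟨h1', h2'⟩ := Finset.mem_filter.1 (Finset.mem_coe.1 hp')
        obtain ⟨-, k1', k2', k3', k4', -, -, k5'⟩ := hmem p' h1'
        rw [← h2] at k5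
        rw [← h2'] at k5'
        have e1 := ENFb_left (hne _ k1) k5
        have e2 := ENFb_left (hne _ k1') k5'
        obtain ⟨g1, g2⟩ := Prod.mk.inj hpp
        obtain ⟨g3, g4⟩ := Prod.mk.inj g2
        obtain ⟨p1, p2, p3, p4, p5⟩ := p
        obtain ⟨p1', p2', p3', p4', p5'⟩ := p'
        simp only at g1 g3 g4 e1 e2 h2 h2'
        subst g1 g3 g4 e1 e2 h2 h2'
        rfl
    have h1 : ((Finset.range q ×ˢ Psi ×ˢ Psi).card : ℝ) = q * (N * N) := by
      rw [Finset.card_product, Finset.card_product, Finset.card_range]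
      push_cast
      rfl
    rw [← h1]
    exact_mod_cast hle
  -- C
  have hCc : (C.card : ℝ) ≤ ((Psi ×ˢ Psi).card : ℝ) * (q * (c0 / 4 * N)) := by
    refine ENFb_fib C (Psi ×ˢ Psi) (fun p => (p.2.1, p.2.2.2.2)) ?_ _ ?_
    · intro p hp
      obtain ⟨h1, h2⟩ := Finset.mem_filter.1 hp
      obtain ⟨-, k1, -, -, k3, -⟩ := hmem p h1
      exact Finset.mem_product.2 ⟨k1, k3⟩
    · rintro ⟨x, t⟩ hb F hF hFb
      obtain ⟨hx, ht⟩ := Finset.mem_product.1 hb
      rcases F.eq_empty_or_nonempty with he | ⟨p0, hp0⟩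
      · rw [he]
        simp only [Finset.card_empty, Nat.cast_zero]
        positivity
      · have hxt : x ≠ t := by
          obtain ⟨h3, h4, h5⟩ := Finset.mem_filter.1 (hF hp0)
          obtain ⟨e1, e2⟩ := Prod.mk.inj (hFb p0 hp0)
          rw [e1, e2] at h4
          exact h4
        have hlt := hcon x hx t ht hxt
        have hle : F.card ≤
            (Finset.range q ×ˢ (Psi.filter (fun y => ∃ z ∈ Psi, quo y x = quo z t ∧
              c0 / 4 * q ≤ ((dm y ∩ dm z).card : ℝ)))).card := by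
          refine Finset.card_le_card_of_injOn (fun p => (p.1, p.2.2.1)) ?_ ?_
          · intro p hp
            obtain ⟨h3, h4, h5⟩ := Finset.mem_filter.1 (hF (Finset.mem_coe.1 hp))
            obtain ⟨e1, e2⟩ := Prod.mk.inj (hFb p (Finset.mem_coe.1 hp))
            obtain ⟨k0, k1, k2, k3, k4, k5, k6, k7⟩ := hmem p h3
            rw [e1, e2] at k7
            exact Finset.mem_coe.2 (Finset.mem_product.2 ⟨Finset.mem_range.2 k0,
              Finset.mem_filter.2 ⟨k2, p.2.2.2.1, k3, k7, h5⟩⟩)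
          · intro p hp p' hp' hpp
            obtain ⟨h3, -⟩ := Finset.mem_filter.1 (hF (Finset.mem_coe.1 hp))
            obtain ⟨e1, e2⟩ := Prod.mk.inj (hFb p (Finset.mem_coe.1 hp))
            obtain ⟨-, k1, k2, k3, k4, -, -, k5⟩ := hmem p h3
            obtain ⟨h3', -⟩ := Finset.mem_filter.1 (hF (Finset.mem_coe.1 hp'))
            obtain ⟨e1', e2'⟩ := Prod.mk.inj (hFb p' (Finset.mem_coe.1 hp'))
            obtain ⟨-, k1', k2', k3', k4', -, -, k5'⟩ := hmem p' h3'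
            obtain ⟨g1, g2⟩ := Prod.mk.inj hpp
            have e5 : quo p.2.2.2.1 p.2.2.2.2 = quo p'.2.2.2.1 p.2.2.2.2 := by
              rw [← k5, e1, g2, ← e1', k5', e2', e2]
            have e6 : p.2.2.2.1 = p'.2.2.2.1 := ENFb_left (hne _ k4) e5
            obtain ⟨p1, p2, p3, p4, p5⟩ := p
            obtain ⟨p1', p2', p3', p4', p5'⟩ := p'
            simp only at g1 g2 e1 e2 e1' e2' e6
            subst g1 g2 e6 e1 e2
            rw [← e1', ← e2']
        have h6 : ((Finset.range q ×ˢ (Psi.filter (fun y => ∃ z ∈ Psi, quo y x = quo z t ∧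
              c0 / 4 * q ≤ ((dm y ∩ dm z).card : ℝ)))).card : ℝ) = q * ((Psi.filter (fun y => ∃ z ∈ Psi, quo y x = quo z t ∧
              c0 / 4 * q ≤ ((dm y ∩ dm z).card : ℝ))).card : ℝ) := by
          rw [Finset.card_product, Finset.card_range]
          push_cast
          rfl
        have h7 : (F.card : ℝ) ≤
            ((Finset.range q ×ˢ (Psi.filter (fun y => ∃ z ∈ Psi, quo y x = quo z t ∧
              c0 / 4 * q ≤ ((dm y ∩ dm z).card : ℝ)))).card : ℝ) := by exact_mod_cast hle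
        refine h7.trans ?_
        rw [h6]
        exact mul_le_mul_of_nonneg_left hlt.le hqpos.le
  have e1 : ((Psi ×ˢ Psi ×ˢ Psi).card : ℝ) = N * (N * N) := by
    rw [Finset.card_product, Finset.card_product]
    push_cast
    rfl
  have e2 : ((Psi ×ˢ Psi).card : ℝ) = N * N := by
    rw [Finset.card_product]
    push_cast
    rfl
  rw [e1] at hAc
  rw [e2] at hCc
  have h8 : q * (N * N) ≤ c0 / 4 * q * N ^ 3 := by
    have : 0 ≤ (c0 * N - 4) * (q * (N * N)) := mul_nonneg (by linarith) (by positivity)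
    nlinarith
  have h9 : 0 < c0 * q * N ^ 3 := by positivity
  nlinarith

end Pool.Agent.H3.FQ
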