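import Pool.Agent.H3.FQ.QUO
import Pool.Agent.H3.FQ.ANG

/-!
# POLE: a common pole

Composition of `g = (g.1, g.2)` as maps; `quo g h = g h⁻¹`. For `y` in the filtered set choose `z = z(y)`; `k = quo y x = quo z t`, so `y = k x`, `z = k t` (as maps; as pairs: `act_ext`/computation), `l_y = quo z y = k (t x⁻¹) k⁻¹`, with first
component `z.1/y.1 = t.1/x.1 =: a`, `a ≠ 1` (`x ≠ t` and `hinj`), `a ≠ 0`. The elements `l_y` have `|dom0 q v l_y| ≥ |dom y ∩ dom z| ≥ η q` (`QUO0`, `Finset.inter_comm`). `ANG`: at most `2/η + 1` different `l_y`. So for at least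
`η |Psi| / (2/η+1)` elements `y` (pigeonhole) `l_y = l` is the same. Let `F` be the fixed point of `quo t x` (exists: `a ≠ 1`), `O1` the point with `act x O1 = F` (`O1 = (F - x.2)/x.1`), `O2` the unique fixed point of `l`. For these `y`:
`act y O1 = act k (act x O1) = act k F`, and `act l (act k F) = act k (act (quo t x) F) = act k F`, so `act y O1 = O2`.
-/

set_option autoImplicit false

namespace Pool.Agent.H3.FQ

open Classical

theorem POLE_aq (g h : ℂ × ℂ) (hh : h.1 ≠ 0) (z : ℂ) : act (quo g h) (act h z) = act g z := by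
  unfold act quo
  field_simp
  ring

theorem POLE_fix (a b w : ℂ) (ha : a ≠ 1) (h : a * w + b = w) : w = b / (1 - a) := by
  have h1 : (1 - a) ≠ 0 := sub_ne_zero.mpr (Ne.symm ha)
  rw [eq_div_iff h1]
  linear_combination (-1 : ℂ) * h

/-- pigeonhole: some fibre has at least the average size -/
theorem POLE_pig {α β : Type*} [DecidableEq β] (F : Finset α) (f : α → β) (hF : F.Nonempty) :
    ∃ l ∈ F.image f, F.card ≤ (F.image f).card * (F.filter (fun y => f y = l)).card := by
  obtain ⟨l, hl, hmax⟩ := Finset.exists_max_image (F.image f) (fun l => (F.filter (fun y => f y = l)).card)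
    (hF.image f)
  refine ⟨l, hl, ?_⟩
  have h1 : F.card = ∑ b ∈ F.image f, (F.filter (fun y => f y = b)).card :=
    Finset.card_eq_sum_card_fiberwise (fun y hy => Finset.mem_coe.mpr (Finset.mem_image_of_mem f hy))
  rw [h1]
  have h2 := Finset.sum_le_card_nsmul (F.image f) (fun b => (F.filter (fun y => f y = b)).card)
    (F.filter (fun y => f y = l)).card hmax
  simpa using h2

theorem POLE {q : ℕ} {v : ℕ → ℂ} (hv : Chain q v) (G : ℕ) (Psi : Finset (ℂ × ℂ)) (h1 : ∀ x ∈ Psi, ‖x.1‖ = 1)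
    (hinj : ∀ x ∈ Psi, ∀ y ∈ Psi, x.1 = y.1 → x = y) (η : ℝ) (hη : 0 < η) (hq : (2 / η + 1) ^ 2 ≤ (q : ℝ))
    (x t : ℂ × ℂ) (hx : x ∈ Psi) (ht : t ∈ Psi) (hxt : x ≠ t)
    (hY : η * (Psi.card : ℝ) ≤ ((Psi.filter (fun y => ∃ z ∈ Psi, quo y x = quo z t ∧
      η * q ≤ ((dom q v G y ∩ dom q v G z).card : ℝ))).card : ℝ)) :
    ∃ O1 O2 : ℂ, η * (Psi.card : ℝ) ≤ (2 / η + 1) * ((Psi.filter (fun y => act y O1 = O2)).card : ℝ) := by
  have hne : ∀ y ∈ Psi, y.1 ≠ 0 := by
    intro y hy h0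
    have := h1 y hy
    rw [h0, norm_zero] at this
    exact zero_ne_one this
  set F := Psi.filter (fun y => ∃ z ∈ Psi, quo y x = quo z t ∧
      η * q ≤ ((dom q v G y ∩ dom q v G z).card : ℝ)) with hF
  have hpos : (0 : ℝ) ≤ 2 / η + 1 := by positivity
  rcases F.eq_empty_or_nonempty with hemp | hnon
  · refine ⟨0, 0, ?_⟩
    rw [hemp] at hY
    have : (0 : ℝ) ≤ (2 / η + 1) * ((Psi.filter (fun y => act y 0 = 0)).card : ℝ) := by positivity
    have h0 : η * (Psi.card : ℝ) ≤ 0 := by simpa using hY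
    linarith
  · have hch : ∀ y : ℂ × ℂ, ∃ z : ℂ × ℂ, y ∈ F → (z ∈ Psi ∧ quo y x = quo z t ∧
        η * q ≤ ((dom q v G y ∩ dom q v G z).card : ℝ)) := by
      intro y
      by_cases hy : y ∈ F
      · obtain ⟨z, hz⟩ := (Finset.mem_filter.mp hy).2
        exact ⟨z, fun _ => hz⟩
      · exact ⟨0, fun h => absurd h hy⟩
    choose zf hzf using hch
    have hx0 := hne x hx
    have ht0 := hne t ht
    have ha1 : t.1 / x.1 ≠ 1 := by
      intro h
      rw [div_eq_one_iff_eq hx0] at h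
      exact hxt (hinj x hx t ht h.symm)
    have ha0 : t.1 / x.1 ≠ 0 := div_ne_zero ht0 hx0
    have hfst : ∀ y ∈ F, (quo (zf y) y).1 = t.1 / x.1 := by
      intro y hy
      obtain ⟨hz, hq1, _⟩ := hzf y hy
      have hy0 := hne y (Finset.mem_filter.mp hy).1
      have hz0 := hne _ hz
      have h2 : y.1 / x.1 = (zf y).1 / t.1 := congrArg Prod.fst hq1
      show (zf y).1 / y.1 = t.1 / x.1
      rw [div_eq_div_iff hx0 ht0] at h2
      rw [div_eq_div_iff hy0 hx0]
      linear_combination (-1 : ℂ) * h2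
    have hS : ∀ g ∈ F.image (fun y => quo (zf y) y), g.1 = t.1 / x.1 ∧ η * q ≤ ((dom0 q v g).card : ℝ) := by
      intro g hg
      obtain ⟨y, hy, rfl⟩ := Finset.mem_image.mp hg
      refine ⟨hfst y hy, ?_⟩
      obtain ⟨hz, hq1, hc⟩ := hzf y hy
      have h3 := QUO0 hv G (zf y) y (h1 y (Finset.mem_filter.mp hy).1)
      rw [Finset.inter_comm] at h3
      have h4 : ((dom q v G y ∩ dom q v G (zf y)).card : ℝ) ≤ ((dom0 q v (quo (zf y) y)).card : ℝ) := by
        exact_mod_cast h3
      linarith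
    have hcard := ANG hv η hη (F.image (fun y => quo (zf y) y)) (t.1 / x.1) ha0 hS hq
    obtain ⟨l, hl, hpig⟩ := POLE_pig F (fun y => quo (zf y) y) hnon
    -- the fixed point of `quo t x`
    set b0 : ℂ := (quo t x).2 with hb0
    set Fp : ℂ := b0 / (1 - t.1 / x.1) with hFp
    have hFix : act (quo t x) Fp = Fp := by
      have h5 : (1 - t.1 / x.1) ≠ 0 := sub_ne_zero.mpr (Ne.symm ha1)
      have h6 : Fp * (1 - t.1 / x.1) = b0 := by rw [hFp]; exact div_mul_cancel₀ _ h5
      show t.1 / x.1 * Fp + b0 = Fp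
      linear_combination (-1 : ℂ) * h6
    set O1 : ℂ := (Fp - x.2) / x.1 with hO1
    have hxO : act x O1 = Fp := by
      show x.1 * O1 + x.2 = Fp
      rw [hO1]
      field_simp
      ring
    have htO : act t O1 = Fp := by
      rw [← POLE_aq t x hx0 O1, hxO, hFix]
    refine ⟨O1, l.2 / (1 - t.1 / x.1), ?_⟩
    have hsub : F.filter (fun y => quo (zf y) y = l) ⊆
        Psi.filter (fun y => act y O1 = l.2 / (1 - t.1 / x.1)) := by
      intro y hy
      obtain ⟨hyF, hyl⟩ := Finset.mem_filter.mp hy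
      have hyP := (Finset.mem_filter.mp hyF).1
      rw [Finset.mem_filter]
      refine ⟨hyP, ?_⟩
      obtain ⟨hz, hq1, hc⟩ := hzf y hyF
      have e1 : act (quo (zf y) y) (act y O1) = act (zf y) O1 := POLE_aq _ _ (hne y hyP) _
      have e2 : act (zf y) O1 = act (quo (zf y) t) (act t O1) := (POLE_aq _ _ ht0 _).symm
      have e3 : act y O1 = act (quo y x) (act x O1) := (POLE_aq _ _ hx0 _).symm
      have e4 : act (quo (zf y) y) (act y O1) = act y O1 := by
        rw [e1, e2, htO, ← hq1, ← hxO, ← e3]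
      rw [hyl] at e4
      have e5 : l.1 = t.1 / x.1 := by rw [← hyl]; exact hfst y hyF
      have e6 : l.1 * act y O1 + l.2 = act y O1 := e4
      rw [e5] at e6
      exact POLE_fix _ _ _ ha1 e6
    have hc1 : ((F.filter (fun y => quo (zf y) y = l)).card : ℝ) ≤
        ((Psi.filter (fun y => act y O1 = l.2 / (1 - t.1 / x.1))).card : ℝ) := by
      exact_mod_cast Finset.card_le_card hsub
    have hc2 : (F.card : ℝ) ≤ ((F.image (fun y => quo (zf y) y)).card : ℝ) *
        ((F.filter (fun y => quo (zf y) y = l)).card : ℝ) := by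
      exact_mod_cast hpig
    calc η * (Psi.card : ℝ) ≤ (F.card : ℝ) := hY
      _ ≤ ((F.image (fun y => quo (zf y) y)).card : ℝ) *
        ((F.filter (fun y => quo (zf y) y = l)).card : ℝ) := hc2
      _ ≤ (2 / η + 1) * ((F.filter (fun y => quo (zf y) y = l)).card : ℝ) :=
          mul_le_mul_of_nonneg_right hcard (Nat.cast_nonneg _)
      _ ≤ (2 / η + 1) * ((Psi.filter (fun y => act y O1 = l.2 / (1 - t.1 / x.1))).card : ℝ) :=
          mul_le_mul_of_nonneg_left hc1 hpos

end Pool.Agent.H3.FQ
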