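import Pool.Agent.H3.FQ.ANG

/-!
# THIN: distinct rotation factors

Choose for every rotation factor `a` occurring in `Psi` one element; the fibre `{g ∈ Psi : g.1 = a}` has at most `2/ρ + 1` elements (`ANG` with `η = ρ`; `dom q v G g ⊆ dom0 q v g`; `a ≠ 0`).
-/

set_option autoImplicit false

namespace Pool.Agent.H3.FQ

open Classical

theorem THIN {q : ℕ} {v : ℕ → ℂ} (hv : Chain q v) (G : ℕ) (ρ : ℝ) (hρ : 0 < ρ) (Psi : Finset (ℂ × ℂ))
    (h1 : ∀ g ∈ Psi, ‖g.1‖ = 1 ∧ ρ * q ≤ ((dom q v G g).card : ℝ)) (hq : (2 / ρ + 1) ^ 2 ≤ (q : ℝ)) :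
    ∃ Psi' ⊆ Psi, (∀ x ∈ Psi', ∀ y ∈ Psi', x.1 = y.1 → x = y) ∧ (Psi.card : ℝ) ≤ (2 / ρ + 1) * (Psi'.card : ℝ) := by
  have hex : ∀ a ∈ Psi.image Prod.fst, ∃ g ∈ Psi, g.1 = a := fun a ha => Finset.mem_image.1 ha
  choose! c hc1 hc2 using hex
  have hinj : Set.InjOn c (Psi.image Prod.fst : Finset ℂ) := by
    intro a ha b hb h
    rw [← hc2 a ha, ← hc2 b hb, h]
  have hρ0 : 0 ≤ 2 / ρ + 1 := by positivity
  refine ⟨(Psi.image Prod.fst).image c, ?_, ?_, ?_⟩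
  · intro g hg
    obtain ⟨a, ha, rfl⟩ := Finset.mem_image.1 hg
    exact hc1 a ha
  · intro x hx y hy h
    obtain ⟨a, ha, rfl⟩ := Finset.mem_image.1 hx
    obtain ⟨b, hb, rfl⟩ := Finset.mem_image.1 hy
    rw [hc2 a ha, hc2 b hb] at h
    rw [h]
  · have hfib : ∀ a ∈ Psi.image Prod.fst, (Psi.filter (fun g => g.1 = a)).card ≤ ⌊2 / ρ + 1⌋₊ := by
      intro a ha
      apply Nat.le_floor
      obtain ⟨g0, hg0, hga⟩ := Finset.mem_image.1 ha
      have ha0 : a ≠ 0 := by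
        intro h0
        have h2 := (h1 g0 hg0).1
        rw [hga, h0, norm_zero] at h2
        exact zero_ne_one h2
      refine ANG hv ρ hρ _ a ha0 ?_ hq
      intro g hg
      obtain ⟨hg1, hg2⟩ := Finset.mem_filter.1 hg
      refine ⟨hg2, (h1 g hg1).2.trans ?_⟩
      have hsub : dom q v G g ⊆ dom0 q v g := by
        intro i hi
        unfold dom at hi
        unfold dom0
        rw [Finset.mem_filter] at hi ⊢
        obtain ⟨hi1, j, _, _, hj, he⟩ := hi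
        exact ⟨hi1, j, hj, he⟩
      exact_mod_cast Finset.card_le_card hsub
    have hle := Finset.card_le_mul_card_image Psi _ hfib
    rw [Finset.card_image_of_injOn hinj]
    calc (Psi.card : ℝ) ≤ ((⌊2 / ρ + 1⌋₊ * (Psi.image Prod.fst).card : ℕ) : ℝ) := by exact_mod_cast hle
      _ = (⌊2 / ρ + 1⌋₊ : ℝ) * ((Psi.image Prod.fst).card : ℝ) := by push_cast; ring
      _ ≤ (2 / ρ + 1) * ((Psi.image Prod.fst).card : ℝ) :=
        mul_le_mul_of_nonneg_right (Nat.floor_le hρ0) (Nat.cast_nonneg _)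

end Pool.Agent.H3.FQ
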