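import Pool.Agent.H3.FQ.POP
import Pool.Agent.H3.FQ.THIN
import Pool.Agent.H3.FQ.ENFb
import Pool.Agent.H3.FQ.POLE
import Pool.Agent.H3.FQ.DBL

/-!
# FAM: a large family of isometries with a common pole

`fam q v G ρ c K`: the output. Proof of `FAM`. `ρ = (2^25 C^3)^(-1/2)`, `G = 8 C t ≥ 1`. `POP`: `Psi0`, `|dom g| ≥ ρ q`, `|Psi0| ≥ ρ^2 G`. `THIN`: `Psi ⊆ Psi0` with distinct factors, `N = |Psi| ≥ c1 G`, `c1 = ρ^2/(2/ρ+1)`. `ENFa` with `dm = dom q v G`: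
the set there consists of `quo y x` with `|dom x ∩ dom y| ≥ η0 q`, `η0 = ρ^2/2`, so by `QUO2`, `QUOn`, `SYM` (`8 G + 8 ≤ η0 q` for large `q`) it has at most `12 (G+1)/η0^2 ≤ 96 G/ρ^4 =: M0` elements. `c0 = ρ^8 c1 / 384`: `4 M0 |quin| ≥ ρ^4 q N^4`
gives `|quin| ≥ ρ^8 q N^4/(384 G) ≥ c0 q N^3`. `4 ≤ c0 N` if `t` is large. `ENFb`, `POLE` with `η = c0/4`: `Y1 = {y ∈ Psi : act y O1 = O2}`, `|Y1| ≥ η N/(2/η+1)`. `DBL`: `Y ⊆ Y1`, `|Y| ≥ (ρ/2) |Y1| ≥ c G` with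
`c = (ρ/2) η c1/(2/η+1)`; `|Θ - Θ| ≤ 288 (G+1)^2/((ρ^2/32)^4 |Y|) ≤ K G`, `K = 288 * 4/((ρ^2/32)^4 c)`.
-/

set_option autoImplicit false

namespace Pool.Agent.H3.FQ

open scoped Pointwise
open Classical

/-- a family of isometries with common pole, many, with small difference set of rotation angles -/
def fam (q : ℕ) (v : ℕ → ℂ) (G : ℕ) (ρ c K : ℝ) : Prop :=
  ∃ (O1 O2 : ℂ) (Y : Finset (ℂ × ℂ)), (∀ y ∈ Y, ‖y.1‖ = 1 ∧ act y O1 = O2 ∧ ρ * q ≤ ((dom q v G y).card : ℝ)) ∧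
    (∀ y ∈ Y, ∀ z ∈ Y, y.1 = z.1 → y = z) ∧ c * G ≤ (Y.card : ℝ) ∧
    ((Y.image ag - Y.image ag).card : ℝ) ≤ K * G

/-- numbers: lower bound for the number of quintuples -/
theorem FAM_num1 (ρ c1 c0 N G q Q : ℝ) (hρ : 0 < ρ) (hc1 : 0 < c1) (hG : 0 < G) (hq : 0 ≤ q) (hN : c1 * G ≤ N)
    (hc0 : c0 = ρ ^ 8 * c1 / 384) (h : ρ ^ 4 * q * N ^ 4 ≤ 4 * (96 * G / ρ ^ 4) * Q) : c0 * q * N ^ 3 ≤ Q := by
  have hN0 : 0 < N := lt_of_lt_of_le (by positivity) hN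
  have h1 : ρ ^ 8 * q * N ^ 4 ≤ 384 * G * Q := by
    have h2 := mul_le_mul_of_nonneg_left h (by positivity : 0 ≤ ρ ^ 4)
    have e1 : ρ ^ 4 * (4 * (96 * G / ρ ^ 4) * Q) = 384 * G * Q := by
      field_simp
      ring
    have e2 : ρ ^ 4 * (ρ ^ 4 * q * N ^ 4) = ρ ^ 8 * q * N ^ 4 := by ring
    rw [e1, e2] at h2
    exact h2
  have h3 : ρ ^ 8 * q * N ^ 3 * (c1 * G) ≤ ρ ^ 8 * q * N ^ 3 * N :=
    mul_le_mul_of_nonneg_left hN (by positivity)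
  have h4 : G * (ρ ^ 8 * c1 * q * N ^ 3) ≤ G * (384 * Q) := by
    have e3 : ρ ^ 8 * q * N ^ 3 * N = ρ ^ 8 * q * N ^ 4 := by ring
    have e4 : ρ ^ 8 * q * N ^ 3 * (c1 * G) = G * (ρ ^ 8 * c1 * q * N ^ 3) := by ring
    have e5 : 384 * G * Q = G * (384 * Q) := by ring
    rw [e3] at h3
    rw [e4] at h3
    rw [e5] at h1
    exact h3.trans h1
  have h5 := le_of_mul_le_mul_left h4 hG
  rw [hc0]
  have e6 : ρ ^ 8 * c1 / 384 * q * N ^ 3 = ρ ^ 8 * c1 * q * N ^ 3 / 384 := by ring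
  rw [e6]
  linarith

/-- numbers: bound for the number of quotients -/
theorem FAM_num2 (ρ G s : ℝ) (hρ : 0 < ρ) (hG : 1 ≤ G) (h : (ρ ^ 2 / 2) ^ 2 * s ≤ 12 * (G + 1)) :
    s ≤ 96 * G / ρ ^ 4 := by
  rw [le_div_iff₀ (by positivity)]
  have e : (ρ ^ 2 / 2) ^ 2 * s = s * ρ ^ 4 / 4 := by ring
  rw [e] at h
  linarith

/-- numbers: many isometries with a common pole -/
theorem FAM_num3 (ρ c1 η N G a b c : ℝ) (hρ : 0 < ρ) (hη : 0 < η) (hN : c1 * G ≤ N)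
    (hc : c = ρ / 2 * (η * c1 / (2 / η + 1))) (h1 : η * N ≤ (2 / η + 1) * a) (h2 : ρ / 2 * a ≤ b) : c * G ≤ b := by
  have hw : 0 < 2 / η + 1 := by positivity
  have h3 : η * c1 / (2 / η + 1) * G ≤ a := by
    rw [div_mul_eq_mul_div, div_le_iff₀ hw]
    have h4 := mul_le_mul_of_nonneg_left hN hη.le
    have e1 : η * (c1 * G) = η * c1 * G := by ring
    rw [e1] at h4
    linarith
  have h5 := mul_le_mul_of_nonneg_left h3 (by positivity : 0 ≤ ρ / 2)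
  rw [hc]
  have e2 : ρ / 2 * (η * c1 / (2 / η + 1)) * G = ρ / 2 * (η * c1 / (2 / η + 1) * G) := by ring
  rw [e2]
  exact h5.trans h2

/-- numbers: small difference set -/
theorem FAM_num4 (ρ c K G b D : ℝ) (hρ : 0 < ρ) (hc : 0 < c) (hG : 1 ≤ G) (hb : c * G ≤ b)
    (hD : 0 ≤ D) (hK : K = 288 * 4 / ((ρ ^ 2 / 32) ^ 4 * c)) (h : D * b ≤ 288 * (G + 1) ^ 2 / (ρ ^ 2 / 32) ^ 4) :
    D ≤ K * G := by
  have hG0 : 0 < G := by linarith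
  have hw : 0 < (ρ ^ 2 / 32) ^ 4 := by positivity
  have h1 : D * (c * G) ≤ 288 * (G + 1) ^ 2 / (ρ ^ 2 / 32) ^ 4 := (mul_le_mul_of_nonneg_left hb hD).trans h
  rw [le_div_iff₀ hw] at h1
  have h2 : 288 * (G + 1) ^ 2 ≤ 288 * (4 * G ^ 2) := by nlinarith
  have h3 : D * (c * G) * (ρ ^ 2 / 32) ^ 4 ≤ 288 * (4 * G ^ 2) := h1.trans h2
  rw [hK, div_mul_eq_mul_div, le_div_iff₀ (by positivity)]
  have h4 : G * (D * ((ρ ^ 2 / 32) ^ 4 * c)) ≤ G * (288 * 4 * G) := by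
    have e1 : G * (D * ((ρ ^ 2 / 32) ^ 4 * c)) = D * (c * G) * (ρ ^ 2 / 32) ^ 4 := by ring
    have e2 : G * (288 * 4 * G) = 288 * (4 * G ^ 2) := by ring
    rw [e1, e2]
    exact h3
  exact le_of_mul_le_mul_left h4 hG0

theorem FAM (C : ℕ) (hC : 1 ≤ C) : ∃ ρ c K : ℝ, 0 < ρ ∧ 0 < c ∧ 0 < K ∧ ∃ t0 : ℕ, 1 ≤ t0 ∧ ∀ t ≥ t0, ∃ q0 : ℕ,
    ∀ (q : ℕ) (v : ℕ → ℂ) (m : ℕ), q0 ≤ q → Chain q v → (dD q v).card ≤ C * q → RR q v (8 * C * t) m →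
      m * 2 ^ 30 * C ^ 5 * t ^ 2 ≤ q → fam q v (8 * C * t) ρ c K := by
  have hCr : (1 : ℝ) ≤ C := by exact_mod_cast hC
  obtain ⟨A, hA⟩ : ∃ A : ℝ, A = 2 ^ 25 * (C : ℝ) ^ 3 := ⟨_, rfl⟩
  have hA0 : 0 < A := by rw [hA]; positivity
  obtain ⟨ρ, hρd⟩ : ∃ ρ : ℝ, ρ = (Real.sqrt A)⁻¹ := ⟨_, rfl⟩
  have hρ : 0 < ρ := by rw [hρd]; positivity
  have hρA : ρ ^ 2 * A = 1 := by
    rw [hρd, inv_pow, Real.sq_sqrt hA0.le]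
    exact inv_mul_cancel₀ hA0.ne'
  obtain ⟨c1, hc1d⟩ : ∃ c1 : ℝ, c1 = ρ ^ 2 / (2 / ρ + 1) := ⟨_, rfl⟩
  have hc1 : 0 < c1 := by rw [hc1d]; positivity
  obtain ⟨c0, hc0d⟩ : ∃ c0 : ℝ, c0 = ρ ^ 8 * c1 / 384 := ⟨_, rfl⟩
  have hc0 : 0 < c0 := by rw [hc0d]; positivity
  obtain ⟨η, hηd⟩ : ∃ η : ℝ, η = c0 / 4 := ⟨_, rfl⟩
  have hη : 0 < η := by rw [hηd]; positivity
  obtain ⟨c, hcd⟩ : ∃ c : ℝ, c = ρ / 2 * (η * c1 / (2 / η + 1)) := ⟨_, rfl⟩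
  have hc : 0 < c := by rw [hcd]; positivity
  obtain ⟨K, hKd⟩ : ∃ K : ℝ, K = 288 * 4 / ((ρ ^ 2 / 32) ^ 4 * c) := ⟨_, rfl⟩
  have hK : 0 < K := by rw [hKd]; positivity
  refine ⟨ρ, c, K, hρ, hc, hK, ⌈4 / (c0 * c1)⌉₊ + 1, by omega, fun t ht => ?_⟩
  have ht1 : 1 ≤ t := by omega
  obtain ⟨q1, hq1⟩ := POP C t hC ht1
  obtain ⟨G, hGd⟩ : ∃ G : ℕ, G = 8 * C * t := ⟨_, rfl⟩
  have htr : (1 : ℝ) ≤ t := by exact_mod_cast ht1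
  have hGr : (G : ℝ) = 8 * C * t := by rw [hGd]; push_cast; ring
  have hGt : (t : ℝ) ≤ G := by
    rw [hGr]
    nlinarith
  have hG1 : (1 : ℝ) ≤ G := htr.trans hGt
  have hG0 : (0 : ℝ) < G := by linarith
  refine ⟨max q1 (⌈(2 / ρ + 1) ^ 2 + (2 / η + 1) ^ 2 + (8 * (G : ℝ) + 8) / (ρ ^ 2 / 32)⌉₊ + 1), ?_⟩
  intro q v m hq hv hD hR hm
  have hqa : q1 ≤ q := (le_max_left _ _).trans hq
  have hqb : ⌈(2 / ρ + 1) ^ 2 + (2 / η + 1) ^ 2 + (8 * (G : ℝ) + 8) / (ρ ^ 2 / 32)⌉₊ + 1 ≤ q :=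
    (le_max_right _ _).trans hq
  have hq1' : 1 ≤ q := by omega
  have hqr : (2 / ρ + 1) ^ 2 + (2 / η + 1) ^ 2 + (8 * (G : ℝ) + 8) / (ρ ^ 2 / 32) ≤ q := by
    refine (Nat.le_ceil _).trans ?_
    exact_mod_cast (by omega : ⌈(2 / ρ + 1) ^ 2 + (2 / η + 1) ^ 2 + (8 * (G : ℝ) + 8) / (ρ ^ 2 / 32)⌉₊ ≤ q)
  have hp1 : 0 ≤ (2 / ρ + 1) ^ 2 := sq_nonneg _
  have hp2 : 0 ≤ (2 / η + 1) ^ 2 := sq_nonneg _
  have hp3 : 0 ≤ (8 * (G : ℝ) + 8) / (ρ ^ 2 / 32) := by positivity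
  have hqρ : (2 / ρ + 1) ^ 2 ≤ (q : ℝ) := by linarith
  have hqη : (2 / η + 1) ^ 2 ≤ (q : ℝ) := by linarith
  have hqG : 8 * (G : ℝ) + 8 ≤ ρ ^ 2 / 32 * q := by
    have h1 : (8 * (G : ℝ) + 8) / (ρ ^ 2 / 32) ≤ q := by linarith
    rw [div_le_iff₀ (by positivity)] at h1
    linarith
  have hqG2 : 8 * (G : ℝ) + 8 ≤ ρ ^ 2 / 2 * q := by
    have h1 : 0 ≤ ρ ^ 2 * (q : ℝ) := by positivity
    linarith
  obtain ⟨Psi0, hP0, hP1⟩ := hq1 q v m hqa hv hD hR hm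
  rw [← hGd] at hP0 hP1 ⊢
  have hdom : ∀ g ∈ Psi0, ‖g.1‖ = 1 ∧ ρ * q ≤ ((dom q v G g).card : ℝ) := by
    intro g hg
    refine ⟨(hP0 g hg).1, ?_⟩
    have h1 : (q : ℝ) ^ 2 ≤ A * ((dom q v G g).card : ℝ) ^ 2 := by
      rw [hA]
      exact_mod_cast (hP0 g hg).2
    have h2 : (ρ * q) ^ 2 ≤ ((dom q v G g).card : ℝ) ^ 2 := by
      have h3 := mul_le_mul_of_nonneg_left h1 (sq_nonneg ρ)
      have e1 : ρ ^ 2 * (A * ((dom q v G g).card : ℝ) ^ 2) = ((dom q v G g).card : ℝ) ^ 2 := by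
        rw [← mul_assoc, hρA, one_mul]
      rw [e1] at h3
      rw [mul_pow]
      exact h3
    exact le_of_sq_le_sq h2 (Nat.cast_nonneg _)
  have hP0c : ρ ^ 2 * G ≤ (Psi0.card : ℝ) := by
    have h1 : (G : ℝ) ≤ A * (Psi0.card : ℝ) := by
      rw [hA]
      exact_mod_cast hP1
    have h3 := mul_le_mul_of_nonneg_left h1 (sq_nonneg ρ)
    rw [← mul_assoc, hρA, one_mul] at h3
    exact h3
  obtain ⟨Psi, hsub, hinj, hcard⟩ := THIN hv G ρ hρ Psi0 hdom hqρ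
  have hPsi : ∀ g ∈ Psi, ‖g.1‖ = 1 ∧ ρ * q ≤ ((dom q v G g).card : ℝ) := fun g hg => hdom g (hsub hg)
  have hN : c1 * G ≤ (Psi.card : ℝ) := by
    rw [hc1d, div_mul_eq_mul_div, div_le_iff₀ (by positivity)]
    have := hP0c.trans hcard
    linarith
  have hS : ((((Psi ×ˢ Psi).filter (fun p => ρ ^ 2 / 2 * q ≤ ((dom q v G p.1 ∩ dom q v G p.2).card : ℝ))).image
      (fun p => quo p.2 p.1)).card : ℝ) ≤ 96 * G / ρ ^ 4 := by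
    refine FAM_num2 ρ G _ hρ hG1 ?_
    refine SYM hv G (ρ ^ 2 / 2) (by positivity) _ ?_ hqG2
    intro g hg
    obtain ⟨p, hp, rfl⟩ := Finset.mem_image.1 hg
    obtain ⟨hp1', hp2'⟩ := Finset.mem_filter.1 hp
    obtain ⟨hx, hy⟩ := Finset.mem_product.1 hp1'
    refine ⟨QUOn _ _ (hPsi _ hy).1 (hPsi _ hx).1, hp2'.trans ?_⟩
    have h1 := QUO2 hv G p.2 p.1 (hPsi _ hx).1
    rw [Finset.inter_comm] at h1
    exact_mod_cast h1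
  have hquin := ENFa q hq1' ρ hρ Psi (dom q v G)
    (fun x hx => ⟨Finset.filter_subset _ _, (hPsi x hx).2⟩) (96 * G / ρ ^ 4) (by positivity) hS
  have hquin2 := FAM_num1 ρ c1 c0 (Psi.card : ℝ) G q _ hρ hc1 hG0 (Nat.cast_nonneg _) hN hc0d hquin
  have hN4 : 4 ≤ c0 * (Psi.card : ℝ) := by
    have h1 : 4 / (c0 * c1) ≤ (t : ℝ) := by
      refine (Nat.le_ceil _).trans ?_
      exact_mod_cast (by omega : ⌈4 / (c0 * c1)⌉₊ ≤ t)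
    rw [div_le_iff₀ (by positivity)] at h1
    have h2 : (t : ℝ) * (c0 * c1) ≤ G * (c0 * c1) := mul_le_mul_of_nonneg_right hGt (by positivity)
    have h3 := mul_le_mul_of_nonneg_left hN hc0.le
    have e1 : c0 * (c1 * G) = G * (c0 * c1) := by ring
    rw [e1] at h3
    linarith
  obtain ⟨x, hx, s, hs, hxs, hY⟩ := ENFb q hq1' Psi (dom q v G) (fun x hx => (hPsi x hx).1) c0 hc0 hN4 hquin2
  rw [← hηd] at hY
  obtain ⟨O1, O2, hO⟩ := POLE hv G Psi (fun x hx => (hPsi x hx).1) hinj η hη hqη x s hx hs hxs hY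
  obtain ⟨Y, hYsub, hY1, hY2⟩ := DBL hv G ρ hρ (Psi.filter (fun y => act y O1 = O2))
    (fun y hy => hPsi y (Finset.mem_filter.1 hy).1)
    (fun y hy z hz h => hinj y (Finset.mem_filter.1 hy).1 z (Finset.mem_filter.1 hz).1 h) hqG
  have hcG : c * G ≤ (Y.card : ℝ) := FAM_num3 ρ c1 η (Psi.card : ℝ) G _ _ c hρ hη hN hcd hO hY1
  refine ⟨O1, O2, Y, fun y hy => ?_, fun y hy z hz h => ?_, hcG, ?_⟩
  · have h1 := Finset.mem_filter.1 (hYsub hy)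
    exact ⟨(hPsi y h1.1).1, h1.2, (hPsi y h1.1).2⟩
  · exact hinj y (Finset.mem_filter.1 (hYsub hy)).1 z (Finset.mem_filter.1 (hYsub hz)).1 h
  · exact FAM_num4 ρ c K G (Y.card : ℝ) _ hρ hc hG1 hcG (Nat.cast_nonneg _) hKd hY2

end Pool.Agent.H3.FQ
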