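import Pool.Agent.H3.FQ.INV
import Pool.Agent.H3.FQ.CHN
import Pool.Agent.H3.FQ.DCNT
import Pool.Agent.H3.LC.FIN
import Pool.Agent.H34.LM.Layers

/-!
# FINALF: the theorem

`M = 0` is trivial. `M ≥ 1`: `C = 32 M^2`, `INV C`: `c, q0`; `LC.FIN`: `N1`. Suppose `n = |A|` is large and `low A < M`. `low_of_convex` (`Pool.Agent.H34.LM.low_of_convex`, `K = M`, `c = n / (8 M^2)`, floor; its conclusion `M ≤ low A` is the same expression)
gives `V ⊆ A` in convex position with `|V| > n / (8 M^2)`, `n < 8 M^2 (|V|)`... precisely `n < 8 M^2 |V|`. `CHN`: `q, v, e`, `|V| ≤ 4 q`, so `n ≤ 32 M^2 q = C q`. The distances `dist (v i) (v j) = dist (e.symm (v i)) (e.symm (v j))`, `i < j < q`, are distances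
of `A` (`Chain_inj`): `|dD q v| ≤ |dset A| ≤ M + n/2 ≤ n ≤ C q` (`DCNT`, `n ≥ 2 M`). `INV` (`q ≥ n/C ≥ q0`): `O, r`, `I = {i < q : dist (v i) O = r}`, `|I| ≥ c q ≥ (c/C) n`. `V' = I.image (fun i => e.symm (v i)) ⊆ A`, `|V'| = |I|`, cospherical (centre
`e.symm O`, radius `r`). `|V'|^25 ≥ (c/C)^25 n^25 ≥ n^24` for large `n`. `LC.FIN`: `(c/C) n ≤ |V'| ≤ 20 low A < 20 M`: contradiction for large `n`.
-/

set_option autoImplicit false

namespace Pool.Agent.H3.FQ

open Classical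

theorem FINALF_inj {q : ℕ} {v : ℕ → ℂ} (h : Chain q v) {i j : ℕ} (hi : i < q) (hj : j < q) (e : v i = v j) :
    i = j := by
  rcases lt_trichotomy i j with h1 | h1 | h1
  · have h2 := h.mono i j h1 hj
    rw [e] at h2
    exact absurd h2 (lt_irrefl _)
  · exact h1
  · have h2 := h.mono j i h1 hi
    rw [e] at h2
    exact absurd h2 (lt_irrefl _)

theorem FINALF : ∀ M : ℕ, ∃ N : ℕ, ∀ A : Finset (EuclideanSpace ℝ (Fin 2)), N ≤ A.card → M ≤ LC.low A := by
  intro M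
  rcases Nat.eq_zero_or_pos M with hM | hM
  · exact ⟨0, fun A _ => by rw [hM]; exact Nat.zero_le _⟩
  have hM2 : 0 < M ^ 2 := by positivity
  obtain ⟨C, hC⟩ : ∃ C : ℕ, C = 32 * M ^ 2 := ⟨_, rfl⟩
  have hC1 : 1 ≤ C := by omega
  obtain ⟨c, hc, q0, hINV⟩ := INV C hC1
  obtain ⟨N1, hFIN⟩ := LC.FIN
  have hCr : (0 : ℝ) < C := by exact_mod_cast hC1
  obtain ⟨κ, hκ⟩ : ∃ κ : ℝ, κ = c / C := ⟨_, rfl⟩
  have hκ0 : 0 < κ := by rw [hκ]; positivity
  obtain ⟨N2, hN2⟩ := exists_nat_ge (1 / κ ^ 25)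
  obtain ⟨N3, hN3⟩ := exists_nat_ge (20 * (M : ℝ) / κ)
  refine ⟨N1 + 2 * M + C * q0 + N2 + N3, fun A hA => ?_⟩
  by_contra hlow
  push Not at hlow
  obtain ⟨n, hn⟩ : ∃ n : ℕ, n = A.card := ⟨_, rfl⟩
  rw [← hn] at hA
  have hAne : A.Nonempty := by
    rw [← Finset.card_pos, ← hn]
    omega
  -- a large subset in convex position
  obtain ⟨V, hVA, hVc, hV⟩ : ∃ V : Finset (EuclideanSpace ℝ (Fin 2)), V ⊆ A ∧
      (∀ x ∈ V, x ∉ convexHull ℝ ((V : Set (EuclideanSpace ℝ (Fin 2))) \ {x})) ∧ n / (8 * M ^ 2) < V.card := by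
    by_contra hno
    push Not at hno
    have h1 := Pool.Agent.H34.LM.low_of_convex A hAne M (n / (8 * M ^ 2)) hno (by
      rw [← hn]
      exact Nat.mul_div_le n (8 * M ^ 2))
    exact absurd h1 (not_le.2 hlow)
  have hV2 : n < V.card * (8 * M ^ 2) := (Nat.div_lt_iff_lt_mul (by positivity)).1 hV
  obtain ⟨q, v, e, hq, hch, hev⟩ := CHN V hVc
  have hnq : n < C * q := by
    calc n < V.card * (8 * M ^ 2) := hV2
      _ ≤ 4 * q * (8 * M ^ 2) := Nat.mul_le_mul_right _ hq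
      _ = C * q := by rw [hC]; ring
  have hqq : q0 ≤ q := by
    by_contra h1
    push Not at h1
    have h2 : C * q ≤ C * q0 := Nat.mul_le_mul_left _ h1.le
    omega
  -- few distances
  have hsub : dD q v ⊆ LC.dset A := by
    intro d hd
    unfold dD at hd
    rw [Finset.mem_image] at hd
    obtain ⟨⟨i, j⟩, hij, rfl⟩ := hd
    rw [Finset.mem_filter, Finset.mem_product, Finset.mem_range, Finset.mem_range] at hij
    obtain ⟨⟨hi, hj⟩, hlt⟩ := hij
    change i < q at hi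
    change j < q at hj
    change i < j at hlt
    unfold LC.dset
    rw [Finset.mem_image]
    refine ⟨(e.symm (v i), e.symm (v j)), ?_, ?_⟩
    · rw [Finset.mem_offDiag]
      refine ⟨hVA (hev i hi), hVA (hev j hj), fun h1 => ?_⟩
      have h2 := FINALF_inj hch hi hj (e.symm.injective h1)
      omega
    · exact e.symm.dist_eq (v i) (v j)
  have hD : (dD q v).card ≤ C * q := by
    have h1 := Finset.card_le_card hsub
    have h2 := DCNT A
    rw [← hn] at h2
    omega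
  obtain ⟨O, r, hI⟩ := hINV q v hqq hch hD
  obtain ⟨I, hIdef⟩ : ∃ I : Finset ℕ, I = (Finset.range q).filter (fun i => dist (v i) O = r) := ⟨_, rfl⟩
  rw [← hIdef] at hI
  have hIm : ∀ i ∈ I, i < q ∧ dist (v i) O = r := fun i hi => by
    rw [hIdef, Finset.mem_filter, Finset.mem_range] at hi
    exact hi
  obtain ⟨V', hV'⟩ : ∃ V' : Finset (EuclideanSpace ℝ (Fin 2)), V' = I.image (fun i => e.symm (v i)) := ⟨_, rfl⟩
  have hcard : V'.card = I.card := by
    rw [hV']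
    refine Finset.card_image_of_injOn ?_
    intro i hi j hj hij
    exact FINALF_inj hch (hIm i hi).1 (hIm j hj).1 (e.symm.injective hij)
  have hV'A : V' ⊆ A := by
    intro x hx
    rw [hV', Finset.mem_image] at hx
    obtain ⟨i, hi, rfl⟩ := hx
    exact hVA (hev i (hIm i hi).1)
  have hcos : EuclideanGeometry.Cospherical (V' : Set (EuclideanSpace ℝ (Fin 2))) := by
    refine ⟨e.symm O, r, fun x hx => ?_⟩
    rw [Finset.mem_coe, hV', Finset.mem_image] at hx
    obtain ⟨i, hi, rfl⟩ := hx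
    rw [e.symm.dist_eq]
    exact (hIm i hi).2
  -- the size of `V'`
  have hnr : (0 : ℝ) ≤ n := Nat.cast_nonneg n
  have hsize : κ * n ≤ (V'.card : ℝ) := by
    have h1 : (n : ℝ) ≤ C * q := by exact_mod_cast hnq.le
    have h2 : κ * C = c := by
      rw [hκ]
      field_simp
    calc κ * n ≤ κ * (C * q) := mul_le_mul_of_nonneg_left h1 hκ0.le
      _ = c * q := by rw [← mul_assoc, h2]
      _ ≤ (I.card : ℝ) := hI
      _ = (V'.card : ℝ) := by rw [hcard]
  have hb2 : (N2 : ℝ) ≤ n := by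
    have : N2 ≤ n := by omega
    exact_mod_cast this
  have hb3 : (N3 : ℝ) ≤ n := by
    have : N3 ≤ n := by omega
    exact_mod_cast this
  have hpow : n ^ 24 ≤ V'.card ^ 25 := by
    have h1 : (1 : ℝ) ≤ κ ^ 25 * n := by
      have h2 : 1 / κ ^ 25 ≤ n := hN2.trans hb2
      rw [div_le_iff₀ (by positivity)] at h2
      linarith
    have h3 : (n : ℝ) ^ 24 ≤ (V'.card : ℝ) ^ 25 := by
      calc (n : ℝ) ^ 24 = 1 * (n : ℝ) ^ 24 := (one_mul _).symm
        _ ≤ (κ ^ 25 * n) * (n : ℝ) ^ 24 := mul_le_mul_of_nonneg_right h1 (by positivity)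
        _ = (κ * n) ^ 25 := by ring
        _ ≤ (V'.card : ℝ) ^ 25 := pow_le_pow_left₀ (by positivity) hsize 25
    exact_mod_cast h3
  rw [hn] at hpow
  have h5 := hFIN A V' (by omega) hV'A hpow (Or.inr hcos)
  have h6 : V'.card < 20 * M := by omega
  have h7 : (V'.card : ℝ) < 20 * M := by exact_mod_cast h6
  have h8 : 20 * (M : ℝ) ≤ κ * n := by
    have h9 : 20 * (M : ℝ) / κ ≤ n := hN3.trans hb3
    rw [div_le_iff₀ hκ0] at h9
    linarith
  linarith

end Pool.Agent.H3.FQ
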