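import Pool.Agent.H3.FQ.Defs

/-!
# FIVE: conics through five points

`gen5 Y`: at least five points, no three collinear (for three different points `crs ≠ 0`).
`FIVE0`: a quadratic polynomial vanishing on `Y` and at three different points `z1, z2, z1 + s (z2 - z1)` (`s ≠ 0, 1`, `z1 ≠ z2`) of a line is `0`. Proof: restricted to the line it is a polynomial of degree `≤ 2`
in one variable with three zeros, so it vanishes on the line; in the coordinates `z = z1 + σ d + τ (i d)`, `d = z2 - z1`, it is `τ (B' σ + C' τ + E')`. At most two points of `Y` are on the line, so at least three points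
of `Y` (non-collinear) have `τ ≠ 0` and `B' σ + C' τ + E' = 0`: `B' = C' = E' = 0`, so the polynomial is `0` as a function, all six coefficients vanish.
`FIVE`: if `c`, `c'` vanish on `Y` and `c ≠ 0` then `c' = lam c`: take `y1 ≠ y2` in `Y`, `z = y1 + 2 (y2 - y1)`, and `(α, β) ≠ 0` with `α c(z) + β c'(z) = 0`; `FIVE0` gives `α c + β c' = 0`; `β ≠ 0` (otherwise `c = 0`).
-/

set_option autoImplicit false

namespace Pool.Agent.H3.FQ

open Classical

/-- at least five points, no three collinear -/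
def gen5 (Y : Finset ℂ) : Prop :=
  5 ≤ Y.card ∧ ∀ x ∈ Y, ∀ y ∈ Y, ∀ z ∈ Y, x ≠ y → y ≠ z → x ≠ z → crs x y z ≠ 0

lemma FIVE_coeff {k : Fin 6 → ℝ} (h : ∀ z, qd k z = 0) : k = 0 := by
  have h1 := h ⟨0, 0⟩
  have h2 := h ⟨1, 0⟩
  have h3 := h ⟨-1, 0⟩
  have h4 := h ⟨0, 1⟩
  have h5 := h ⟨0, -1⟩
  have h6 := h ⟨1, 1⟩
  unfold qd at h1 h2 h3 h4 h5 h6
  norm_num at h1 h2 h3 h4 h5 h6
  have e5 : k 5 = 0 := h1
  have e3 : k 3 = 0 := by linarith
  have e0 : k 0 = 0 := by linarith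
  have e4 : k 4 = 0 := by linarith
  have e2 : k 2 = 0 := by linarith
  have e1 : k 1 = 0 := by linarith
  funext i
  fin_cases i
  · exact e0
  · exact e1
  · exact e2
  · exact e3
  · exact e4
  · exact e5

lemma FIVE_lin (c c' : Fin 6 → ℝ) (l : ℝ) (z : ℂ) :
    qd (fun i => c' i - l * c i) z = qd c' z - l * qd c z := by
  unfold qd
  ring

/-- a quadratic polynomial which vanishes on a line and at five points, no three collinear, is zero -/
theorem FIVE_line {k : Fin 6 → ℝ} {Y : Finset ℂ} (hG : gen5 Y) (hY : ∀ y ∈ Y, qd k y = 0)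
    {p e : ℂ} (he : e ≠ 0) (hl : ∀ t : ℝ, qd k (p + t * e) = 0) : ∀ z, qd k z = 0 := by
  classical
  have hN : 0 < e.re ^ 2 + e.im ^ 2 := by
    have h1 : 0 < Complex.normSq e := Complex.normSq_pos.2 he
    rw [Complex.normSq_apply] at h1
    nlinarith
  -- the coordinate `t`
  obtain ⟨L, hL⟩ : ∃ L : ℂ → ℝ, ∀ z, L z = e.re * (z.im - p.im) - e.im * (z.re - p.re) :=
    ⟨_, fun _ => rfl⟩
  obtain ⟨S, hS⟩ : ∃ S : ℂ → ℝ, ∀ z, S z = e.re * (z.re - p.re) + e.im * (z.im - p.im) :=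
    ⟨_, fun _ => rfl⟩
  obtain ⟨N, hNe⟩ : ∃ N, N = e.re ^ 2 + e.im ^ 2 := ⟨_, rfl⟩
  rw [← hNe] at hN
  have hN0 : N ≠ 0 := hN.ne'
  obtain ⟨α, hα⟩ : ∃ α, α = -2 * k 0 * e.re * e.im + k 1 * (e.re ^ 2 - e.im ^ 2) +
    2 * k 2 * e.re * e.im := ⟨_, rfl⟩
  obtain ⟨β, hβ⟩ : ∃ β, β = k 0 * e.im ^ 2 - k 1 * e.re * e.im + k 2 * e.re ^ 2 := ⟨_, rfl⟩
  obtain ⟨γ, hγ⟩ : ∃ γ, γ = -2 * k 0 * p.re * e.im + k 1 * (p.re * e.re - p.im * e.im) +
    2 * k 2 * p.im * e.re - k 3 * e.im + k 4 * e.re := ⟨_, rfl⟩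
  -- the formula
  have hf : ∀ z, qd k z * N ^ 2 = L z * (α * S z + β * L z + γ * N) := by
    intro z
    have h0 := hl (S z / N)
    have hz1 : z.re - p.re = (e.re * S z - e.im * L z) / N := by
      rw [eq_div_iff hN0, hS, hL, hNe]
      ring
    have hz2 : z.im - p.im = (e.im * S z + e.re * L z) / N := by
      rw [eq_div_iff hN0, hS, hL, hNe]
      ring
    obtain ⟨s, hs⟩ : ∃ s, s = S z / N := ⟨_, rfl⟩
    obtain ⟨t, ht⟩ : ∃ t, t = L z / N := ⟨_, rfl⟩
    have hs' : S z = s * N := by rw [hs]; field_simp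
    have ht' : L z = t * N := by rw [ht]; field_simp
    have hz1' : z.re = p.re + s * e.re - t * e.im := by
      have : (e.re * S z - e.im * L z) / N = s * e.re - t * e.im := by
        rw [hs', ht']
        field_simp
      linarith
    have hz2' : z.im = p.im + s * e.im + t * e.re := by
      have : (e.im * S z + e.re * L z) / N = s * e.im + t * e.re := by
        rw [hs', ht']
        field_simp
      linarith
    rw [← hs] at h0
    unfold qd at h0 ⊢
    simp only [Complex.add_re, Complex.add_im, Complex.mul_re, Complex.mul_im, Complex.ofReal_re,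
      Complex.ofReal_im, zero_mul, sub_zero, add_zero] at h0
    rw [hs', ht', hz1', hz2', hα, hβ, hγ]
    linear_combination N ^ 2 * h0
  -- three points off the line
  have hoff : ∃ a ∈ Y, ∃ b ∈ Y, ∃ c ∈ Y, a ≠ b ∧ a ≠ c ∧ b ≠ c ∧ L a ≠ 0 ∧ L b ≠ 0 ∧ L c ≠ 0 := by
    have h1 : (Y.filter fun z => L z = 0).card ≤ 2 := by
      by_contra hcon
      push Not at hcon
      obtain ⟨a, b, c, ha, hb, hc, hab, hac, hbc⟩ := Finset.two_lt_card_iff.1 hcon
      rw [Finset.mem_filter] at ha hb hc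
      refine hG.2 a ha.1 b hb.1 c hc.1 hab hbc hac ?_
      have ha' := ha.2
      have hb' := hb.2
      have hc' := hc.2
      rw [hL] at ha' hb' hc'
      unfold crs
      have g1 : e.re * (b.im - a.im) = e.im * (b.re - a.re) := by linarith
      have g2 : e.re * (c.im - a.im) = e.im * (c.re - a.re) := by linarith
      have g3 : e.re * ((b.re - a.re) * (c.im - a.im) - (b.im - a.im) * (c.re - a.re)) = 0 := by
        linear_combination (b.re - a.re) * g2 - (c.re - a.re) * g1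
      have g4 : e.im * ((b.re - a.re) * (c.im - a.im) - (b.im - a.im) * (c.re - a.re)) = 0 := by
        linear_combination (b.im - a.im) * g2 - (c.im - a.im) * g1
      by_contra hne
      have g5 : e.re = 0 := by
        rcases mul_eq_zero.1 g3 with h | h
        · exact h
        · exact absurd h hne
      have g6 : e.im = 0 := by
        rcases mul_eq_zero.1 g4 with h | h
        · exact h
        · exact absurd h hne
      rw [hNe, g5, g6] at hN
      norm_num at hN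
    have h2 := Finset.card_filter_add_card_filter_not (s := Y) (fun z => L z = 0)
    have h3 : 2 < (Y.filter fun z => ¬ L z = 0).card := by
      have := hG.1
      omega
    obtain ⟨a, b, c, ha, hb, hc, hab, hac, hbc⟩ := Finset.two_lt_card_iff.1 h3
    rw [Finset.mem_filter] at ha hb hc
    exact ⟨a, ha.1, b, hb.1, c, hc.1, hab, hac, hbc, ha.2, hb.2, hc.2⟩
  obtain ⟨a, ha, b, hb, c, hc, hab, hac, hbc, hLa, hLb, hLc⟩ := hoff
  have hm : ∀ z ∈ Y, L z ≠ 0 → α * S z + β * L z + γ * N = 0 := by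
    intro z hz hLz
    have h1 := hf z
    rw [hY z hz, zero_mul] at h1
    rcases mul_eq_zero.1 h1.symm with h | h
    · exact absurd h hLz
    · exact h
  have ea := hm a ha hLa
  have eb := hm b hb hLb
  have ec := hm c hc hLc
  have hΔ : (S b - S a) * (L c - L a) - (L b - L a) * (S c - S a) ≠ 0 := by
    have h1 : (S b - S a) * (L c - L a) - (L b - L a) * (S c - S a) = N * crs a b c := by
      rw [hS, hS, hS, hL, hL, hL, hNe]
      unfold crs
      ring
    rw [h1]
    exact mul_ne_zero hN0 (hG.2 a ha b hb c hc hab hbc hac)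
  have hα0 : α = 0 := by
    have h1 : α * ((S b - S a) * (L c - L a) - (L b - L a) * (S c - S a)) = 0 := by
      linear_combination (L c - L a) * (eb - ea) - (L b - L a) * (ec - ea)
    rcases mul_eq_zero.1 h1 with h | h
    · exact h
    · exact absurd h hΔ
  have hβ0 : β = 0 := by
    have h1 : β * ((S b - S a) * (L c - L a) - (L b - L a) * (S c - S a)) = 0 := by
      linear_combination (S b - S a) * (ec - ea) - (S c - S a) * (eb - ea)
    rcases mul_eq_zero.1 h1 with h | h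
    · exact h
    · exact absurd h hΔ
  have hγ0 : γ * N = 0 := by
    rw [hα0, hβ0] at ea
    linarith
  intro z
  have h1 := hf z
  rw [hα0, hβ0, hγ0, zero_mul, zero_mul, zero_add, zero_add, mul_zero] at h1
  rcases mul_eq_zero.1 h1 with h | h
  · exact h
  · exact absurd h (pow_ne_zero 2 hN0)

theorem FIVE0 (Y : Finset ℂ) (hY : gen5 Y) (c : Fin 6 → ℝ) (hc : ∀ y ∈ Y, qd c y = 0) (z1 z2 : ℂ) (hz : z1 ≠ z2) (s : ℝ)
    (hs0 : s ≠ 0) (hs1 : s ≠ 1) (h1 : qd c z1 = 0) (h2 : qd c z2 = 0) (h3 : qd c (z1 + (s : ℂ) * (z2 - z1)) = 0) : c = 0 := by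
  have he : z2 - z1 ≠ 0 := sub_ne_zero.2 (Ne.symm hz)
  refine FIVE_coeff (FIVE_line hY hc he (p := z1) ?_)
  intro t
  have e2 : z2 = z1 + (z2 - z1) := by ring
  rw [e2] at h2
  obtain ⟨e, hee⟩ : ∃ e, e = z2 - z1 := ⟨_, rfl⟩
  rw [← hee] at h2 h3 ⊢
  obtain ⟨A, hA⟩ : ∃ A, A = c 0 * e.re ^ 2 + c 1 * (e.re * e.im) + c 2 * e.im ^ 2 := ⟨_, rfl⟩
  obtain ⟨B, hB⟩ : ∃ B, B = 2 * c 0 * z1.re * e.re + c 1 * (z1.re * e.im + z1.im * e.re) +
    2 * c 2 * z1.im * e.im + c 3 * e.re + c 4 * e.im := ⟨_, rfl⟩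
  have hq : ∀ t : ℝ, qd c (z1 + (t : ℂ) * e) = A * t ^ 2 + B * t + qd c z1 := by
    intro t
    rw [hA, hB]
    unfold qd
    simp only [Complex.add_re, Complex.add_im, Complex.mul_re, Complex.mul_im, Complex.ofReal_re,
      Complex.ofReal_im, zero_mul, sub_zero, add_zero]
    ring
  have g1 := hq 1
  have g2 := hq s
  rw [Complex.ofReal_one, one_mul, h2, h1] at g1
  rw [h3, h1] at g2
  have g3 : A * (s - 1) = 0 := by
    have g4 : s * (A * (s - 1)) = 0 := by linear_combination -g2 + s * g1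
    exact (mul_eq_zero.1 g4).resolve_left hs0
  have hA0 : A = 0 := (mul_eq_zero.1 g3).resolve_right (sub_ne_zero.2 hs1)
  have hB0 : B = 0 := by
    rw [hA0] at g1
    linarith
  rw [hq, h1, hA0, hB0]
  ring

theorem FIVE (Y : Finset ℂ) (hY : gen5 Y) (c c' : Fin 6 → ℝ) (hc0 : c ≠ 0) (hc : ∀ y ∈ Y, qd c y = 0) (hc' : ∀ y ∈ Y, qd c' y = 0) :
    ∃ lam : ℝ, ∀ k, c' k = lam * c k := by
  have h2 : 1 < Y.card := by
    have := hY.1
    omega
  obtain ⟨a, ha, b, hb, hab⟩ := Finset.one_lt_card.1 h2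
  have hne : qd c (a + ((2 : ℝ) : ℂ) * (b - a)) ≠ 0 := by
    intro h
    exact hc0 (FIVE0 Y hY c hc a b hab 2 two_ne_zero (by norm_num) (hc a ha) (hc b hb) h)
  obtain ⟨l, hl⟩ : ∃ l, l = qd c' (a + ((2 : ℝ) : ℂ) * (b - a)) / qd c (a + ((2 : ℝ) : ℂ) * (b - a)) :=
    ⟨_, rfl⟩
  have h3 : (fun i => c' i - l * c i) = 0 := by
    refine FIVE0 Y hY _ (fun y hy => ?_) a b hab 2 two_ne_zero (by norm_num) ?_ ?_ ?_
    · rw [FIVE_lin, hc y hy, hc' y hy]
      ring
    · rw [FIVE_lin, hc a ha, hc' a ha]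
      ring
    · rw [FIVE_lin, hc b hb, hc' b hb]
      ring
    · rw [FIVE_lin, hl, div_mul_cancel₀ _ hne, sub_self]
  refine ⟨l, fun k => ?_⟩
  have h4 := congrFun h3 k
  change c' k - l * c k = 0 at h4
  linarith

end Pool.Agent.H3.FQ
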