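import Pool.Agent.H3.FQ.RA
import Pool.Agent.H3.FQ.ALG

/-!
# RB: chain contained in a conic

As in `RA` (use `cod_ord`, `ori`, `RIG`); in the second case let `Y = (cod q v G u1 u2 u3).image (fun w => v w.1)`. `w ↦ v w.1` is injective on `cod` (`v w.2 = aff m' (v w.1)` and `Chain_inj`), so `|Y| ≥ 5`; no three
different points of the chain are collinear (`ori`, after sorting the indices; `crs` changes sign or is invariant under permutations): `gen5 Y`. `T y = v w.2` is again a point of the chain, so `qd c (T y) = 0`.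
`ALG` with `x = v u1.1`, `x' = v u1.2`: `orth m'`, contradiction.
-/

set_option autoImplicit false

namespace Pool.Agent.H3.FQ

open Classical

theorem RB_ne {q : ℕ} {v : ℕ → ℂ} (hv : Chain q v) {i j l : ℕ} (hi : i < q) (hj : j < q) (hl : l < q)
    (hij : i ≠ j) (hjl : j ≠ l) (hil : i ≠ l) : crs (v i) (v j) (v l) ≠ 0 := by
  intro h
  rcases lt_or_gt_of_ne hij with a | a
  · rcases lt_or_gt_of_ne hjl with b | b
    · have := ori hv a b hl
      linarith
    · rcases lt_or_gt_of_ne hil with c | c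
      · have := ori hv c b hj
        unfold crs at this h
        linarith
      · have := ori hv c a hj
        unfold crs at this h
        linarith
  · rcases lt_or_gt_of_ne hjl with b | b
    · rcases lt_or_gt_of_ne hil with c | c
      · have := ori hv a c hl
        unfold crs at this h
        linarith
      · have := ori hv b c hi
        unfold crs at this h
        linarith
    · have := ori hv b a hi
      unfold crs at this h
      linarith

theorem RB {q : ℕ} {v : ℕ → ℂ} (hv : Chain q v) (G : ℕ) (c : Fin 6 → ℝ) (hc : isConic c)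
    (h : ∀ i < q, qd c (v i) = 0) : RR q v G 5 := by
  intro u1 u2 u3 h12 h23 hm
  obtain ⟨w0, hw0⟩ := Finset.card_pos.mp (lt_of_lt_of_le (by norm_num : 0 < 5) hm)
  have ho := cod_ord hv hw0 h12 h23
  obtain ⟨a1, a2, m1, m2, m3⟩ := RA_cod hw0
  have m3' := RA_mem m3
  have o1 : 0 < crs (v u1.1) (v u2.1) (v u3.1) := ori hv h12 h23 (lt_trans m3'.1 a1)
  have o2 : 0 < crs (v u1.2) (v u2.2) (v u3.2) := ori hv ho.1 ho.2 (lt_trans m3'.2.1 a2)
  rcases RIG _ _ _ _ _ _ o1 o2 with ⟨g, hg, e1, e2, e3, H⟩ | ⟨mm, hdet, hno, H⟩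
  · refine ⟨g, hg, e1, e2, e3, fun w hw => ?_⟩
    obtain ⟨_, _, n1, n2, n3⟩ := RA_cod hw
    exact H _ _ (RA_mem n1).2.2 (RA_mem n2).2.2 (RA_mem n3).2.2
  · exfalso
    have Haff : ∀ w ∈ cod q v G u1 u2 u3, v w.2 = aff mm (v w.1) := by
      intro w hw
      obtain ⟨_, _, n1, n2, n3⟩ := RA_cod hw
      exact H _ _ (RA_mem n1).2.2 (RA_mem n2).2.2 (RA_mem n3).2.2
    obtain ⟨Y, hY⟩ : ∃ Y : Finset ℂ, Y = (cod q v G u1 u2 u3).image (fun w => v w.1) := ⟨_, rfl⟩
    have hYm : ∀ y ∈ Y, ∃ w ∈ cod q v G u1 u2 u3, v w.1 = y := by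
      intro y hy
      rw [hY] at hy
      exact Finset.mem_image.1 hy
    have hcard : 5 ≤ Y.card := by
      rw [hY, Finset.card_image_of_injOn]
      · exact hm
      · intro w hw w' hw' hww
        have h1 : w ∈ cod q v G u1 u2 u3 := hw
        have h2 : w' ∈ cod q v G u1 u2 u3 := hw'
        have hww' : w.1 = w'.1 := Chain_inj hv (RA_cod h1).1 (RA_cod h2).1 hww
        have e : v w.2 = v w'.2 := by rw [Haff w h1, Haff w' h2, hww']
        exact Prod.ext hww' (Chain_inj hv (RA_cod h1).2.1 (RA_cod h2).2.1 e)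
    have hgen : gen5 Y := by
      refine ⟨hcard, ?_⟩
      intro x hx y hy z hz hxy hyz hxz
      obtain ⟨w1, k1, rfl⟩ := hYm x hx
      obtain ⟨w2, k2, rfl⟩ := hYm y hy
      obtain ⟨w3, k3, rfl⟩ := hYm z hz
      exact RB_ne hv (RA_cod k1).1 (RA_cod k2).1 (RA_cod k3).1 (fun e => hxy (by rw [e]))
        (fun e => hyz (by rw [e])) (fun e => hxz (by rw [e]))
    refine hno (ALG Y hgen c hc ?_ mm hdet (v u1.1) (v u1.2) ?_ ?_)
    · intro y hy
      obtain ⟨w, k, rfl⟩ := hYm y hy
      exact h _ (RA_cod k).1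
    · intro y hy
      obtain ⟨w, k, rfl⟩ := hYm y hy
      rw [← Haff w k]
      exact h _ (RA_cod k).2.1
    · intro y hy
      obtain ⟨w, k, rfl⟩ := hYm y hy
      rw [← Haff w k]
      exact (RA_mem (RA_cod k).2.2.1).2.2

end Pool.Agent.H3.FQ
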