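import Pool.Agent.H3.FQ.CH

/-!
# SUB: subchains

`v' i = v (s.orderEmbOfFin rfl ⟨i, _⟩)` for `i < |s|` (anything otherwise). `supp` for `v'` with the slopes of the selected indices.
-/

set_option autoImplicit false

namespace Pool.Agent.H3.FQ

open Classical

theorem SUB {q : ℕ} {v : ℕ → ℂ} (hv : Chain q v) (s : Finset ℕ) (hs : s ⊆ Finset.range q) :
    ∃ v' : ℕ → ℂ, Chain s.card v' ∧ dD s.card v' ⊆ dD q v ∧ (∀ i < s.card, ∃ j ∈ s, v' i = v j) ∧
      ∀ (O : ℂ) (r : ℝ), ((Finset.range s.card).filter (fun i => dist (v' i) O = r)).card ≤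
        ((Finset.range q).filter (fun i => dist (v i) O = r)).card := by
  obtain ⟨f, hfs, hfm⟩ : ∃ f : ℕ → ℕ, (∀ i < s.card, f i ∈ s) ∧ ∀ i j, i < j → j < s.card → f i < f j := by
    refine ⟨fun i => if h : i < s.card then s.orderEmbOfFin rfl ⟨i, h⟩ else 0, ?_, ?_⟩
    · intro i hi
      simp only [hi, dif_pos]
      exact Finset.orderEmbOfFin_mem s rfl _
    · intro i j hij hj
      have hi : i < s.card := hij.trans hj
      simp only [hi, hj, dif_pos]
      exact (s.orderEmbOfFin rfl).strictMono (by exact hij)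
  have hfq : ∀ i < s.card, f i < q := fun i hi => Finset.mem_range.1 (hs (hfs i hi))
  have hfne : ∀ i < s.card, ∀ j < s.card, j ≠ i → f j ≠ f i := by
    intro i hi j hj hne
    rcases lt_or_gt_of_ne hne with h | h
    · exact (hfm j i h hi).ne
    · exact (hfm i j h hj).ne'
  refine ⟨fun i => v (f i), ⟨?_, ?_⟩, ?_, ?_, ?_⟩
  · intro i j hij hj
    exact hv.mono _ _ (hfm i j hij hj) (hfq j hj)
  · obtain ⟨t, ht⟩ := hv.supp
    refine ⟨fun i => t (f i), fun i hi => ⟨(ht _ (hfq i hi)).1, fun j hj hne => ?_⟩⟩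
    exact (ht _ (hfq i hi)).2 _ (hfq j hj) (hfne i hi j hj hne)
  · intro d hd
    obtain ⟨⟨i, j⟩, hij, rfl⟩ := Finset.mem_image.1 hd
    obtain ⟨h1, h2⟩ := Finset.mem_filter.1 hij
    obtain ⟨h3, h4⟩ := Finset.mem_product.1 h1
    have h3' : i < s.card := Finset.mem_range.1 h3
    have h4' : j < s.card := Finset.mem_range.1 h4
    refine Finset.mem_image.2 ⟨(f i, f j), Finset.mem_filter.2 ⟨Finset.mem_product.2
      ⟨Finset.mem_range.2 (hfq i h3'), Finset.mem_range.2 (hfq j h4')⟩, hfm i j h2 h4'⟩, rfl⟩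
  · intro i hi
    exact ⟨f i, hfs i hi, rfl⟩
  · intro O r
    refine Finset.card_le_card_of_injOn f ?_ ?_
    · intro i hi
      have hi' := Finset.mem_filter.1 (Finset.mem_coe.1 hi)
      exact Finset.mem_coe.2 (Finset.mem_filter.2
        ⟨Finset.mem_range.2 (hfq i (Finset.mem_range.1 hi'.1)), hi'.2⟩)
    · intro i hi j hj hij
      have hi' := Finset.mem_range.1 (Finset.mem_filter.1 (Finset.mem_coe.1 hi)).1
      have hj' := Finset.mem_range.1 (Finset.mem_filter.1 (Finset.mem_coe.1 hj)).1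
      by_contra hne
      exact hfne j hj' i hi' hne hij

end Pool.Agent.H3.FQ
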