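import Pool.Agent.H3.FQ.MAINL
import Pool.Agent.H3.FQ.SUB
import Pool.Agent.H3.FQ.RB

/-!
# INV: chains with few distances have many points on a circle

`MAINL C`: `t, c1, q1`; `P = 2^30 C^5 t^2`, `C' = 2 P C`, `MAINL C'`: `t', c2, q2`, `P' = 2^30 C'^5 t'^2`. `q` large, `m = q / P` (floor), `1 ≤ m`, `m P ≤ q ≤ 2 P m`. If every conic contains fewer than `m` points: `RA` and `MAINL C`. Otherwise let
`s = {i < q : qd c (v i) = 0}`, `|s| ≥ m`, and `v'` the subchain (`SUB`), `q' = |s|`: `|dD q' v'| ≤ C q ≤ C 2 P m ≤ C' q'`, contained in the conic: `RB` with `G = 8 C' t'`: `RR q' v' G 5`; `5 P' ≤ m ≤ q'`, `q2 ≤ m` for large `q`. `MAINL C'` gives a circle with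
at least `c2 q' ≥ c2 q/(2 P)` points. `c = min c1 (c2/(2 P))`.
-/

set_option autoImplicit false

namespace Pool.Agent.H3.FQ

open Classical

theorem INV (C : ℕ) (hC : 1 ≤ C) : ∃ c : ℝ, 0 < c ∧ ∃ q0 : ℕ, ∀ (q : ℕ) (v : ℕ → ℂ), q0 ≤ q → Chain q v →
    (dD q v).card ≤ C * q →
      ∃ (O : ℂ) (r : ℝ), c * q ≤ (((Finset.range q).filter (fun i => dist (v i) O = r)).card : ℝ) := by
  obtain ⟨t, ht, c1, hc1, q1, h1⟩ := MAINL C hC
  obtain ⟨P, hP⟩ : ∃ P : ℕ, P = 2 ^ 30 * C ^ 5 * t ^ 2 := ⟨_, rfl⟩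
  have hP0 : 1 ≤ P := by
    rw [hP]
    exact Nat.one_le_iff_ne_zero.2 (by positivity)
  obtain ⟨C', hC'⟩ : ∃ C' : ℕ, C' = 2 * P * C := ⟨_, rfl⟩
  have hC'1 : 1 ≤ C' := by
    rw [hC']
    exact Nat.one_le_iff_ne_zero.2 (by positivity)
  obtain ⟨t', ht', c2, hc2, q2, h2⟩ := MAINL C' hC'1
  obtain ⟨P', hP'⟩ : ∃ P' : ℕ, P' = 2 ^ 30 * C' ^ 5 * t' ^ 2 := ⟨_, rfl⟩
  have hPr : (0 : ℝ) < P := by exact_mod_cast hP0
  refine ⟨min c1 (c2 / (2 * P)), lt_min hc1 (by positivity),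
    max q1 (P * (5 * P' + q2 + 1)), fun q v hq hv hD => ?_⟩
  have hq1 : q1 ≤ q := (le_max_left _ _).trans hq
  have hq2 : P * (5 * P' + q2 + 1) ≤ q := (le_max_right _ _).trans hq
  obtain ⟨m, hm⟩ : ∃ m : ℕ, m = q / P := ⟨_, rfl⟩
  have hm1 : 5 * P' + q2 + 1 ≤ m := by
    rw [hm, Nat.le_div_iff_mul_le (by omega), mul_comm]
    exact hq2
  have hm2 : m * P ≤ q := by
    rw [hm]
    exact Nat.div_mul_le_self q P
  have hm3 : q ≤ 2 * P * m := by
    have h3 : q < P * (q / P + 1) := Nat.lt_mul_div_succ q (by omega)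
    rw [← hm] at h3
    have h4 : P * (m + 1) ≤ 2 * P * m := by
      have h5 : P * 1 ≤ P * m := Nat.mul_le_mul_left P (by omega)
      calc P * (m + 1) = P * m + P * 1 := by ring
        _ ≤ P * m + P * m := Nat.add_le_add_left h5 _
        _ = 2 * P * m := by ring
    omega
  have hqr : (0 : ℝ) ≤ q := Nat.cast_nonneg _
  by_cases hcon : ∀ c : Fin 6 → ℝ, isConic c → ((Finset.range q).filter (fun i => qd c (v i) = 0)).card < m
  · obtain ⟨O, r, hO⟩ := h1 q v m hq1 hv hD (RA hv (8 * C * t) m hcon) (by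
      calc m * 2 ^ 30 * C ^ 5 * t ^ 2 = m * P := by rw [hP]; ring
        _ ≤ q := hm2)
    exact ⟨O, r, (mul_le_mul_of_nonneg_right (min_le_left _ _) hqr).trans hO⟩
  · push Not at hcon
    obtain ⟨c, hc, hcm⟩ := hcon
    obtain ⟨s, hs⟩ : ∃ s, s = (Finset.range q).filter (fun i => qd c (v i) = 0) := ⟨_, rfl⟩
    rw [← hs] at hcm
    obtain ⟨v', hv', hDD, hmem, hcirc⟩ := SUB hv s (by rw [hs]; exact Finset.filter_subset _ _)
    have hz : ∀ i < s.card, qd c (v' i) = 0 := by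
      intro i hi
      obtain ⟨j, hj, hij⟩ := hmem i hi
      rw [hs, Finset.mem_filter] at hj
      rw [hij]
      exact hj.2
    have hD' : (dD s.card v').card ≤ C' * s.card := by
      calc (dD s.card v').card ≤ (dD q v).card := Finset.card_le_card hDD
        _ ≤ C * q := hD
        _ ≤ C * (2 * P * m) := Nat.mul_le_mul_left _ hm3
        _ = C' * m := by rw [hC']; ring
        _ ≤ C' * s.card := Nat.mul_le_mul_left _ hcm
    obtain ⟨O, r, hO⟩ := h2 s.card v' 5 (by omega) hv' hD' (RB hv' (8 * C' * t') c hc hz) (by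
      calc 5 * 2 ^ 30 * C' ^ 5 * t' ^ 2 = 5 * P' := by rw [hP']; ring
        _ ≤ s.card := by omega)
    refine ⟨O, r, ?_⟩
    have e1 : min c1 (c2 / (2 * P)) * q ≤ c2 / (2 * P) * q :=
      mul_le_mul_of_nonneg_right (min_le_right _ _) hqr
    have e2 : (q : ℝ) ≤ 2 * P * m := by exact_mod_cast hm3
    have e3 : c2 / (2 * P) * q ≤ c2 * m := by
      calc c2 / (2 * P) * q ≤ c2 / (2 * P) * (2 * P * m) :=
            mul_le_mul_of_nonneg_left e2 (by positivity)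
        _ = c2 * m := by field_simp
    have e4 : c2 * (m : ℝ) ≤ c2 * (s.card : ℝ) :=
      mul_le_mul_of_nonneg_left (by exact_mod_cast hcm) hc2.le
    have e5 : (((Finset.range s.card).filter (fun i => dist (v' i) O = r)).card : ℝ) ≤
        (((Finset.range q).filter (fun i => dist (v i) O = r)).card : ℝ) := by
      exact_mod_cast hcirc O r
    linarith

end Pool.Agent.H3.FQ
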