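import Pool.Agent.H3.FQ.Defs
import Pool.Agent.H3.LC.KLc

/-!
# LAWC, DUP, KEYC: distances between two windows

`onc v O Θ r α W`: the points `v j`, `j ∈ W`, are at distance `r` from `O` with arguments in `α + Θ` (seen from `O`). `dst v W W'`: the distances between `W` and `W'`.
`LAWC`: law of cosines: `dist x y ^ 2 = ‖a‖^2 + ‖b‖^2 - 2 ‖a‖ ‖b‖ cos (arg b - arg a)`, `a = x - O`, `b = y - O` (`Real.Angle.cos`; `Complex.norm_mul_cos_arg`, `norm_mul_sin_arg`; true also if `a = 0` or `b = 0`).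
`DUP`: for `j ∈ W`, `l ∈ W'` with angles `α + θ`, `α' + θ'`: `dist^2 = r^2 + r'^2 - 2 r r' cos (θ' - θ + (α' - α))` depends only on `θ' - θ ∈ Θ - Θ`.
`KEYC`: `S = Θ - Θ`. For `d ∈ dst v W1 W2 ∩ dst v W3 W4` choose `x ∈ S` (from `W1, W2`) and `y ∈ S` (from `W3, W4`): `r1^2 + r2^2 - 2 r1 r2 cos (x + α2 - α1) = d^2 = r3^2 + r4^2 - 2 r3 r4 cos (y + α4 - α3)`, i.e.
`cos (y - (α3 - α4)) = a + b cos (x - (α1 - α2))`, `b = r1 r2/(r3 r4) ≠ 0`, `a = (r3^2 + r4^2 - r1^2 - r2^2)/(2 r3 r4)`; `a = 0` and `b^2 = 1` would give `r1 r2 = r3 r4`, `r1^2 + r2^2 = r3^2 + r4^2`, so `{r1, r2} = {r3, r4}`. `d ≥ 0` is determined by `x`: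
the intersection has at most as many elements as the filtered set of `LC.KLc` with `V = W = S`.
-/

set_option autoImplicit false

namespace Pool.Agent.H3.FQ

open scoped Pointwise
open Classical

def onc (v : ℕ → ℂ) (O : ℂ) (Θ : Finset Real.Angle) (r : ℝ) (α : Real.Angle) (W : Finset ℕ) : Prop :=
  ∀ j ∈ W, dist (v j) O = r ∧ ∃ θ ∈ Θ, ((v j - O).arg : Real.Angle) = α + θ

noncomputable def dst (v : ℕ → ℂ) (W W' : Finset ℕ) : Finset ℝ := (W ×ˢ W').image (fun p => dist (v p.1) (v p.2))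

theorem LAWC (O x y : ℂ) : dist x y ^ 2 = dist x O ^ 2 + dist y O ^ 2 -
    2 * dist x O * dist y O * (((y - O).arg : Real.Angle) - ((x - O).arg : Real.Angle)).cos := by
  have h1 := Complex.norm_mul_cos_arg (x - O)
  have h2 := Complex.norm_mul_sin_arg (x - O)
  have h3 := Complex.norm_mul_cos_arg (y - O)
  have h4 := Complex.norm_mul_sin_arg (y - O)
  have e1 : ‖x - y‖ ^ 2 = (x.re - y.re) ^ 2 + (x.im - y.im) ^ 2 := by
    rw [Complex.sq_norm, Complex.normSq_apply, Complex.sub_re, Complex.sub_im]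
    ring
  have e2 : ‖x - O‖ ^ 2 = (x.re - O.re) ^ 2 + (x.im - O.im) ^ 2 := by
    rw [Complex.sq_norm, Complex.normSq_apply, Complex.sub_re, Complex.sub_im]
    ring
  have e3 : ‖y - O‖ ^ 2 = (y.re - O.re) ^ 2 + (y.im - O.im) ^ 2 := by
    rw [Complex.sq_norm, Complex.normSq_apply, Complex.sub_re, Complex.sub_im]
    ring
  rw [Complex.sub_re] at h1 h3
  rw [Complex.sub_im] at h2 h4
  rw [← Real.Angle.coe_sub, Real.Angle.cos_coe, Real.cos_sub, Complex.dist_eq, Complex.dist_eq, Complex.dist_eq,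
    e1, e2, e3]
  have e4 : 2 * ‖x - O‖ * ‖y - O‖ * (Real.cos (y - O).arg * Real.cos (x - O).arg +
      Real.sin (y - O).arg * Real.sin (x - O).arg) =
      2 * ((‖x - O‖ * Real.cos (x - O).arg) * (‖y - O‖ * Real.cos (y - O).arg) +
        (‖x - O‖ * Real.sin (x - O).arg) * (‖y - O‖ * Real.sin (y - O).arg)) := by ring
  rw [e4, h1, h2, h3, h4]
  ring

private theorem LAWC_key (v : ℕ → ℂ) (O : ℂ) (Θ : Finset Real.Angle) (r r' : ℝ) (α α' : Real.Angle)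
    (W W' : Finset ℕ) (h : onc v O Θ r α W) (h' : onc v O Θ r' α' W') {d : ℝ} (hd : d ∈ dst v W W') :
    0 ≤ d ∧ ∃ s ∈ Θ - Θ, d ^ 2 = r ^ 2 + r' ^ 2 - 2 * r * r' * (s - (α - α')).cos := by
  obtain ⟨⟨j, l⟩, hjl, rfl⟩ := Finset.mem_image.1 hd
  obtain ⟨hj, hl⟩ := Finset.mem_product.1 hjl
  obtain ⟨h1, θ, hθ, h2⟩ := h j hj
  obtain ⟨h3, θ', hθ', h4⟩ := h' l hl
  refine ⟨dist_nonneg, θ' - θ, Finset.sub_mem_sub hθ' hθ, ?_⟩
  have h5 := LAWC O (v j) (v l)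
  rw [h1, h2, h3, h4] at h5
  rw [h5]
  have e : α' + θ' - (α + θ) = θ' - θ - (α - α') := by abel
  rw [e]

theorem DUP (v : ℕ → ℂ) (O : ℂ) (Θ : Finset Real.Angle) (r r' : ℝ) (α α' : Real.Angle) (W W' : Finset ℕ)
    (h : onc v O Θ r α W) (h' : onc v O Θ r' α' W') : (dst v W W').card ≤ (Θ - Θ).card := by
  refine (Finset.card_le_card (t := (Θ - Θ).image
    (fun s => Real.sqrt (r ^ 2 + r' ^ 2 - 2 * r * r' * (s - (α - α')).cos))) ?_).trans Finset.card_image_le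
  intro d hd
  obtain ⟨h0, s, hs, h1⟩ := LAWC_key v O Θ r r' α α' W W' h h' hd
  refine Finset.mem_image.2 ⟨s, hs, ?_⟩
  simp only [← h1]
  exact Real.sqrt_sq h0

theorem KEYC (v : ℕ → ℂ) (O : ℂ) (Θ : Finset Real.Angle) (r1 r2 r3 r4 : ℝ) (α1 α2 α3 α4 : Real.Angle)
    (W1 W2 W3 W4 : Finset ℕ) (h1 : onc v O Θ r1 α1 W1) (h2 : onc v O Θ r2 α2 W2) (h3 : onc v O Θ r3 α3 W3)
    (h4 : onc v O Θ r4 α4 W4) (p1 : 0 < r1) (p2 : 0 < r2) (p3 : 0 < r3) (p4 : 0 < r4)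
    (hne : ¬ ((r1 = r3 ∧ r2 = r4) ∨ (r1 = r4 ∧ r2 = r3))) :
    (dst v W1 W2 ∩ dst v W3 W4).card ^ 4 ≤ 4477456 * ((Θ - Θ) + (Θ - Θ) - (Θ - Θ)).card ^ 3 := by
  have p34 : 0 < 2 * r3 * r4 := by positivity
  have hb : r1 * r2 / (r3 * r4) ≠ 0 := by positivity
  have hab : ¬ ((r3 ^ 2 + r4 ^ 2 - r1 ^ 2 - r2 ^ 2) / (2 * r3 * r4) = 0 ∧ (r1 * r2 / (r3 * r4)) ^ 2 = 1) := by
    rintro ⟨ha, hb2⟩
    have e1 : r3 ^ 2 + r4 ^ 2 - r1 ^ 2 - r2 ^ 2 = 0 := by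
      rcases div_eq_zero_iff.1 ha with h | h
      · exact h
      · exact absurd h p34.ne'
    have hb0 : 0 ≤ r1 * r2 / (r3 * r4) := by positivity
    have hb1 : r1 * r2 / (r3 * r4) = 1 := by
      rcases (sq_eq_one_iff.1 hb2) with h | h
      · exact h
      · exfalso
        rw [h] at hb0
        norm_num at hb0
    have e2 : r1 * r2 = r3 * r4 := by
      rw [div_eq_one_iff_eq (by positivity)] at hb1
      exact hb1
    have e3 : (r1 + r2 - (r3 + r4)) * (r1 + r2 + (r3 + r4)) = 0 := by nlinarith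
    have e4 : r1 + r2 = r3 + r4 := by
      rcases mul_eq_zero.1 e3 with h | h
      · linarith
      · exfalso
        linarith
    have e5 : (r1 - r3) * (r1 - r4) = 0 := by
      have e6 : r2 = r3 + r4 - r1 := by linarith
      rw [e6] at e2
      linear_combination -e2
    rcases mul_eq_zero.1 e5 with h | h
    · exact hne (Or.inl ⟨by linarith, by linarith⟩)
    · exact hne (Or.inr ⟨by linarith, by linarith⟩)
  have key := LC.KLc ((r3 ^ 2 + r4 ^ 2 - r1 ^ 2 - r2 ^ 2) / (2 * r3 * r4)) (r1 * r2 / (r3 * r4)) hb hab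
    (α1 - α2) (α3 - α4) (Θ - Θ) (Θ - Θ)
  have hcard : (dst v W1 W2 ∩ dst v W3 W4).card ≤ ((Θ - Θ).filter (fun x => ∃ y ∈ Θ - Θ,
      (y - (α3 - α4)).cos = (r3 ^ 2 + r4 ^ 2 - r1 ^ 2 - r2 ^ 2) / (2 * r3 * r4) +
        r1 * r2 / (r3 * r4) * (x - (α1 - α2)).cos)).card := by
    refine (Finset.card_le_card (t := (Finset.filter (fun x => ∃ y ∈ Θ - Θ,
      (y - (α3 - α4)).cos = (r3 ^ 2 + r4 ^ 2 - r1 ^ 2 - r2 ^ 2) / (2 * r3 * r4) +
        r1 * r2 / (r3 * r4) * (x - (α1 - α2)).cos) (Θ - Θ)).image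
      (fun s => Real.sqrt (r1 ^ 2 + r2 ^ 2 - 2 * r1 * r2 * (s - (α1 - α2)).cos))) ?_).trans
      Finset.card_image_le
    intro d hd
    obtain ⟨hd1, hd2⟩ := Finset.mem_inter.1 hd
    obtain ⟨h0, x, hx, e1⟩ := LAWC_key v O Θ r1 r2 α1 α2 W1 W2 h1 h2 hd1
    obtain ⟨-, y, hy, e2⟩ := LAWC_key v O Θ r3 r4 α3 α4 W3 W4 h3 h4 hd2
    refine Finset.mem_image.2 ⟨x, Finset.mem_filter.2 ⟨hx, y, hy, ?_⟩, ?_⟩
    · have p3' := p3.ne'
      have p4' := p4.ne'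
      field_simp
      linarith
    · simp only [← e1]
      exact Real.sqrt_sq h0
  calc (dst v W1 W2 ∩ dst v W3 W4).card ^ 4 ≤ _ := Nat.pow_le_pow_left hcard 4
    _ ≤ _ := key
    _ = _ := by ring

end Pool.Agent.H3.FQ
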