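import Pool.Agent.H3.FQ.ST7

/-!
# MAINL: rigid chains have many points on a circle

`FAM C`: `ρ, c, K, t0`; `ST7 C ρ c K`: `c', G0`; `t = max t0 (max G0 1)`, `8 C t ≥ G0`; `q0` = maximum of the two `q0`.
-/

set_option autoImplicit false

namespace Pool.Agent.H3.FQ

open Classical

theorem MAINL (C : ℕ) (hC : 1 ≤ C) : ∃ t : ℕ, 1 ≤ t ∧ ∃ c : ℝ, 0 < c ∧ ∃ q0 : ℕ, ∀ (q : ℕ) (v : ℕ → ℂ) (m : ℕ), q0 ≤ q → Chain q v →
    (dD q v).card ≤ C * q → RR q v (8 * C * t) m → m * 2 ^ 30 * C ^ 5 * t ^ 2 ≤ q →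
      ∃ (O : ℂ) (r : ℝ), c * q ≤ (((Finset.range q).filter (fun i => dist (v i) O = r)).card : ℝ) := by
  obtain ⟨ρ, c, K, hρ, hc, hK, t0, ht0, hF⟩ := FAM C hC
  obtain ⟨c', hc', G0, hG⟩ := ST7 C hC ρ c K hρ hc hK
  have ht1 : t0 ≤ max t0 (max G0 1) := le_max_left _ _
  have ht2 : G0 ≤ max t0 (max G0 1) := (le_max_left _ _).trans (le_max_right _ _)
  have ht3 : 1 ≤ max t0 (max G0 1) := (le_max_right _ _).trans (le_max_right _ _)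
  obtain ⟨t, ht⟩ : ∃ t : ℕ, t = max t0 (max G0 1) := ⟨_, rfl⟩
  rw [← ht] at ht1 ht2 ht3
  have hGt : G0 ≤ 8 * C * t := by
    have h1 : 1 * t ≤ 8 * C * t := Nat.mul_le_mul_right t (by omega)
    rw [one_mul] at h1
    exact ht2.trans h1
  obtain ⟨q1, hq1⟩ := hF t ht1
  obtain ⟨q2, hq2⟩ := hG (8 * C * t) hGt
  refine ⟨t, ht3, c', hc', max q1 q2, ?_⟩
  intro q v m hq hv hD hR hm
  exact hq2 q v ((le_max_right _ _).trans hq) hv hD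
    (hq1 q v m ((le_max_left _ _).trans hq) hv hD hR hm)

end Pool.Agent.H3.FQ
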