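import Pool.Agent.H3.FQ.CH

/-!
# PC: isometries and pairs

`act_ext`: `g.1 x + g.2 = h.1 x + h.2` and the same for `y`: subtract, `(g.1 - h.1) (x - y) = 0`.
`act_dist`: `‖g.1‖ = 1`. `act_quo`: `act (quo g h) (act h z) = act g z` if `h.1 ≠ 0`.
`PC`: pairs `(u1, u2)` of elements of `Vs q G`, `u1.1 < u2.1`, `u1.2 < u2.2`, with `dist (v u1.1) (v u2.1) = dist (v u1.2) (v u2.2)`: `(u1, u2) ↦ (u1.1, u2.1, u1.2 - u1.1)` is injective into
`range q ×ˢ range q ×ˢ Icc 1 G` (`u2.2` is determined by `u1.2` and the distance, by `mon1`).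
`PCs`: `(g, i, k)` with `g ∈ S`, `i, k ∈ dom2 q v G g`, `i + 2 G < k` are at most `q^2 (2 G + 1)`: map `(g, i, k) ↦ (i, k, i' + G - i)` where `v i' = act g (v i)`, `i ≤ i' + G`, `i' ≤ i + G`. Injective: `k' ≥ k - G > i + G ≥ i'`, and
`dist (v i') (v k') = dist (v i) (v k)` determines `k'` (`mon1`), then `act_ext` at `v i ≠ v k` determines `g`. (State the set as a filter of `S ×ˢ range q ×ˢ range q`.)
-/

set_option autoImplicit false

namespace Pool.Agent.H3.FQ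

open Classical

theorem act_ext {g h : ℂ × ℂ} {x y : ℂ} (hxy : x ≠ y) (h1 : act g x = act h x) (h2 : act g y = act h y) : g = h := by
  unfold act at h1 h2
  have h3 : (g.1 - h.1) * (x - y) = 0 := by linear_combination h1 - h2
  have h4 : g.1 = h.1 := sub_eq_zero.1 ((mul_eq_zero.1 h3).resolve_right (sub_ne_zero.2 hxy))
  have h5 : g.2 = h.2 := by
    rw [h4] at h1
    exact add_left_cancel h1
  exact Prod.ext h4 h5

theorem act_dist {g : ℂ × ℂ} (hg : ‖g.1‖ = 1) (x y : ℂ) : dist (act g x) (act g y) = dist x y := by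
  unfold act
  rw [dist_eq_norm, dist_eq_norm]
  have h : g.1 * x + g.2 - (g.1 * y + g.2) = g.1 * (x - y) := by ring
  rw [h, norm_mul, hg, one_mul]

theorem act_quo {g h : ℂ × ℂ} (hh : h.1 ≠ 0) (z : ℂ) : act (quo g h) (act h z) = act g z := by
  unfold act quo
  field_simp
  ring

private theorem PC_mon {q : ℕ} {v : ℕ → ℂ} (hv : Chain q v) {i j k : ℕ} (hj : i < j) (hk : i < k)
    (hjq : j < q) (hkq : k < q) (h : dist (v i) (v j) = dist (v i) (v k)) : j = k := by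
  rcases lt_trichotomy j k with h1 | h1 | h1
  · exact absurd h (mon1 hv hj h1 hkq).ne
  · exact h1
  · exact absurd h.symm (mon1 hv hk h1 hjq).ne

theorem PC {q : ℕ} {v : ℕ → ℂ} (hv : Chain q v) (G : ℕ) :
    ((Vs q G ×ˢ Vs q G).filter (fun p => p.1.1 < p.2.1 ∧ p.1.2 < p.2.2 ∧
      dist (v p.1.1) (v p.2.1) = dist (v p.1.2) (v p.2.2))).card ≤ q ^ 2 * G := by
  have hcard : (Finset.range q ×ˢ Finset.range q ×ˢ Finset.Icc 1 G).card = q ^ 2 * G := by
    rw [Finset.card_product, Finset.card_product, Finset.card_range, Nat.card_Icc]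
    simp only [Nat.add_sub_cancel]
    ring
  rw [← hcard]
  refine Finset.card_le_card_of_injOn (fun p => (p.1.1, p.2.1, p.1.2 - p.1.1)) ?_ ?_
  · rintro ⟨⟨i, i'⟩, ⟨k, k'⟩⟩ hp
    simp only [Finset.coe_filter, Finset.mem_product, Set.mem_setOf_eq, Vs, Finset.mem_filter,
      Finset.mem_range] at hp
    simp only [Finset.coe_product, Set.mem_prod, Finset.mem_coe, Finset.mem_range, Finset.mem_Icc]
    omega
  · rintro ⟨⟨i, i'⟩, ⟨k, k'⟩⟩ hp ⟨⟨j, j'⟩, ⟨l, l'⟩⟩ hp' heq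
    simp only [Finset.coe_filter, Finset.mem_product, Set.mem_setOf_eq, Vs, Finset.mem_filter,
      Finset.mem_range] at hp hp'
    simp only [Prod.mk.injEq] at heq
    obtain ⟨e1, e2, e3⟩ := heq
    subst e1 e2
    have e4 : i' = j' := by omega
    subst e4
    have e5 : k' = l' := PC_mon hv hp.2.2.1 hp'.2.2.1 hp.1.2.1.2 hp'.1.2.1.2
      (hp.2.2.2.symm.trans hp'.2.2.2)
    rw [e5]

theorem PCs {q : ℕ} {v : ℕ → ℂ} (hv : Chain q v) (G : ℕ) (S : Finset (ℂ × ℂ)) (hS : ∀ g ∈ S, ‖g.1‖ = 1) :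
    ((S ×ˢ Finset.range q ×ˢ Finset.range q).filter (fun p => p.2.1 ∈ dom2 q v G p.1 ∧ p.2.2 ∈ dom2 q v G p.1 ∧
      p.2.1 + 2 * G < p.2.2)).card ≤ q ^ 2 * (2 * G + 1) := by
  have hcard : (Finset.range q ×ˢ Finset.range q ×ˢ Finset.range (2 * G + 1)).card = q ^ 2 * (2 * G + 1) := by
    rw [Finset.card_product, Finset.card_product, Finset.card_range, Finset.card_range]
    ring
  rw [← hcard]
  obtain ⟨J, hJ⟩ : ∃ J : (ℂ × ℂ) → ℕ → ℕ, ∀ g i, i ∈ dom2 q v G g →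
      i ≤ J g i + G ∧ J g i ≤ i + G ∧ J g i < q ∧ v (J g i) = act g (v i) := by
    have h1 : ∀ g : ℂ × ℂ, ∀ i : ℕ, ∃ j : ℕ, i ∈ dom2 q v G g →
        i ≤ j + G ∧ j ≤ i + G ∧ j < q ∧ v j = act g (v i) := by
      intro g i
      by_cases hi : i ∈ dom2 q v G g
      · obtain ⟨j, hj⟩ := (Finset.mem_filter.1 hi).2
        exact ⟨j, fun _ => hj⟩
      · exact ⟨0, fun h => absurd h hi⟩
    choose J hJ using h1
    exact ⟨J, hJ⟩
  refine Finset.card_le_card_of_injOn (fun p => (p.2.1, p.2.2, J p.1 p.2.1 + G - p.2.1)) ?_ ?_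
  · rintro ⟨g, i, k⟩ hp
    simp only [Finset.coe_filter, Finset.mem_product, Set.mem_setOf_eq, Finset.mem_range] at hp
    obtain ⟨⟨hg, hi, hk⟩, hd1, hd2, hlt⟩ := hp
    have h1 := hJ g i hd1
    simp only [Finset.coe_product, Set.mem_prod, Finset.mem_coe, Finset.mem_range]
    omega
  · rintro ⟨g, i, k⟩ hp ⟨h, i1, k1⟩ hp' heq
    simp only [Finset.coe_filter, Finset.mem_product, Set.mem_setOf_eq, Finset.mem_range] at hp hp'
    simp only [Prod.mk.injEq] at heq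
    obtain ⟨e1, e2, e3⟩ := heq
    subst e1 e2
    obtain ⟨⟨hg, hi, hk⟩, hd1, hd2, hlt⟩ := hp
    obtain ⟨⟨hg', -, -⟩, hd1', hd2', -⟩ := hp'
    obtain ⟨a1, a2, a3, a4⟩ := hJ g i hd1
    obtain ⟨b1, b2, b3, b4⟩ := hJ g k hd2
    obtain ⟨c1, c2, c3, c4⟩ := hJ h i hd1'
    obtain ⟨d1, d2, d3, d4⟩ := hJ h k hd2'
    have e4 : J g i = J h i := by omega
    have e5 : J g k = J h k := by
      refine PC_mon hv (i := J g i) (by omega) (by omega) b3 d3 ?_
      have f1 : dist (v (J g i)) (v (J g k)) = dist (v i) (v k) := by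
        rw [a4, b4, act_dist (hS g hg)]
      have f2 : dist (v (J h i)) (v (J h k)) = dist (v i) (v k) := by
        rw [c4, d4, act_dist (hS h hg')]
      rw [f1, e4, f2]
    have hne : v i ≠ v k := fun e => by
      have := Chain_inj hv hi hk e
      omega
    have e6 : g = h := act_ext hne (by rw [← a4, ← c4, e4]) (by rw [← b4, ← d4, e5])
    rw [e6]

end Pool.Agent.H3.FQ
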