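import Mathlib

/-!
# PICK: elements with gaps

`B = ⌈|P| / G⌉`, `p b` = element number `b G` of `P` in increasing order (`Finset.orderEmbOfFin`; `b G < |P|` for `b < B`). Elements whose positions differ by at least `G` differ by at least `G`.
-/

set_option autoImplicit false

namespace Pool.Agent.H3.FQ

theorem PICK_gap (P : Finset ℕ) (k : ℕ) : ∀ i (hi : i < P.card) (hik : i + k < P.card),
    P.orderEmbOfFin rfl ⟨i, hi⟩ + k ≤ P.orderEmbOfFin rfl ⟨i + k, hik⟩ := by
  induction k with
  | zero => intro i hi hik; exact le_refl _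
  | succ k ih =>
    intro i hi hik
    have h1 := ih i hi (by omega)
    have h2 : P.orderEmbOfFin rfl ⟨i + k, by omega⟩ < P.orderEmbOfFin rfl ⟨i + (k + 1), hik⟩ := by
      apply (P.orderEmbOfFin rfl).strictMono
      rw [Fin.mk_lt_mk]
      omega
    omega

theorem PICK (G : ℕ) (hG : 1 ≤ G) (P : Finset ℕ) : ∃ (B : ℕ) (p : ℕ → ℕ), P.card ≤ B * G ∧ (∀ b < B, p b ∈ P) ∧
    ∀ b b', b < b' → b' < B → p b + G ≤ p b' := by
  have hB : ∀ b < (P.card + G - 1) / G, b * G < P.card := by
    intro b hb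
    have h1 : (b + 1) * G ≤ (P.card + G - 1) / G * G := Nat.mul_le_mul_right _ hb
    have h2 := Nat.div_mul_le_self (P.card + G - 1) G
    rw [Nat.add_mul, Nat.one_mul] at h1
    omega
  refine ⟨(P.card + G - 1) / G, fun b => if h : b * G < P.card then P.orderEmbOfFin rfl ⟨b * G, h⟩ else 0, ?_, ?_, ?_⟩
  · have h1 := Nat.div_add_mod (P.card + G - 1) G
    have h2 := Nat.mod_lt (P.card + G - 1) hG
    rw [Nat.mul_comm] at h1
    omega
  · intro b hb
    simp only [dif_pos (hB b hb)]
    exact Finset.orderEmbOfFin_mem P rfl _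
  · intro b b' hbb' hb'
    have h1 := hB b' hb'
    have h2 := hB b (hbb'.trans hb')
    have h3 : b * G + G ≤ b' * G := by
      calc b * G + G = (b + 1) * G := by ring
        _ ≤ b' * G := Nat.mul_le_mul_right _ hbb'
    simp only [dif_pos h1, dif_pos h2]
    have h4 := PICK_gap P G (b * G) h2 (by omega)
    refine h4.trans ((P.orderEmbOfFin rfl).monotone ?_)
    rw [Fin.mk_le_mk]
    exact h3

end Pool.Agent.H3.FQ
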