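import Pool.Agent.H71.PIG

/-!
# PIG: the counting lemma of section 7

`|D| ≤ C1 B G`, `E i j ⊆ D` for `i < j < B`, `a G ≤ |E i j| ≤ b G`. (i) Antidiagonals `i + j = s` (fewer than `2 B` values `s`): the intervals `[lo i j, hi i j] ⊆ [0, |D|]` have disjoint interiors (`hi (i+1) j ≤ lo i (j+1)`), so
`∑_{i<j} (hi - lo) ≤ 2 B |D| ≤ 2 C1 B^2 G`. Good pair: `hi - lo ≤ K G`, `K = ⌈16 C1⌉ + 1`: the bad ones number at most `B^2/8`, the good ones at least `B (B-1)/2 - B^2/8 ≥ B^2/4` (`B ≥ 4`).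
(ii) Given a good `(i, j)` and `k`: at most `2 K + 1` values `l` such that `(k, l)` is good and `E i j ∩ E k l ≠ ∅`: then `lo i j ≤ hi k l` and `lo k l ≤ hi i j ≤ lo i j + K G`, so `hi k l ≤ lo k l + K G ≤ lo i j + 2 K G`, and the `hi k l` differ by
at least `G` for different `l`. Same with `k`, `l` exchanged is not needed.
(iii) `w_d` = number of good `(i, j)` with `d ∈ E i j`: `∑ w_d ≥ a G B^2/4`, `∑ w_d^2 ≥ a^2 G^2 B^4/(16 |D|) ≥ c6 B^3 G`, `c6 = a^2/(16 C1)`. Also `∑ w_d^2 = ∑_{good (i,j), (k,l)} |E i j ∩ E k l|`. Pairs with different radii contribute at most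
`ε G (2K+1) B^3`, `ε = c6/(2 (2K+1))`: at most half. The others: each at most `b G`, so at least `c6 B^3/(2 b)` of them. If `r i = r k`: given `(i, k)`, `j` (`≤ B`), `l` (`≤ 2K+1`); if `r i = r l` and `r j = r k`: given `(j, k)`, then `i`, then `l`.
So with `Q = #{(i, k) : r i = r k}`: `2 (2K+1) B Q ≥ c6 B^3/(2 b)`, `Q ≥ δ B^2`, `δ = c6/(4 b (2K+1))`, and some value `r0` is taken `≥ Q/B ≥ δ B` times.
-/

set_option autoImplicit false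

namespace Pool.Agent.H3.FQ

open Classical

theorem PIG (C1 a b : ℝ) (hC1 : 0 < C1) (ha : 0 < a) (hb : 0 < b) : ∃ ε δ : ℝ, 0 < ε ∧ 0 < δ ∧
    ∀ (B G : ℕ) (D : Finset ℝ) (E : ℕ → ℕ → Finset ℝ) (lo hi : ℕ → ℕ → ℕ) (r : ℕ → ℝ), 4 ≤ B → 1 ≤ G →
      (D.card : ℝ) ≤ C1 * B * G →
      (∀ i j, i < j → j < B → E i j ⊆ D ∧ a * G ≤ ((E i j).card : ℝ) ∧ ((E i j).card : ℝ) ≤ b * G ∧ lo i j ≤ hi i j ∧ hi i j ≤ D.card) →
      (∀ i j, i + 1 < j → j + 1 < B → hi (i + 1) j ≤ lo i (j + 1)) →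
      (∀ i j, i < j → j + 1 < B → hi i j + G ≤ hi i (j + 1)) →
      (∀ i j k l, i < j → j < B → k < l → l < B → ((E i j) ∩ (E k l)).Nonempty → lo i j ≤ hi k l) →
      (∀ i j k l, i < j → j < B → k < l → l < B → ¬ ((r i = r k ∧ r j = r l) ∨ (r i = r l ∧ r j = r k)) →
        (((E i j) ∩ (E k l)).card : ℝ) ≤ ε * G) →
      ∃ r0 : ℝ, δ * B ≤ (((Finset.range B).filter (fun i => r i = r0)).card : ℝ) := by
  obtain ⟨ε, δ, hε, hδ, h⟩ := Pool.Agent.H71.PIG.PIG C1 a b hC1 ha hb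
  refine ⟨ε, δ, hε, hδ, ?_⟩
  intro B G D E lo hi r hB hG hD h1 h2 h3 h4 h5
  exact h B G hB hG D E lo hi r hD (fun i j hij hj => ⟨(h1 i j hij hj).1, (h1 i j hij hj).2.1, (h1 i j hij hj).2.2.1⟩)
    (fun i j hij hj => (h1 i j hij hj).2.2.2) h2 h3 h4 h5

end Pool.Agent.H3.FQ
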