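import Pool.Agent.H3.FQ.POPa

/-!
# POP: many popular isometries

`G = 8 C t`. `TR3`: `S3 = ∑ |trip|`, `t q^4 ≤ 2^20 C^2 S3`. `POPa` with `s` = the largest natural number with `2^25 C^3 s^2 ≤ q^2` (so `s < |dom|` gives `q^2 ≤ 2^25 C^3 |dom|^2`). Then
`2^20 C^2 m (q G)^3 = 2^29 C^5 t^3 m q^3 ≤ t q^4 / 2` (hypothesis `m 2^30 C^5 t^2 ≤ q`), `2^20 C^2 q^2 G s^2 ≤ 2^20 C^2 q^2 8 C t q^2 / (2^25 C^3) = t q^4 / 4`, so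
`2^20 C^2 |Psi| q^4 ≥ t q^4 / 4`: `t ≤ 2^22 C^2 |Psi|`, `G = 8 C t ≤ 2^25 C^3 |Psi|`.
-/

set_option autoImplicit false

namespace Pool.Agent.H3.FQ

open Classical

private theorem POP_sqrt (K q : ℕ) (hK : 0 < K) : ∃ s : ℕ, K * s ^ 2 ≤ q ^ 2 ∧ q ^ 2 < K * (s + 1) ^ 2 := by
  refine ⟨Nat.sqrt (q ^ 2 / K), ?_, ?_⟩
  · have h := Nat.sqrt_le' (q ^ 2 / K)
    calc K * Nat.sqrt (q ^ 2 / K) ^ 2 ≤ K * (q ^ 2 / K) := Nat.mul_le_mul_left _ h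
      _ ≤ q ^ 2 := Nat.mul_div_le _ _
  · have h := Nat.lt_succ_sqrt' (q ^ 2 / K)
    have h2 := (Nat.div_lt_iff_lt_mul hK).1 h
    rw [mul_comm]
    exact h2

private theorem POP_arith (C t q m s P S : ℕ) (hq : 1 ≤ q) (h3 : t * q ^ 4 ≤ 2 ^ 20 * C ^ 2 * S)
    (hS : S ≤ m * (q * (8 * C * t)) ^ 3 + q ^ 2 * (8 * C * t) * s ^ 2 + P * q ^ 4)
    (hm : m * 2 ^ 30 * C ^ 5 * t ^ 2 ≤ q) (hs : 2 ^ 25 * C ^ 3 * s ^ 2 ≤ q ^ 2) :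
    8 * C * t ≤ 2 ^ 25 * C ^ 3 * P := by
  have h4 : t * q ^ 4 ≤ 2 ^ 20 * C ^ 2 * (m * (q * (8 * C * t)) ^ 3 + q ^ 2 * (8 * C * t) * s ^ 2 + P * q ^ 4) :=
    h3.trans (Nat.mul_le_mul_left _ hS)
  have h5 : m * 2 ^ 30 * C ^ 5 * t ^ 2 * (t * q ^ 3) ≤ q * (t * q ^ 3) := Nat.mul_le_mul_right _ hm
  have h6 : 2 ^ 25 * C ^ 3 * s ^ 2 * (t * q ^ 2) ≤ q ^ 2 * (t * q ^ 2) := Nat.mul_le_mul_right _ hs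
  have h7 : t * q ^ 4 ≤ (2 ^ 22 * C ^ 2 * P) * q ^ 4 := by
    have e1 : 4 * (2 ^ 20 * C ^ 2 * (m * (q * (8 * C * t)) ^ 3 + q ^ 2 * (8 * C * t) * s ^ 2 + P * q ^ 4)) =
        2 * (m * 2 ^ 30 * C ^ 5 * t ^ 2 * (t * q ^ 3)) + 2 ^ 25 * C ^ 3 * s ^ 2 * (t * q ^ 2) +
          (2 ^ 22 * C ^ 2 * P) * q ^ 4 := by ring
    have e2 : q * (t * q ^ 3) = t * q ^ 4 := by ring
    have e3 : q ^ 2 * (t * q ^ 2) = t * q ^ 4 := by ring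
    rw [e2] at h5
    rw [e3] at h6
    have h8 := Nat.mul_le_mul_left 4 h4
    rw [e1] at h8
    linarith
  have h8 : t ≤ 2 ^ 22 * C ^ 2 * P := Nat.le_of_mul_le_mul_right h7 (by positivity)
  calc 8 * C * t ≤ 8 * C * (2 ^ 22 * C ^ 2 * P) := Nat.mul_le_mul_left _ h8
    _ = 2 ^ 25 * C ^ 3 * P := by ring

theorem POP (C t : ℕ) (hC : 1 ≤ C) (ht : 1 ≤ t) : ∃ q0 : ℕ, ∀ (q : ℕ) (v : ℕ → ℂ) (m : ℕ), q0 ≤ q → Chain q v →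
    (dD q v).card ≤ C * q → RR q v (8 * C * t) m → m * 2 ^ 30 * C ^ 5 * t ^ 2 ≤ q →
    ∃ Psi : Finset (ℂ × ℂ), (∀ g ∈ Psi, ‖g.1‖ = 1 ∧ q ^ 2 ≤ 2 ^ 25 * C ^ 3 * (dom q v (8 * C * t) g).card ^ 2) ∧
      8 * C * t ≤ 2 ^ 25 * C ^ 3 * Psi.card := by
  obtain ⟨q1, hq1⟩ := TR3 C t hC ht
  refine ⟨max q1 1, fun q v m hq hv hd hR hm => ?_⟩
  have hqa : q1 ≤ q := le_trans (le_max_left _ _) hq
  have hqb : 1 ≤ q := le_trans (le_max_right _ _) hq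
  have h3 := hq1 q v hqa hv hd
  have hK : 0 < 2 ^ 25 * C ^ 3 := by positivity
  obtain ⟨s, hs1, hs2⟩ := POP_sqrt (2 ^ 25 * C ^ 3) q hK
  obtain ⟨Psi, hP, hP2⟩ := POPa hv (8 * C * t) m s hR
  refine ⟨Psi, fun g hg => ⟨(hP g hg).1, ?_⟩, ?_⟩
  · have h4 : s + 1 ≤ (dom q v (8 * C * t) g).card := (hP g hg).2
    exact hs2.le.trans (Nat.mul_le_mul_left _ (Nat.pow_le_pow_left h4 2))
  · exact POP_arith C t q m s Psi.card _ hqb h3 hP2 hm hs1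

end Pool.Agent.H3.FQ
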