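import Pool.Agent.H3.FQ.CH
import Pool.Agent.H3.FQ.RIG

/-!
# RA: no rich conic

`u ∈ Nb q v G w` gives `u.1 < u.2 ≤ u.1 + G`, `u.1 < w.1`, `u.2 < w.2`, all `< q`, `dist (v u.1) (v w.1) = dist (v u.2) (v w.2)`.
`cod_ord`: if `w ∈ cod q v G u1 u2 u3`, `u1.1 < u2.1`: `dist (v u2.1) (v w.1) < dist (v u1.1) (v w.1)` (`mon2`), so `dist (v u2.2) (v w.2) < dist (v u1.2) (v w.2)`, with `u1.2, u2.2 < w.2`: `u1.2 < u2.2`
(otherwise `u2.2 ≤ u1.2` and `mon2` or equality gives `≥`). Same for `u2, u3`.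
`RA`: `m ≥ 1` (take any conic, the hypothesis gives `0 < m`), so `cod` is nonempty and by `cod_ord` and `ori` both triangles are positively oriented. `RIG`: in the first case done (`w ∈ cod`: the three distance equations). In the
second case `v w.2 = aff m' (v w.1)` for all `w ∈ cod`, so `w ↦ w.1` is injective on `cod` (`Chain_inj`), and the quadratic polynomial `|x1 - y|^2 - |x1' - aff m' y|^2`, whose quadratic part `I - MᵀM` has coefficients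
`1 - m0^2 - m2^2`, `-2 (m0 m1 + m2 m3)`, `1 - m1^2 - m3^2` (not all `0` as `¬ orth`), vanishes at `v w.1`: a conic with at least `m` points of the chain. Contradiction.
-/

set_option autoImplicit false

namespace Pool.Agent.H3.FQ

open Classical

theorem RA_one {q : ℕ} {v : ℕ → ℂ} (hv : Chain q v) {G : ℕ} {u u' w : ℕ × ℕ} (hw1 : w.1 < q) (hw2 : w.2 < q)
    (hu : u ∈ Nb q v G w) (hu' : u' ∈ Nb q v G w) (h : u.1 < u'.1) : u.2 < u'.2 := by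
  simp only [Nb, Vs, Finset.mem_filter, Finset.mem_product, Finset.mem_range] at hu hu'
  obtain ⟨_, hu1, hu2, hud⟩ := hu
  obtain ⟨_, hu1', hu2', hud'⟩ := hu'
  by_contra hcon
  push Not at hcon
  have A := mon2 hv h hu1' hw1
  rcases hcon.lt_or_eq with h' | h'
  · have B := mon2 hv h' hu2 hw2
    linarith
  · rw [h'] at hud'
    linarith

theorem RA_mem {q : ℕ} {v : ℕ → ℂ} {G : ℕ} {u w : ℕ × ℕ} (hu : u ∈ Nb q v G w) :
    u.1 < w.1 ∧ u.2 < w.2 ∧ dist (v u.1) (v w.1) = dist (v u.2) (v w.2) := by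
  simp only [Nb, Finset.mem_filter] at hu
  exact hu.2

theorem RA_cod {q : ℕ} {v : ℕ → ℂ} {G : ℕ} {u1 u2 u3 w : ℕ × ℕ} (hw : w ∈ cod q v G u1 u2 u3) :
    w.1 < q ∧ w.2 < q ∧ u1 ∈ Nb q v G w ∧ u2 ∈ Nb q v G w ∧ u3 ∈ Nb q v G w := by
  simp only [cod, Vs, Finset.mem_filter, Finset.mem_product, Finset.mem_range] at hw
  exact ⟨hw.1.1.1, hw.1.1.2, hw.2.1, hw.2.2.1, hw.2.2.2⟩

theorem cod_ord {q : ℕ} {v : ℕ → ℂ} (hv : Chain q v) {G : ℕ} {u1 u2 u3 w : ℕ × ℕ} (hw : w ∈ cod q v G u1 u2 u3)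
    (h12 : u1.1 < u2.1) (h23 : u2.1 < u3.1) : u1.2 < u2.2 ∧ u2.2 < u3.2 := by
  obtain ⟨w1, w2, m1, m2, m3⟩ := RA_cod hw
  exact ⟨RA_one hv w1 w2 m1 m2 h12, RA_one hv w1 w2 m2 m3 h23⟩

theorem RA_dsq (z w : ℂ) : dist z w ^ 2 = (z.re - w.re) ^ 2 + (z.im - w.im) ^ 2 := by
  rw [Complex.dist_eq_re_im, Real.sq_sqrt (by positivity)]

theorem RA {q : ℕ} {v : ℕ → ℂ} (hv : Chain q v) (G m : ℕ)
    (h : ∀ c : Fin 6 → ℝ, isConic c → ((Finset.range q).filter (fun i => qd c (v i) = 0)).card < m) : RR q v G m := by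
  intro u1 u2 u3 h12 h23 hm
  have hm0 : 0 < m := by
    have := h (fun i => if i = 0 then 1 else 0) (by simp [isConic])
    omega
  obtain ⟨w0, hw0⟩ := Finset.card_pos.mp (lt_of_lt_of_le hm0 hm)
  have ho := cod_ord hv hw0 h12 h23
  obtain ⟨a1, a2, m1, m2, m3⟩ := RA_cod hw0
  have m3' := RA_mem m3
  have o1 : 0 < crs (v u1.1) (v u2.1) (v u3.1) := ori hv h12 h23 (lt_trans m3'.1 a1)
  have o2 : 0 < crs (v u1.2) (v u2.2) (v u3.2) := ori hv ho.1 ho.2 (lt_trans m3'.2.1 a2)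
  rcases RIG _ _ _ _ _ _ o1 o2 with ⟨g, hg, e1, e2, e3, H⟩ | ⟨mm, hdet, hno, H⟩
  · refine ⟨g, hg, e1, e2, e3, fun w hw => ?_⟩
    obtain ⟨_, _, n1, n2, n3⟩ := RA_cod hw
    exact H _ _ (RA_mem n1).2.2 (RA_mem n2).2.2 (RA_mem n3).2.2
  · exfalso
    have Haff : ∀ w ∈ cod q v G u1 u2 u3, v w.2 = aff mm (v w.1) := by
      intro w hw
      obtain ⟨_, _, n1, n2, n3⟩ := RA_cod hw
      exact H _ _ (RA_mem n1).2.2 (RA_mem n2).2.2 (RA_mem n3).2.2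
    obtain ⟨x, hx⟩ : ∃ x : ℂ, x = v u1.1 := ⟨_, rfl⟩
    obtain ⟨x', hx'⟩ : ∃ x' : ℂ, x' = v u1.2 := ⟨_, rfl⟩
    obtain ⟨c, hc⟩ : ∃ c : Fin 6 → ℝ, c = ![1 - mm 0 ^ 2 - mm 2 ^ 2, -(2 * (mm 0 * mm 1 + mm 2 * mm 3)), 1 - mm 1 ^ 2 - mm 3 ^ 2,
      -2 * x.re + 2 * mm 0 * (x'.re - mm 4) + 2 * mm 2 * (x'.im - mm 5),
      -2 * x.im + 2 * mm 1 * (x'.re - mm 4) + 2 * mm 3 * (x'.im - mm 5),
      x.re ^ 2 + x.im ^ 2 - (x'.re - mm 4) ^ 2 - (x'.im - mm 5) ^ 2] := ⟨_, rfl⟩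
    have c0 : c 0 = 1 - mm 0 ^ 2 - mm 2 ^ 2 := by rw [hc]; rfl
    have c1 : c 1 = -(2 * (mm 0 * mm 1 + mm 2 * mm 3)) := by rw [hc]; rfl
    have c2 : c 2 = 1 - mm 1 ^ 2 - mm 3 ^ 2 := by rw [hc]; rfl
    have c3 : c 3 = -2 * x.re + 2 * mm 0 * (x'.re - mm 4) + 2 * mm 2 * (x'.im - mm 5) := by rw [hc]; rfl
    have c4 : c 4 = -2 * x.im + 2 * mm 1 * (x'.re - mm 4) + 2 * mm 3 * (x'.im - mm 5) := by rw [hc]; rfl
    have c5 : c 5 = x.re ^ 2 + x.im ^ 2 - (x'.re - mm 4) ^ 2 - (x'.im - mm 5) ^ 2 := by rw [hc]; rfl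
    have hcon : isConic c := by
      rintro ⟨z0, z1, z2⟩
      rw [c0] at z0
      rw [c1] at z1
      rw [c2] at z2
      exact hno ⟨by linarith, by linarith, by linarith⟩
    have hlt := h c hcon
    have hle : (cod q v G u1 u2 u3).card ≤ ((Finset.range q).filter (fun i => qd c (v i) = 0)).card := by
      refine Finset.card_le_card_of_injOn (fun w => w.1) ?_ ?_
      · intro w hw
        have hw' : w ∈ cod q v G u1 u2 u3 := hw
        obtain ⟨b1, b2, n1, _, _⟩ := RA_cod hw'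
        have hd := (RA_mem n1).2.2
        rw [Haff w hw', ← hx, ← hx'] at hd
        have hd2 : dist x (v w.1) ^ 2 = dist x' (aff mm (v w.1)) ^ 2 := by rw [hd]
        rw [RA_dsq, RA_dsq] at hd2
        simp only [aff] at hd2
        refine Finset.mem_coe.2 (Finset.mem_filter.2 ⟨Finset.mem_range.2 b1, ?_⟩)
        simp only [qd]
        rw [c0, c1, c2, c3, c4, c5]
        linear_combination hd2
      · intro w hw w' hw' hww
        have h1 : w ∈ cod q v G u1 u2 u3 := hw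
        have h2 : w' ∈ cod q v G u1 u2 u3 := hw'
        have hww' : w.1 = w'.1 := hww
        have e : v w.2 = v w'.2 := by rw [Haff w h1, Haff w' h2, hww']
        exact Prod.ext hww' (Chain_inj hv (RA_cod h1).2.1 (RA_cod h2).2.1 e)
    omega

end Pool.Agent.H3.FQ
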