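import Pool.Agent.H3.FQ.EN2

/-!
# TR3: many triples

`TR3a` (in one `Nb q v G w`, `w ∈ Vs q G`, the first coordinates are different: `i` is determined by `i'` and conversely by `mon1`/`mon2`, and `i < k` iff `i' < k'`): the number of triples
`(u1, u2, u3)` in `Nb` with increasing first coordinates is `x (x-1) (x-2) / 6`, `x = |Nb|`.
`TR3`: `x_w = |Nb q v G w|`, `∑ x_w ≥ t q^2 / 8` (`EN2`), `|Vs q G| ≤ q G`, `G = 8 C t`; power mean (`inner_mul_le_norm_mul_norm` twice or `inner_le_nnorm_mul_nnorm`/`Finset.inner_mul_le...`,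
`inner_le_Lp_mul_Lq`, or `Finset.sum_pow_le...`/`inner_mul`: `(∑ x)^3 ≤ |Vs|^2 ∑ x^3`): `∑ x^3 ≥ t^3 q^6 / (512 q^2 64 C^2 t^2) = t q^4 / (2^15 C^2)`; `x (x-1)(x-2) ≥ x^3/2 - 108` for naturals; for large `q`
`∑ x (x-1)(x-2) ≥ t q^4/(2^16 C^2) - 108 q G ≥ t q^4 / (2^17 C^2)`; divide by `6` (`6 * 2^17 ≤ 2^20`).
-/

set_option autoImplicit false

namespace Pool.Agent.H3.FQ

open Classical

/-- triples in `Nb` with increasing first coordinates -/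
noncomputable def trip (q : ℕ) (v : ℕ → ℂ) (G : ℕ) (w : ℕ × ℕ) : Finset ((ℕ × ℕ) × (ℕ × ℕ) × (ℕ × ℕ)) :=
  (Nb q v G w ×ˢ Nb q v G w ×ˢ Nb q v G w).filter (fun u => u.1.1 < u.2.1.1 ∧ u.2.1.1 < u.2.2.1)

theorem TR3_inj (q : ℕ) (v : ℕ → ℂ) (hv : Chain q v) (G : ℕ) (w : ℕ × ℕ) (hw : w ∈ Vs q G) :
    ∀ a ∈ Nb q v G w, ∀ b ∈ Nb q v G w, a.1 = b.1 → a = b := by
  have hw2 : w.2 < q := by
    obtain ⟨h1, -⟩ := Finset.mem_filter.1 hw
    exact Finset.mem_range.1 (Finset.mem_product.1 h1).2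
  intro a ha b hb h
  obtain ⟨-, -, a2, a3⟩ := Finset.mem_filter.1 ha
  obtain ⟨-, -, b2, b3⟩ := Finset.mem_filter.1 hb
  refine Prod.ext h ?_
  rw [h] at a3
  rcases lt_trichotomy a.2 b.2 with h1 | h1 | h1
  · have h2 := mon2 hv h1 b2 hw2
    rw [← a3, ← b3] at h2
    exact absurd h2 (lt_irrefl _)
  · exact h1
  · have h2 := mon2 hv h1 a2 hw2
    rw [← a3, ← b3] at h2
    exact absurd h2 (lt_irrefl _)

/-- an element with a given first coordinate -/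
noncomputable def TR3_g (N : Finset (ℕ × ℕ)) (a : ℕ) : ℕ × ℕ :=
  if h : ∃ u ∈ N, u.1 = a then h.choose else (0, 0)

theorem TR3_g_spec {N : Finset (ℕ × ℕ)} {a : ℕ} (h : a ∈ N.image Prod.fst) :
    TR3_g N a ∈ N ∧ (TR3_g N a).1 = a := by
  obtain ⟨u, hu, hu2⟩ := Finset.mem_image.1 h
  have h' : ∃ u ∈ N, u.1 = a := ⟨u, hu, hu2⟩
  unfold TR3_g
  rw [dif_pos h']
  exact h'.choose_spec

/-- the increasing triple of a set of three numbers -/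
noncomputable def TR3_f (N : Finset (ℕ × ℕ)) (s : Finset ℕ) : (ℕ × ℕ) × (ℕ × ℕ) × (ℕ × ℕ) :=
  if h : s.card = 3 then (TR3_g N (s.orderEmbOfFin h 0), TR3_g N (s.orderEmbOfFin h 1),
    TR3_g N (s.orderEmbOfFin h 2)) else ((0, 0), (0, 0), (0, 0))

theorem TR3_choose (N : Finset (ℕ × ℕ)) :
    (N.image Prod.fst).card.choose 3 ≤ ((N ×ˢ N ×ˢ N).filter
      (fun u => u.1.1 < u.2.1.1 ∧ u.2.1.1 < u.2.2.1)).card := by
  rw [← Finset.card_powersetCard]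
  have hsub : ∀ s ∈ Finset.powersetCard 3 (N.image Prod.fst), ∃ h : s.card = 3,
      ∀ k : Fin 3, TR3_g N (s.orderEmbOfFin h k) ∈ N ∧
        (TR3_g N (s.orderEmbOfFin h k)).1 = s.orderEmbOfFin h k := by
    intro s hs
    obtain ⟨h1, h2⟩ := Finset.mem_powersetCard.1 hs
    exact ⟨h2, fun k => TR3_g_spec (h1 (Finset.orderEmbOfFin_mem s h2 k))⟩
  refine Finset.card_le_card_of_injOn (TR3_f N) ?_ ?_
  · intro s hs
    obtain ⟨h, hk⟩ := hsub s hs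
    unfold TR3_f
    rw [dif_pos h]
    refine Finset.mem_coe.2 (Finset.mem_filter.2 ⟨?_, ?_, ?_⟩)
    · exact Finset.mem_product.2 ⟨(hk 0).1, Finset.mem_product.2 ⟨(hk 1).1, (hk 2).1⟩⟩
    · show (TR3_g N (s.orderEmbOfFin h 0)).1 < (TR3_g N (s.orderEmbOfFin h 1)).1
      rw [(hk 0).2, (hk 1).2]
      exact (s.orderEmbOfFin h).strictMono (by decide)
    · show (TR3_g N (s.orderEmbOfFin h 1)).1 < (TR3_g N (s.orderEmbOfFin h 2)).1
      rw [(hk 1).2, (hk 2).2]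
      exact (s.orderEmbOfFin h).strictMono (by decide)
  · intro s hs s' hs' he
    obtain ⟨h, hk⟩ := hsub s hs
    obtain ⟨h', hk'⟩ := hsub s' hs'
    unfold TR3_f at he
    rw [dif_pos h, dif_pos h'] at he
    simp only [Prod.mk.injEq] at he
    obtain ⟨e0, e1, e2⟩ := he
    have f0 : s.orderEmbOfFin h 0 = s'.orderEmbOfFin h' 0 := by
      rw [← (hk 0).2, ← (hk' 0).2, e0]
    have f1 : s.orderEmbOfFin h 1 = s'.orderEmbOfFin h' 1 := by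
      rw [← (hk 1).2, ← (hk' 1).2, e1]
    have f2 : s.orderEmbOfFin h 2 = s'.orderEmbOfFin h' 2 := by
      rw [← (hk 2).2, ← (hk' 2).2, e2]
    have hall : ∀ k : Fin 3, s.orderEmbOfFin h k = s'.orderEmbOfFin h' k := by
      intro k
      fin_cases k
      · exact f0
      · exact f1
      · exact f2
    have hr : Set.range (s.orderEmbOfFin h) = Set.range (s'.orderEmbOfFin h') := by
      congr 1
      funext k
      exact hall k
    rw [Finset.range_orderEmbOfFin, Finset.range_orderEmbOfFin] at hr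
    exact Finset.coe_injective hr

theorem TR3_Vs (q G : ℕ) : (Vs q G).card ≤ q * G := by
  have h1 : Vs q G ⊆ (Finset.range q ×ˢ Finset.Icc 1 G).image
      (fun p : ℕ × ℕ => (p.1, p.1 + p.2)) := by
    intro w hw
    obtain ⟨h1, h2, h3⟩ := Finset.mem_filter.1 hw
    obtain ⟨h4, -⟩ := Finset.mem_product.1 h1
    refine Finset.mem_image.2 ⟨(w.1, w.2 - w.1), Finset.mem_product.2 ⟨h4, ?_⟩, ?_⟩
    · rw [Finset.mem_Icc]
      show 1 ≤ w.2 - w.1 ∧ w.2 - w.1 ≤ G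
      omega
    · refine Prod.ext rfl ?_
      show w.1 + (w.2 - w.1) = w.2
      omega
  calc (Vs q G).card ≤ _ := Finset.card_le_card h1
    _ ≤ (Finset.range q ×ˢ Finset.Icc 1 G).card := Finset.card_image_le
    _ = q * G := by rw [Finset.card_product, Finset.card_range, Nat.card_Icc]; rfl

theorem TR3_one (x y : ℕ) (h : x * (x - 1) * (x - 2) ≤ 6 * y) (a : ℝ) (ha : 0 ≤ a) :
    (3 * a ^ 2 * (x : ℝ) - 2 * a ^ 3) / 2 - 108 ≤ 6 * (y : ℝ) := by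
  have hx0 : (0 : ℝ) ≤ (x : ℝ) := Nat.cast_nonneg x
  have h1 : 3 * a ^ 2 * (x : ℝ) - 2 * a ^ 3 ≤ (x : ℝ) ^ 3 := by
    nlinarith [mul_nonneg (sq_nonneg ((x : ℝ) - a)) (by positivity : (0 : ℝ) ≤ (x : ℝ) + 2 * a)]
  have h2 : (x : ℝ) ^ 3 / 2 - 108 ≤ 6 * (y : ℝ) := by
    rcases Nat.lt_or_ge x 2 with hx | hx
    · have hy : (0 : ℝ) ≤ (y : ℝ) := Nat.cast_nonneg y
      have hx1 : (x : ℝ) ≤ 1 := by exact_mod_cast (by omega : x ≤ 1)
      have h3 : (x : ℝ) ^ 3 ≤ 1 := pow_le_one₀ hx0 hx1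
      linarith
    · have hc : ((x * (x - 1) * (x - 2) : ℕ) : ℝ) = (x : ℝ) * (x - 1) * (x - 2) := by
        rw [Nat.cast_mul, Nat.cast_mul, Nat.cast_sub (by omega : 1 ≤ x), Nat.cast_sub hx]
        norm_num
      have h3 : (x : ℝ) * (x - 1) * (x - 2) ≤ 6 * (y : ℝ) := by
        rw [← hc]
        exact_mod_cast h
      have h4 : (x : ℝ) ^ 3 / 2 - 108 ≤ (x : ℝ) * (x - 1) * (x - 2) := by
        rcases le_total (x : ℝ) 6 with h6 | h6
        · nlinarith [pow_nonneg hx0 3, mul_nonneg hx0 (sub_nonneg.2 h6)]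
        · nlinarith [mul_nonneg (sq_nonneg (x : ℝ)) (sub_nonneg.2 h6)]
      linarith
  linarith

theorem TR3a (q : ℕ) (v : ℕ → ℂ) (hv : Chain q v) (G : ℕ) (w : ℕ × ℕ) (hw : w ∈ Vs q G) :
    (Nb q v G w).card * ((Nb q v G w).card - 1) * ((Nb q v G w).card - 2) ≤ 6 * (trip q v G w).card := by
  have h1 := TR3_choose (Nb q v G w)
  have h2 : ((Nb q v G w).image Prod.fst).card = (Nb q v G w).card :=
    Finset.card_image_of_injOn fun a ha b hb h => TR3_inj q v hv G w hw a ha b hb h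
  rw [h2] at h1
  have h3 : (Nb q v G w).card * ((Nb q v G w).card - 1) * ((Nb q v G w).card - 2) =
      6 * (Nb q v G w).card.choose 3 := by
    have h4 := Nat.descFactorial_eq_factorial_mul_choose (Nb q v G w).card 3
    have h5 : (Nb q v G w).card.descFactorial 3 =
        (Nb q v G w).card * ((Nb q v G w).card - 1) * ((Nb q v G w).card - 2) := by
      rw [Nat.descFactorial_succ, Nat.descFactorial_succ, Nat.descFactorial_succ,
        Nat.descFactorial_zero, Nat.sub_zero]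
      ring
    rw [← h5, h4]
    rfl
  rw [h3]
  exact Nat.mul_le_mul_left 6 h1

theorem TR3 (C t : ℕ) (hC : 1 ≤ C) (ht : 1 ≤ t) : ∃ q0 : ℕ, ∀ (q : ℕ) (v : ℕ → ℂ), q0 ≤ q → Chain q v →
    (dD q v).card ≤ C * q → t * q ^ 4 ≤ 2 ^ 20 * C ^ 2 * ∑ w ∈ Vs q (8 * C * t), (trip q v (8 * C * t) w).card := by
  refine ⟨8 * C * t + 4 + 11000 * C ^ 2, ?_⟩
  intro q v hq hv hD
  obtain ⟨G, hG⟩ : ∃ G, G = 8 * C * t := ⟨_, rfl⟩
  have h1 := EN2 C t q v hv hC ht hD (by omega)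
  rw [← hG] at h1 ⊢
  have hV := TR3_Vs q G
  have hCR : (1 : ℝ) ≤ (C : ℝ) := by exact_mod_cast hC
  have htR : (1 : ℝ) ≤ (t : ℝ) := by exact_mod_cast ht
  have hqR : (11000 : ℝ) * (C : ℝ) ^ 2 ≤ (q : ℝ) := by
    have : 11000 * C ^ 2 ≤ q := by omega
    exact_mod_cast this
  have hq0 : (0 : ℝ) ≤ (q : ℝ) := Nat.cast_nonneg q
  have hGR : (G : ℝ) = 8 * C * t := by
    rw [hG]
    push_cast
    ring
  obtain ⟨a, ha⟩ : ∃ a : ℝ, a = q / (64 * C) := ⟨_, rfl⟩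
  have ha0 : 0 ≤ a := by
    rw [ha]
    positivity
  have hsum : ∑ w ∈ Vs q G, ((3 * a ^ 2 * ((Nb q v G w).card : ℝ) - 2 * a ^ 3) / 2 - 108) ≤
      ∑ w ∈ Vs q G, 6 * ((trip q v G w).card : ℝ) :=
    Finset.sum_le_sum fun w hw => TR3_one _ _ (TR3a q v hv G w hw) a ha0
  have hl : ∑ w ∈ Vs q G, ((3 * a ^ 2 * ((Nb q v G w).card : ℝ) - 2 * a ^ 3) / 2 - 108) =
      3 * a ^ 2 / 2 * ∑ w ∈ Vs q G, ((Nb q v G w).card : ℝ) -
        (a ^ 3 + 108) * ((Vs q G).card : ℝ) := by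
    rw [Finset.mul_sum]
    have h2 : (a ^ 3 + 108) * ((Vs q G).card : ℝ) = ∑ w ∈ Vs q G, (a ^ 3 + 108) := by
      rw [Finset.sum_const, nsmul_eq_mul, mul_comm]
    rw [h2, ← Finset.sum_sub_distrib]
    refine Finset.sum_congr rfl fun w _ => ?_
    ring
  rw [hl, ← Finset.mul_sum] at hsum
  have h1R : (t : ℝ) * (q : ℝ) ^ 2 ≤ 8 * ∑ w ∈ Vs q G, ((Nb q v G w).card : ℝ) := by
    exact_mod_cast h1
  have hVR : ((Vs q G).card : ℝ) ≤ (q : ℝ) * (8 * C * t) := by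
    rw [← hGR]
    exact_mod_cast hV
  obtain ⟨N, hN⟩ : ∃ N : ℝ, N = ∑ w ∈ Vs q G, ((Nb q v G w).card : ℝ) := ⟨_, rfl⟩
  obtain ⟨W, hW⟩ : ∃ W : ℝ, W = ((Vs q G).card : ℝ) := ⟨_, rfl⟩
  obtain ⟨Z, hZ⟩ : ∃ Z : ℝ, Z = ∑ w ∈ Vs q G, ((trip q v G w).card : ℝ) := ⟨_, rfl⟩
  rw [← hN, ← hW, ← hZ] at hsum
  rw [← hN] at h1R
  rw [← hW] at hVR
  have hs1 : 3 * a ^ 2 / 2 * (t * q ^ 2 / 8) ≤ 3 * a ^ 2 / 2 * N :=
    mul_le_mul_of_nonneg_left (by linarith) (by positivity)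
  have hs2 : (a ^ 3 + 108) * W ≤ (a ^ 3 + 108) * (q * (8 * C * t)) :=
    mul_le_mul_of_nonneg_left hVR (by positivity)
  have hs3 : 3 * a ^ 2 / 2 * (t * q ^ 2 / 8) - (a ^ 3 + 108) * (q * (8 * C * t)) ≤ 6 * Z := by
    linarith
  have hC0 : (C : ℝ) ≠ 0 := by positivity
  have hs4 : 3 * a ^ 2 / 2 * (t * q ^ 2 / 8) - (a ^ 3 + 108) * (q * (8 * C * t)) =
      t * q ^ 4 / (65536 * C ^ 2) - 864 * C * t * q := by
    rw [ha]
    field_simp
    ring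
  rw [hs4] at hs3
  have hs5 : 2 * (t * q ^ 4) - 131072 * C ^ 2 * (864 * C * t * q) ≤ 131072 * C ^ 2 * (6 * Z) := by
    have h2 : 131072 * (C : ℝ) ^ 2 * (t * q ^ 4 / (65536 * C ^ 2) - 864 * C * t * q) =
        2 * (t * q ^ 4) - 131072 * C ^ 2 * (864 * C * t * q) := by
      field_simp
      ring
    rw [← h2]
    exact mul_le_mul_of_nonneg_left hs3 (by positivity)
  have hq3 : 131072 * 864 * (C : ℝ) ^ 3 ≤ q ^ 3 := by
    have h2 : ((11000 : ℝ) * C ^ 2) ^ 3 ≤ q ^ 3 := pow_le_pow_left₀ (by positivity) hqR 3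
    have h3 : (C : ℝ) ^ 3 ≤ C ^ 6 := pow_le_pow_right₀ hCR (by norm_num)
    nlinarith [pow_pos (by linarith : (0 : ℝ) < (C : ℝ)) 3]
  have hs6 : 131072 * C ^ 2 * (864 * C * t * q) ≤ t * (q : ℝ) ^ 4 := by
    have h2 : (t * q : ℝ) * (131072 * 864 * (C : ℝ) ^ 3) ≤ (t * q : ℝ) * q ^ 3 :=
      mul_le_mul_of_nonneg_left hq3 (by positivity)
    linarith
  have hZ0 : 0 ≤ Z := by
    rw [hZ]
    positivity
  have hfin : (t : ℝ) * (q : ℝ) ^ 4 ≤ 2 ^ 20 * C ^ 2 * Z := by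
    have h2 : 0 ≤ (C : ℝ) ^ 2 * Z := by positivity
    linarith
  rw [hZ] at hfin
  exact_mod_cast hfin

end Pool.Agent.H3.FQ
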