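import Pool.Agent.H3.FQ.PC
import Pool.Agent.H3.FQ.TR3
import Pool.Agent.H3.FQ.RA

/-!
# POPa: most triples come from popular isometries (counting without constants)

`X` = all `(w, u1, u2, u3)` with `w ∈ Vs q G`, `(u1, u2, u3) ∈ trip q v G w` (i.e. `w ∈ cod q v G u1 u2 u3`, `u1.1 < u2.1 < u3.1`); `|X| = ∑ w ∈ Vs q G, |trip|`. Three parts:
* bad: `|cod| < m`: at most `|Vs|^3 ≤ (q G)^3` triples `u`, each with fewer than `m` elements `w`;
* otherwise `RR` gives an isometry `g` (choose one for every `u`; unique by `act_ext` at `v u1.1 ≠ v u2.1`). Then `u1.1, u2.1, u3.1, w.1 ∈ dom q v G g` (`v w.2 = act g (v w.1)`, `w ∈ Vs`). Small: `|dom g| ≤ s`. The map `x ↦ (u1, u2)` goes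
  into the set of `PC` (`cod_ord`, `act_dist`), and given `(u1, u2)` the isometry is determined and `(u3.1, w.1)` determines `(u3, w)` (`v u3.2 = act g (v u3.1)`, `Chain_inj`): at most `s^2` each, total `≤ q^2 G s^2`;
* large: `Psi` = the isometries `g` of the remaining `x` (`|dom g| > s`): given `g`, `x` is determined by `(u1.1, u2.1, u3.1, w.1) ∈ range q ^4`: at most `|Psi| q^4`.
-/

set_option autoImplicit false

namespace Pool.Agent.H3.FQ

open Classical

theorem POPa_Vs (q G : ℕ) : (Vs q G).card ≤ q * G := by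
  have hcard : (Finset.range q ×ˢ Finset.Icc 1 G).card = q * G := by
    rw [Finset.card_product, Finset.card_range, Nat.card_Icc]
    simp
  rw [← hcard]
  refine Finset.card_le_card_of_injOn (fun w => (w.1, w.2 - w.1)) ?_ ?_
  · rintro ⟨a, b⟩ hw
    simp only [Vs, Finset.coe_filter, Finset.mem_product, Finset.mem_range, Set.mem_setOf_eq] at hw
    simp only [Finset.coe_product, Set.mem_prod, Finset.mem_coe, Finset.mem_range, Finset.mem_Icc]
    omega
  · rintro ⟨a, b⟩ hw ⟨c, d⟩ hw' heq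
    simp only [Vs, Finset.coe_filter, Finset.mem_product, Finset.mem_range, Set.mem_setOf_eq] at hw hw'
    simp only [Prod.mk.injEq] at heq ⊢
    omega

theorem POPa_dom {q : ℕ} {v : ℕ → ℂ} {G : ℕ} {g : ℂ × ℂ} {w : ℕ × ℕ} (hw : w ∈ Vs q G)
    (h : v w.2 = act g (v w.1)) : w.1 ∈ dom q v G g := by
  simp only [Vs, Finset.mem_filter, Finset.mem_product, Finset.mem_range] at hw
  exact Finset.mem_filter.2 ⟨Finset.mem_range.2 hw.1.1, w.2, hw.2.1, hw.2.2, hw.1.2, h⟩

theorem POPa_ext {q : ℕ} {v : ℕ → ℂ} (hv : Chain q v) {G : ℕ} {g : ℂ × ℂ} {w w' : ℕ × ℕ}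
    (hw : w ∈ Vs q G) (hw' : w' ∈ Vs q G) (h : v w.2 = act g (v w.1)) (h' : v w'.2 = act g (v w'.1))
    (he : w.1 = w'.1) : w = w' := by
  simp only [Vs, Finset.mem_filter, Finset.mem_product, Finset.mem_range] at hw hw'
  refine Prod.ext he (Chain_inj hv hw.1.2 hw'.1.2 ?_)
  rw [h, h', he]

theorem POPa {q : ℕ} {v : ℕ → ℂ} (hv : Chain q v) (G m s : ℕ) (hR : RR q v G m) :
    ∃ Psi : Finset (ℂ × ℂ), (∀ g ∈ Psi, ‖g.1‖ = 1 ∧ s < (dom q v G g).card) ∧
      ∑ w ∈ Vs q G, (trip q v G w).card ≤ m * (q * G) ^ 3 + q ^ 2 * G * s ^ 2 + Psi.card * q ^ 4 := by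
  -- the isometries
  have hex : ∀ u : (ℕ × ℕ) × (ℕ × ℕ) × (ℕ × ℕ), ∃ g : ℂ × ℂ,
      u.1.1 < u.2.1.1 → u.2.1.1 < u.2.2.1 → m ≤ (cod q v G u.1 u.2.1 u.2.2).card →
      ‖g.1‖ = 1 ∧ v u.1.2 = act g (v u.1.1) ∧ v u.2.1.2 = act g (v u.2.1.1) ∧
        v u.2.2.2 = act g (v u.2.2.1) ∧ ∀ w ∈ cod q v G u.1 u.2.1 u.2.2, v w.2 = act g (v w.1) := by
    intro u
    by_cases h : u.1.1 < u.2.1.1 ∧ u.2.1.1 < u.2.2.1 ∧ m ≤ (cod q v G u.1 u.2.1 u.2.2).card
    · obtain ⟨g, hg⟩ := hR u.1 u.2.1 u.2.2 h.1 h.2.1 h.2.2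
      exact ⟨g, fun _ _ _ => hg⟩
    · exact ⟨0, fun h1 h2 h3 => absurd ⟨h1, h2, h3⟩ h⟩
  choose gf hgf using hex
  set X : Finset ((_ : ℕ × ℕ) × ((ℕ × ℕ) × (ℕ × ℕ) × (ℕ × ℕ))) :=
    (Vs q G).sigma (fun w => trip q v G w) with hX
  have hXc : X.card = ∑ w ∈ Vs q G, (trip q v G w).card := Finset.card_sigma _ _
  -- basic facts on the elements of `X`
  have hmem : ∀ x ∈ X, x.1 ∈ Vs q G ∧ x.2.1 ∈ Vs q G ∧ x.2.2.1 ∈ Vs q G ∧ x.2.2.2 ∈ Vs q G ∧
      x.1 ∈ cod q v G x.2.1 x.2.2.1 x.2.2.2 ∧ x.2.1.1 < x.2.2.1.1 ∧ x.2.2.1.1 < x.2.2.2.1 := by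
    intro x hx
    obtain ⟨h1, h2⟩ := Finset.mem_sigma.1 hx
    simp only [trip, Finset.mem_filter, Finset.mem_product] at h2
    obtain ⟨⟨h3, h4, h5⟩, h6, h7⟩ := h2
    refine ⟨h1, (Finset.mem_filter.1 h3).1, (Finset.mem_filter.1 h4).1, (Finset.mem_filter.1 h5).1,
      Finset.mem_filter.2 ⟨h1, h3, h4, h5⟩, h6, h7⟩
  set X1 := X.filter (fun x => (cod q v G x.2.1 x.2.2.1 x.2.2.2).card < m) with hX1
  set X' := X.filter (fun x => ¬ (cod q v G x.2.1 x.2.2.1 x.2.2.2).card < m) with hX'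
  set X2 := X'.filter (fun x => (dom q v G (gf x.2)).card ≤ s) with hX2
  set X3 := X'.filter (fun x => ¬ (dom q v G (gf x.2)).card ≤ s) with hX3
  have hc1 : X1.card + X'.card = X.card := Finset.card_filter_add_card_filter_not _
  have hc2 : X2.card + X3.card = X'.card := Finset.card_filter_add_card_filter_not _
  have hg : ∀ x ∈ X', ‖(gf x.2).1‖ = 1 ∧ v x.2.1.2 = act (gf x.2) (v x.2.1.1) ∧
      v x.2.2.1.2 = act (gf x.2) (v x.2.2.1.1) ∧ v x.2.2.2.2 = act (gf x.2) (v x.2.2.2.1) ∧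
      v x.1.2 = act (gf x.2) (v x.1.1) := by
    intro x hx
    obtain ⟨hxX, hxm⟩ := Finset.mem_filter.1 hx
    obtain ⟨-, -, -, -, h5, h6, h7⟩ := hmem x hxX
    obtain ⟨k1, k2, k3, k4, k5⟩ := hgf x.2 h6 h7 (not_lt.1 hxm)
    exact ⟨k1, k2, k3, k4, k5 x.1 h5⟩
  -- bad triples
  have hb1 : X1.card ≤ m * (q * G) ^ 3 := by
    have himg : (X1.image (fun x => x.2)).card ≤ (q * G) ^ 3 := by
      have hsub : X1.image (fun x => x.2) ⊆ Vs q G ×ˢ Vs q G ×ˢ Vs q G := by
        intro u hu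
        obtain ⟨x, hx, rfl⟩ := Finset.mem_image.1 hu
        obtain ⟨-, h2, h3, h4, -⟩ := hmem x (Finset.mem_filter.1 hx).1
        exact Finset.mem_product.2 ⟨h2, Finset.mem_product.2 ⟨h3, h4⟩⟩
      refine (Finset.card_le_card hsub).trans ?_
      rw [Finset.card_product, Finset.card_product]
      have h := POPa_Vs q G
      calc (Vs q G).card * ((Vs q G).card * (Vs q G).card)
          ≤ (q * G) * ((q * G) * (q * G)) := Nat.mul_le_mul h (Nat.mul_le_mul h h)
        _ = (q * G) ^ 3 := by ring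
    refine (Finset.card_le_mul_card_image X1 m ?_ (f := fun x => x.2)).trans
      (Nat.mul_le_mul le_rfl himg)
    intro u hu
    obtain ⟨x0, hx0, rfl⟩ := Finset.mem_image.1 hu
    have hlt := (Finset.mem_filter.1 hx0).2
    refine le_trans ?_ hlt.le
    refine Finset.card_le_card_of_injOn (fun x => x.1) ?_ ?_
    · intro x hx
      simp only [Finset.coe_filter, Set.mem_setOf_eq] at hx
      obtain ⟨hx1, hx2⟩ := hx
      obtain ⟨-, -, -, -, h5, -⟩ := hmem x (Finset.mem_filter.1 hx1).1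
      rw [hx2] at h5
      exact h5
    · intro x hx y hy hxy
      simp only [Finset.coe_filter, Set.mem_setOf_eq] at hx hy
      obtain ⟨x1, x2⟩ := x
      obtain ⟨y1, y2⟩ := y
      simp only at hx hy hxy
      rw [hxy, hx.2, hy.2]
  -- small isometries
  have hb2 : X2.card ≤ q ^ 2 * G * s ^ 2 := by
    set P := (Vs q G ×ˢ Vs q G).filter (fun p => p.1.1 < p.2.1 ∧ p.1.2 < p.2.2 ∧
      dist (v p.1.1) (v p.2.1) = dist (v p.1.2) (v p.2.2)) with hP
    have hPc : P.card ≤ q ^ 2 * G := PC hv G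
    have himg : (X2.image (fun x => (x.2.1, x.2.2.1))).card ≤ q ^ 2 * G := by
      refine (Finset.card_le_card ?_).trans hPc
      intro p hp
      obtain ⟨x, hx, rfl⟩ := Finset.mem_image.1 hp
      obtain ⟨hx', -⟩ := Finset.mem_filter.1 hx
      obtain ⟨-, h2, h3, h4, h5, h6, h7⟩ := hmem x (Finset.mem_filter.1 hx').1
      obtain ⟨k1, k2, k3, k4, k5⟩ := hg x hx'
      refine Finset.mem_filter.2 ⟨Finset.mem_product.2 ⟨h2, h3⟩, h6, (cod_ord hv h5 h6 h7).1, ?_⟩
      simp only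
      rw [k2, k3, act_dist k1]
    have hfib : X2.card ≤ s ^ 2 * (X2.image (fun x => (x.2.1, x.2.2.1))).card := by
      refine Finset.card_le_mul_card_image X2 (s ^ 2) ?_ (f := fun x => (x.2.1, x.2.2.1))
      intro p hp
      obtain ⟨x0, hx0, rfl⟩ := Finset.mem_image.1 hp
      obtain ⟨hx0', hs0⟩ := Finset.mem_filter.1 hx0
      obtain ⟨j1, j2, j3, j4, j5⟩ := hg x0 hx0'
      obtain ⟨-, i2, i3, i4, i5, i6, i7⟩ := hmem x0 (Finset.mem_filter.1 hx0').1
      have hgeq : ∀ x ∈ X2, (x.2.1, x.2.2.1) = (x0.2.1, x0.2.2.1) → gf x.2 = gf x0.2 := by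
        intro x hx he
        obtain ⟨hx', -⟩ := Finset.mem_filter.1 hx
        obtain ⟨k1, k2, k3, k4, k5⟩ := hg x hx'
        obtain ⟨e1, e2⟩ := Prod.mk.inj he
        rw [e1] at k2
        rw [e2] at k3
        have hne : v x0.2.1.1 ≠ v x0.2.2.1.1 := by
          intro h
          have hq1 : x0.2.1.1 < q := by
            simp only [Vs, Finset.mem_filter, Finset.mem_product, Finset.mem_range] at i2
            exact i2.1.1
          have hq2 : x0.2.2.1.1 < q := by
            simp only [Vs, Finset.mem_filter, Finset.mem_product, Finset.mem_range] at i3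
            exact i3.1.1
          have := Chain_inj hv hq1 hq2 h
          omega
        exact act_ext hne (by rw [← k2, ← j2]) (by rw [← k3, ← j3])
      have hsq : ((dom q v G (gf x0.2)) ×ˢ (dom q v G (gf x0.2))).card ≤ s ^ 2 := by
        rw [Finset.card_product, pow_two]
        exact Nat.mul_le_mul hs0 hs0
      refine le_trans ?_ hsq
      refine Finset.card_le_card_of_injOn (fun x => (x.2.2.2.1, x.1.1)) ?_ ?_
      · intro x hx
        simp only [Finset.coe_filter, Set.mem_setOf_eq] at hx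
        obtain ⟨hx1, hx2⟩ := hx
        have hgx := hgeq x hx1 hx2
        obtain ⟨hx', -⟩ := Finset.mem_filter.1 hx1
        obtain ⟨k1, k2, k3, k4, k5⟩ := hg x hx'
        obtain ⟨h1, h2, h3, h4, -⟩ := hmem x (Finset.mem_filter.1 hx').1
        rw [hgx] at k4 k5
        have a1 := POPa_dom h4 k4
        have a2 := POPa_dom h1 k5
        have hmp : (x.2.2.2.1, x.1.1) ∈ (dom q v G (gf x0.2)) ×ˢ (dom q v G (gf x0.2)) :=
          Finset.mem_product.2 ⟨a1, a2⟩
        exact Finset.mem_coe.2 hmp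
      · intro x hx y hy hxy
        simp only [Finset.coe_filter, Set.mem_setOf_eq] at hx hy
        obtain ⟨hx1, hx2⟩ := hx
        obtain ⟨hy1, hy2⟩ := hy
        have hgx := hgeq x hx1 hx2
        have hgy := hgeq y hy1 hy2
        obtain ⟨hx', -⟩ := Finset.mem_filter.1 hx1
        obtain ⟨hy', -⟩ := Finset.mem_filter.1 hy1
        obtain ⟨-, -, -, k4, k5⟩ := hg x hx'
        obtain ⟨-, -, -, l4, l5⟩ := hg y hy'
        obtain ⟨h1, -, -, h4, -⟩ := hmem x (Finset.mem_filter.1 hx').1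
        obtain ⟨h1', -, -, h4', -⟩ := hmem y (Finset.mem_filter.1 hy').1
        rw [hgx] at k4 k5
        rw [hgy] at l4 l5
        obtain ⟨e1, e2⟩ := Prod.mk.inj hxy
        obtain ⟨e3, e4⟩ := Prod.mk.inj (hx2.trans hy2.symm)
        have e5 := POPa_ext hv h4 h4' k4 l4 e1
        have e6 := POPa_ext hv h1 h1' k5 l5 e2
        obtain ⟨x1, x2, x3, x4⟩ := x
        obtain ⟨y1, y2, y3, y4⟩ := y
        simp only at e3 e4 e5 e6
        rw [e3, e4, e5, e6]
    calc X2.card ≤ s ^ 2 * (X2.image (fun x => (x.2.1, x.2.2.1))).card := hfib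
      _ ≤ s ^ 2 * (q ^ 2 * G) := Nat.mul_le_mul le_rfl himg
      _ = q ^ 2 * G * s ^ 2 := by ring
  -- large isometries
  refine ⟨X3.image (fun x => gf x.2), ?_, ?_⟩
  · intro g hgm
    obtain ⟨x, hx, rfl⟩ := Finset.mem_image.1 hgm
    obtain ⟨hx', hs⟩ := Finset.mem_filter.1 hx
    exact ⟨(hg x hx').1, not_le.1 hs⟩
  · have hb3 : X3.card ≤ (X3.image (fun x => gf x.2)).card * q ^ 4 := by
      have hcard : ((X3.image (fun x => gf x.2)) ×ˢ (Finset.range q ×ˢ Finset.range q ×ˢ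
          Finset.range q ×ˢ Finset.range q)).card = (X3.image (fun x => gf x.2)).card * q ^ 4 := by
        rw [Finset.card_product, Finset.card_product, Finset.card_product, Finset.card_product,
          Finset.card_range]
        ring
      rw [← hcard]
      refine Finset.card_le_card_of_injOn
        (fun x => (gf x.2, x.2.1.1, x.2.2.1.1, x.2.2.2.1, x.1.1)) ?_ ?_
      · intro x hx
        have hx := Finset.mem_coe.1 hx
        obtain ⟨hx', -⟩ := Finset.mem_filter.1 hx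
        obtain ⟨h1, h2, h3, h4, -⟩ := hmem x (Finset.mem_filter.1 hx').1
        have hr : ∀ w ∈ Vs q G, w.1 ∈ Finset.range q := by
          intro w hw
          simp only [Vs, Finset.mem_filter, Finset.mem_product, Finset.mem_range] at hw
          exact Finset.mem_range.2 hw.1.1
        have hmp : (gf x.2, x.2.1.1, x.2.2.1.1, x.2.2.2.1, x.1.1) ∈
            (X3.image (fun x => gf x.2)) ×ˢ (Finset.range q ×ˢ Finset.range q ×ˢ
            Finset.range q ×ˢ Finset.range q) := by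
          rw [Finset.mem_product, Finset.mem_product, Finset.mem_product, Finset.mem_product]
          have a1 := hr _ h1
          have a2 := hr _ h2
          have a3 := hr _ h3
          have a4 := hr _ h4
          exact ⟨Finset.mem_image.2 ⟨x, hx, rfl⟩, a2, a3, a4, a1⟩
        exact Finset.mem_coe.2 hmp
      · intro x hx y hy hxy
        have hx := Finset.mem_coe.1 hx
        have hy := Finset.mem_coe.1 hy
        obtain ⟨hx', -⟩ := Finset.mem_filter.1 hx
        obtain ⟨hy', -⟩ := Finset.mem_filter.1 hy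
        obtain ⟨-, k2, k3, k4, k5⟩ := hg x hx'
        obtain ⟨-, l2, l3, l4, l5⟩ := hg y hy'
        obtain ⟨h1, h2, h3, h4, -⟩ := hmem x (Finset.mem_filter.1 hx').1
        obtain ⟨h1', h2', h3', h4', -⟩ := hmem y (Finset.mem_filter.1 hy').1
        simp only [Prod.mk.injEq] at hxy
        obtain ⟨e0, e1, e2, e3, e4⟩ := hxy
        rw [← e0] at l2 l3 l4 l5
        have f1 := POPa_ext hv h2 h2' k2 l2 e1
        have f2 := POPa_ext hv h3 h3' k3 l3 e2
        have f3 := POPa_ext hv h4 h4' k4 l4 e3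
        have f4 := POPa_ext hv h1 h1' k5 l5 e4
        obtain ⟨x1, x2, x3, x4⟩ := x
        obtain ⟨y1, y2, y3, y4⟩ := y
        simp only at f1 f2 f3 f4
        rw [f1, f2, f3, f4]
    rw [← hXc, ← hc1, ← hc2]
    omega

end Pool.Agent.H3.FQ
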