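import Pool.Agent.H3.FQ.PC

/-!
# QUO: domains of quotients
-/

set_option autoImplicit false

namespace Pool.Agent.H3.FQ

open Classical

private theorem QUO_ne {z : ℂ × ℂ} (hz : ‖z.1‖ = 1) : z.1 ≠ 0 := by
  intro h
  rw [h, norm_zero] at hz
  exact zero_ne_one hz

private theorem QUO_inj {q : ℕ} {v : ℕ → ℂ} (hv : Chain q v) {z : ℂ × ℂ} (hz : ‖z.1‖ = 1) {p p' : ℕ}
    (hp : p < q) (hp' : p' < q) (h : act z (v p) = act z (v p')) : p = p' := by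
  have h1 : z.1 * v p = z.1 * v p' := by
    unfold act at h
    exact add_right_cancel h
  have h2 : v p = v p' := mul_left_cancel₀ (QUO_ne hz) h1
  rcases lt_trichotomy p p' with hc | hc | hc
  · have := hv.mono p p' hc hp'
    rw [h2] at this
    exact absurd this (lt_irrefl _)
  · exact hc
  · have := hv.mono p' p hc hp
    rw [h2] at this
    exact absurd this (lt_irrefl _)

private theorem QUO_card {q : ℕ} {v : ℕ → ℂ} (hv : Chain q v) (G : ℕ) (y z : ℂ × ℂ) (hz : ‖z.1‖ = 1)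
    (T : Finset ℕ) (hT : ∀ p j l : ℕ, p < j → j ≤ p + G → j < q → v j = act z (v p) → p < l → l ≤ p + G → l < q →
      v l = act y (v p) → j ∈ T) :
    (dom q v G y ∩ dom q v G z).card ≤ T.card := by
  have hex : ∀ p ∈ dom q v G y ∩ dom q v G z, ∃ j, p < q ∧ j ∈ T ∧ v j = act z (v p) := by
    intro p hp
    obtain ⟨h1, h2⟩ := Finset.mem_inter.1 hp
    obtain ⟨hpq, l, hl1, hl2, hl3, hl4⟩ := Finset.mem_filter.1 h1
    obtain ⟨_, j, hj1, hj2, hj3, hj4⟩ := Finset.mem_filter.1 h2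
    exact ⟨j, Finset.mem_range.1 hpq, hT p j l hj1 hj2 hj3 hj4 hl1 hl2 hl3 hl4, hj4⟩
  choose! f hf using hex
  refine Finset.card_le_card_of_injOn f (fun p hp => (hf p hp).2.1) ?_
  intro p hp p' hp' h
  obtain ⟨a1, _, a3⟩ := hf p hp
  obtain ⟨b1, _, b3⟩ := hf p' hp'
  refine QUO_inj hv hz a1 b1 ?_
  rw [← a3, ← b3]
  exact congrArg v h

theorem QUO2 {q : ℕ} {v : ℕ → ℂ} (hv : Chain q v) (G : ℕ) (y z : ℂ × ℂ) (hz : ‖z.1‖ = 1) :
    (dom q v G y ∩ dom q v G z).card ≤ (dom2 q v G (quo y z)).card := by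
  refine QUO_card hv G y z hz _ ?_
  intro p j l h1 h2 h3 h4 k1 k2 k3 k4
  refine Finset.mem_filter.2 ⟨Finset.mem_range.2 h3, l, by omega, by omega, k3, ?_⟩
  rw [h4, act_quo (QUO_ne hz), k4]

theorem QUO0 {q : ℕ} {v : ℕ → ℂ} (hv : Chain q v) (G : ℕ) (y z : ℂ × ℂ) (hz : ‖z.1‖ = 1) :
    (dom q v G y ∩ dom q v G z).card ≤ (dom0 q v (quo y z)).card := by
  refine QUO_card hv G y z hz _ ?_
  intro p j l h1 h2 h3 h4 k1 k2 k3 k4
  refine Finset.mem_filter.2 ⟨Finset.mem_range.2 h3, l, k3, ?_⟩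
  rw [h4, act_quo (QUO_ne hz), k4]

theorem QUOn (y z : ℂ × ℂ) (hy : ‖y.1‖ = 1) (hz : ‖z.1‖ = 1) : ‖(quo y z).1‖ = 1 := by
  unfold quo
  rw [norm_div, hy, hz, div_one]

theorem QUOa (y z : ℂ × ℂ) (hy : ‖y.1‖ = 1) (hz : ‖z.1‖ = 1) : ag (quo y z) = ag y - ag z := by
  unfold ag quo
  exact Complex.arg_div_coe_angle (QUO_ne hy) (QUO_ne hz)

end Pool.Agent.H3.FQ
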