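import Pool.Agent.H71.WIN
import Pool.Agent.H3.LC.PR

/-!
# ST7: one circle (assembly of section 7)

`fam` gives `O1, O2, Y`; `Θ = Y.image ag`, `|Θ| = |Y| ≥ c G` (`ag` injective on elements of norm-one factors, `hinj`), `D' = |Θ - Θ| ≤ K G`. `WIN`: `B, p, r, α, W`, `ρ q ≤ 4 B G`. `E b b' = dst v (W b) (W b')`, `D = dD q v`, `|D| ≤ C q ≤ C1 B G`,
`C1 = 4 C/ρ`; `a = ρ c/2`: `a G ≤ |W b'| ≤ |E b b'|` (`WRK5`), `|E b b'| ≤ D' ≤ K G` (`DUP`); `lo = wlo`, `hi = whi` (`WRK1`-`WRK4`; `lo ≤ hi` since `E b b'` is nonempty). `PIG C1 a K`: `ε, δ`. Key: `KEYC` and `LC.PR` (second part, `V = Θ`, `D := D'`):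
`T = |S + S - S|`, `S = Θ - Θ`, `T |Θ|^5 ≤ D'^6`, so `T ≤ (K^6/c^5) G`, `|E ∩ E'|^4 ≤ 4477456 (K^6/c^5)^3 G^3 ≤ (ε G)^4` for `G ≥ G0`. `B ≥ 4` for `q ≥ q0`. `PIG`: `r0` with `δ B ≤ #{b : r b = r0}`. The sets `W b` are disjoint and contained in
`range q`, their points are at distance `r b` from `O2`: at least `δ B a G ≥ (δ a ρ/4) q` indices `i < q` with `dist (v i) O2 = r0`.
-/

set_option autoImplicit false

namespace Pool.Agent.H3.FQ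

open Classical

theorem ST7 (C : ℕ) (hC : 1 ≤ C) (ρ c K : ℝ) (hρ : 0 < ρ) (hc : 0 < c) (hK : 0 < K) : ∃ c' : ℝ, 0 < c' ∧ ∃ G0 : ℕ, ∀ G ≥ G0,
    ∃ q0 : ℕ, ∀ (q : ℕ) (v : ℕ → ℂ), q0 ≤ q → Chain q v → (dD q v).card ≤ C * q → fam q v G ρ c K →
      ∃ (O : ℂ) (r : ℝ), c' * q ≤ (((Finset.range q).filter (fun i => dist (v i) O = r)).card : ℝ) := by
  obtain ⟨δ, hδ, G0, h⟩ := Pool.Agent.H71.WIN.WIN C hC ρ c K hρ hc hK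
  refine ⟨δ, hδ, G0, fun G hG => ?_⟩
  obtain ⟨q0, h⟩ := h G hG
  refine ⟨q0, fun q v hq hv hD hf => ?_⟩
  obtain ⟨O, r, _, h⟩ := h q v hq hv hD hf
  exact ⟨O, r, h⟩

end Pool.Agent.H3.FQ
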