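import Pool.Agent.H3.FQ.PC
import Pool.Agent.H3.FQ.LAWC
import Pool.Agent.H3.FQ.PICK

/-!
# WIN: windows

`Y_p = {y ∈ Y : p ∈ dom q v G y}`. `∑_{p<q} |Y_p| = ∑_y |dom y| ≥ ρ q |Y|`, so at least `(ρ/2) q` indices `p < q` have `|Y_p| ≥ (ρ/2) |Y|` (`∑ ≤ |P'| |Y| + q (ρ/2) |Y|`). Remove the at most one `p` with `v p = O1` and the at most `G` ones with
`p + G ≥ q`: at least `(ρ/2) q - G - 1 ≥ (ρ/4) q` remain; `PICK`. For `p = p b`: `r b = dist (v p) O1 > 0`, `α b = (v p - O1).arg`, `W b = {j : p < j ≤ p + G, j < q, ∃ y ∈ Y_p, v j = act y (v p)}`.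
`act y (v p) - O2 = y.1 (v p - O1)` (as `act y O1 = O2`): so distance `r b` and argument `ag y + α b` (`Complex.arg_mul_coe_angle`), and different `y` (different `y.1` by `hinj`) give different points, `|W b| ≥ |Y_p|`.
-/

set_option autoImplicit false

namespace Pool.Agent.H3.FQ

open Classical

private theorem WIN_cnt {q : ℕ} {v : ℕ → ℂ} (G : ℕ) (ρ : ℝ) (hρ : 0 < ρ) (Y : Finset (ℂ × ℂ))
    (hne : Y.Nonempty) (hY : ∀ y ∈ Y, ρ * q ≤ ((dom q v G y).card : ℝ)) :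
    ρ / 2 * q ≤ (((Finset.range q).filter (fun p => ρ / 2 * (Y.card : ℝ) ≤
      ((Y.filter (fun y => p ∈ dom q v G y)).card : ℝ))).card : ℝ) := by
  have hYc : (0 : ℝ) < Y.card := by exact_mod_cast hne.card_pos
  have h1 : ∑ p ∈ Finset.range q, ((Y.filter (fun y => p ∈ dom q v G y)).card : ℝ) =
      ∑ y ∈ Y, ((dom q v G y).card : ℝ) := by
    have h2 : ∑ p ∈ Finset.range q, (Y.filter (fun y => p ∈ dom q v G y)).card =
        ∑ y ∈ Y, (dom q v G y).card := by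
      have h3 := Finset.sum_card_bipartiteAbove_eq_sum_card_bipartiteBelow
        (s := Finset.range q) (t := Y) (fun p y => p ∈ dom q v G y)
      have h4 : ∀ y ∈ Y, ((Finset.range q).bipartiteBelow (fun p y => p ∈ dom q v G y) y).card =
          (dom q v G y).card := by
        intro y _
        congr 1
        ext p
        rw [Finset.mem_bipartiteBelow]
        exact ⟨fun h => h.2, fun h => ⟨(Finset.mem_filter.1 h).1, h⟩⟩
      rw [Finset.sum_congr rfl h4] at h3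
      exact h3
    exact_mod_cast h2
  have h3 : (Y.card : ℝ) * (ρ * q) ≤ ∑ y ∈ Y, ((dom q v G y).card : ℝ) := by
    have h4 := Finset.sum_le_sum hY
    rw [Finset.sum_const, nsmul_eq_mul] at h4
    exact h4
  have h4 : ∑ p ∈ Finset.range q, ((Y.filter (fun y => p ∈ dom q v G y)).card : ℝ) ≤
      ∑ p ∈ Finset.range q, ((if ρ / 2 * (Y.card : ℝ) ≤
        ((Y.filter (fun y => p ∈ dom q v G y)).card : ℝ) then (Y.card : ℝ) else 0) +
          ρ / 2 * (Y.card : ℝ)) := by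
    refine Finset.sum_le_sum fun p _ => ?_
    by_cases hc : ρ / 2 * (Y.card : ℝ) ≤ ((Y.filter (fun y => p ∈ dom q v G y)).card : ℝ)
    · rw [if_pos hc]
      have h5 : ((Y.filter (fun y => p ∈ dom q v G y)).card : ℝ) ≤ Y.card := by
        exact_mod_cast Finset.card_filter_le _ _
      have h6 : 0 < ρ / 2 * (Y.card : ℝ) := by positivity
      linarith
    · rw [if_neg hc]
      linarith [not_le.1 hc]
  rw [Finset.sum_add_distrib, Finset.sum_const, Finset.card_range, nsmul_eq_mul,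
    ← Finset.sum_filter, Finset.sum_const, nsmul_eq_mul] at h4
  rw [h1] at h4
  have h5 := h3.trans h4
  have h6 : (ρ / 2 * q) * (Y.card : ℝ) ≤
      (((Finset.range q).filter (fun p => ρ / 2 * (Y.card : ℝ) ≤
        ((Y.filter (fun y => p ∈ dom q v G y)).card : ℝ))).card : ℝ) * (Y.card : ℝ) := by
    linarith
  exact le_of_mul_le_mul_right h6 hYc

private theorem WIN_set {q : ℕ} {v : ℕ → ℂ} (hv : Chain q v) (G : ℕ) (ρ : ℝ) (hρ : 0 < ρ)
    (O1 : ℂ) (Y : Finset (ℂ × ℂ))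
    (hne : Y.Nonempty) (hY : ∀ y ∈ Y, ρ * q ≤ ((dom q v G y).card : ℝ))
    (hq : 4 * ((G : ℝ) + 1) ≤ ρ * q) :
    ρ / 4 * q ≤ (((Finset.range q).filter (fun p => ρ / 2 * (Y.card : ℝ) ≤
      ((Y.filter (fun y => p ∈ dom q v G y)).card : ℝ) ∧ v p ≠ O1 ∧ p + G < q)).card : ℝ) := by
  have h1 := WIN_cnt (v := v) G ρ hρ Y hne hY
  have h2 : (Finset.range q).filter (fun p => ρ / 2 * (Y.card : ℝ) ≤
      ((Y.filter (fun y => p ∈ dom q v G y)).card : ℝ)) ⊆
      ((Finset.range q).filter (fun p => ρ / 2 * (Y.card : ℝ) ≤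
      ((Y.filter (fun y => p ∈ dom q v G y)).card : ℝ) ∧ v p ≠ O1 ∧ p + G < q)) ∪
      (((Finset.range q).filter (fun p => v p = O1)) ∪ Finset.Ico (q - G) q) := by
    intro p hp
    obtain ⟨hp1, hp2⟩ := Finset.mem_filter.1 hp
    rw [Finset.mem_union, Finset.mem_union, Finset.mem_filter, Finset.mem_filter, Finset.mem_Ico]
    rw [Finset.mem_range] at hp1
    by_cases h3 : v p = O1
    · exact Or.inr (Or.inl ⟨Finset.mem_range.2 hp1, h3⟩)
    · by_cases h4 : p + G < q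
      · exact Or.inl ⟨Finset.mem_range.2 hp1, hp2, h3, h4⟩
      · exact Or.inr (Or.inr ⟨by omega, hp1⟩)
  have h3 : ((Finset.range q).filter (fun p => v p = O1)).card ≤ 1 := by
    rw [Finset.card_le_one]
    intro a ha b hb
    rw [Finset.mem_filter, Finset.mem_range] at ha hb
    exact Chain_inj hv ha.1 hb.1 (ha.2.trans hb.2.symm)
  have h4 : (Finset.Ico (q - G) q).card ≤ G := by
    rw [Nat.card_Ico]
    omega
  have h5 := (Finset.card_le_card h2).trans ((Finset.card_union_le _ _).trans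
    (Nat.add_le_add_left (Finset.card_union_le _ _) _))
  have h6 := h5.trans (Nat.add_le_add_left (Nat.add_le_add h3 h4) _)
  have h7 : (((Finset.range q).filter (fun p => ρ / 2 * (Y.card : ℝ) ≤
      ((Y.filter (fun y => p ∈ dom q v G y)).card : ℝ))).card : ℝ) ≤
      (((Finset.range q).filter (fun p => ρ / 2 * (Y.card : ℝ) ≤
      ((Y.filter (fun y => p ∈ dom q v G y)).card : ℝ) ∧ v p ≠ O1 ∧ p + G < q)).card : ℝ) +
        (1 + G) := by
    exact_mod_cast h6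
  linarith

private theorem WIN_sub {O1 O2 : ℂ} {y : ℂ × ℂ} (h : act y O1 = O2) (z : ℂ) :
    act y z - O2 = y.1 * (z - O1) := by
  rw [← h]
  unfold act
  ring

theorem WIN {q : ℕ} {v : ℕ → ℂ} (hv : Chain q v) (G : ℕ) (hG : 1 ≤ G) (ρ : ℝ) (hρ : 0 < ρ) (O1 O2 : ℂ) (Y : Finset (ℂ × ℂ))
    (hne : Y.Nonempty) (hY : ∀ y ∈ Y, ‖y.1‖ = 1 ∧ act y O1 = O2 ∧ ρ * q ≤ ((dom q v G y).card : ℝ))
    (hinj : ∀ y ∈ Y, ∀ z ∈ Y, y.1 = z.1 → y = z) (hq : 4 * ((G : ℝ) + 1) ≤ ρ * q) :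
    ∃ (B : ℕ) (p : ℕ → ℕ) (r : ℕ → ℝ) (α : ℕ → Real.Angle) (W : ℕ → Finset ℕ), ρ * q ≤ 4 * (B : ℝ) * G ∧
      (∀ b b', b < b' → b' < B → p b + G ≤ p b') ∧
      ∀ b < B, p b + G < q ∧ 0 < r b ∧ W b ⊆ Finset.Ioc (p b) (p b + G) ∧ ρ / 2 * (Y.card : ℝ) ≤ ((W b).card : ℝ) ∧
        onc v O2 (Y.image ag) (r b) (α b) (W b) := by
  have hs := WIN_set hv G ρ hρ O1 Y hne (fun y hy => (hY y hy).2.2) hq
  obtain ⟨B, p, hB, hp, hgap⟩ := PICK G hG ((Finset.range q).filter (fun p => ρ / 2 * (Y.card : ℝ) ≤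
      ((Y.filter (fun y => p ∈ dom q v G y)).card : ℝ) ∧ v p ≠ O1 ∧ p + G < q))
  refine ⟨B, p, fun b => dist (v (p b)) O1, fun b => ((v (p b) - O1).arg : Real.Angle),
    fun b => (Finset.range q).filter (fun j => p b < j ∧ j ≤ p b + G ∧
      ∃ y ∈ Y, v j = act y (v (p b))), ?_, hgap, ?_⟩
  · have h1 : ρ / 4 * (q : ℝ) ≤ ((B * G : ℕ) : ℝ) := hs.trans (by exact_mod_cast hB)
    rw [Nat.cast_mul] at h1
    linarith
  · intro b hb
    obtain ⟨-, h1, h2, h3⟩ := Finset.mem_filter.1 (hp b hb)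
    refine ⟨h3, dist_pos.2 h2, ?_, ?_, ?_⟩
    · intro j hj
      obtain ⟨-, h4, h5, -⟩ := Finset.mem_filter.1 hj
      exact Finset.mem_Ioc.2 ⟨h4, h5⟩
    · refine h1.trans ?_
      have h4 : ∀ y : ℂ × ℂ, ∃ j : ℕ, p b ∈ dom q v G y →
          p b < j ∧ j ≤ p b + G ∧ j < q ∧ v j = act y (v (p b)) := by
        intro y
        by_cases hy : p b ∈ dom q v G y
        · obtain ⟨j, hj⟩ := (Finset.mem_filter.1 hy).2
          exact ⟨j, fun _ => hj⟩
        · exact ⟨0, fun h => absurd h hy⟩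
      choose J hJ using h4
      have h5 : (Y.filter (fun y => p b ∈ dom q v G y)).card ≤
          ((Finset.range q).filter (fun j => p b < j ∧ j ≤ p b + G ∧
            ∃ y ∈ Y, v j = act y (v (p b)))).card := by
        refine Finset.card_le_card_of_injOn J ?_ ?_
        · intro y hy
          obtain ⟨hy1, hy2⟩ := Finset.mem_filter.1 (Finset.mem_coe.1 hy)
          obtain ⟨a1, a2, a3, a4⟩ := hJ y hy2
          exact Finset.mem_coe.2 (Finset.mem_filter.2
            ⟨Finset.mem_range.2 a3, a1, a2, y, hy1, a4⟩)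
        · intro y hy z hz hyz
          obtain ⟨hy1, hy2⟩ := Finset.mem_filter.1 (Finset.mem_coe.1 hy)
          obtain ⟨hz1, hz2⟩ := Finset.mem_filter.1 (Finset.mem_coe.1 hz)
          have a4 := (hJ y hy2).2.2.2
          have b4 := (hJ z hz2).2.2.2
          have e1 := WIN_sub (hY y hy1).2.1 (v (p b))
          have e2 := WIN_sub (hY z hz1).2.1 (v (p b))
          rw [← a4] at e1
          rw [← b4, ← hyz] at e2
          have e3 : y.1 * (v (p b) - O1) = z.1 * (v (p b) - O1) := e1.symm.trans e2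
          exact hinj y hy1 z hz1 (mul_right_cancel₀ (sub_ne_zero.2 h2) e3)
      exact_mod_cast h5
    · intro j hj
      obtain ⟨-, -, -, y, hy, hvj⟩ := Finset.mem_filter.1 hj
      have e1 := WIN_sub (hY y hy).2.1 (v (p b))
      have hn := (hY y hy).1
      have hy0 : y.1 ≠ 0 := by
        intro h
        rw [h, norm_zero] at hn
        exact zero_ne_one hn
      refine ⟨?_, ag y, Finset.mem_image_of_mem _ hy, ?_⟩
      · rw [hvj, Complex.dist_eq, e1, norm_mul, hn, one_mul, ← Complex.dist_eq]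
      · rw [hvj, e1, Complex.arg_mul_coe_angle hy0 (sub_ne_zero.2 h2)]
        exact add_comm _ _

end Pool.Agent.H3.FQ
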