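import Pool.Agent.H3.FQ.CH
import Pool.Agent.H3.FQ.LAWC

/-!
# WRK: ranks of distances between windows

`rkD q v d` = number of elements of `dD q v` below `d`: monotone in `d`, strictly between different elements of `dD`, at most `|dD|`. For `i < j`, `j + G < q`: `rkD (|v_i v_{j+G}|) ≥ rkD (|v_i v_j|) + G` (the distances `|v_i v_{j+k}|`,
`0 ≤ k < G`, are `G` different elements of `dD` in `[|v_i v_j|, |v_i v_{j+G}|)`, `mon1`).
`wlo`, `whi`: ranks of `|v_{p b + G} v_{p b' + 1}|`, `|v_{p b + 1} v_{p b' + G}|`. All by `mon1`, `mon2` (each comparison changes one end point at a time; `p b + G ≤ p b'` for `b < b'`, `1 ≤ G`):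
(1) `j ∈ W b`, `l ∈ W b'`: `j ≤ p b + G ≤ p b' < p b' + 1 ≤ l`. (2) clear. (3) `|v_{p(b+1)+1} v_{p b' + G}| ≤ |v_{p b + G} v_{p(b'+1)+1}|` since `p b + G ≤ p (b+1)`, `p b' + G ≤ p (b'+1)`. (4) `p (b'+1) + G ≥ p b' + G + G`.
(5) from one point `v j`, `j ∈ W b`, the distances to the points of `W b'` are different.
-/

set_option autoImplicit false

namespace Pool.Agent.H3.FQ

open Classical

noncomputable def rkD (q : ℕ) (v : ℕ → ℂ) (d : ℝ) : ℕ := ((dD q v).filter (fun d' => d' < d)).card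

noncomputable def wlo (q : ℕ) (v : ℕ → ℂ) (G : ℕ) (p : ℕ → ℕ) (b b' : ℕ) : ℕ := rkD q v (dist (v (p b + G)) (v (p b' + 1)))

noncomputable def whi (q : ℕ) (v : ℕ → ℂ) (G : ℕ) (p : ℕ → ℕ) (b b' : ℕ) : ℕ := rkD q v (dist (v (p b + 1)) (v (p b' + G)))

theorem WRK_mono (q : ℕ) (v : ℕ → ℂ) {d e : ℝ} (h : d ≤ e) : rkD q v d ≤ rkD q v e := by
  unfold rkD
  apply Finset.card_le_card
  intro x hx
  rw [Finset.mem_filter] at hx ⊢
  exact ⟨hx.1, hx.2.trans_le h⟩

theorem WRK_succ (q : ℕ) (v : ℕ → ℂ) {d e : ℝ} (hd : d ∈ dD q v) (h : d < e) : rkD q v d + 1 ≤ rkD q v e := by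
  unfold rkD
  rw [← Finset.card_insert_of_notMem (a := d) (by simp)]
  apply Finset.card_le_card
  intro x hx
  rw [Finset.mem_insert, Finset.mem_filter] at hx
  rw [Finset.mem_filter]
  rcases hx with rfl | hx
  · exact ⟨hd, h⟩
  · exact ⟨hx.1, hx.2.trans h⟩

theorem WRK_mem {q : ℕ} (v : ℕ → ℂ) {i j : ℕ} (hij : i < j) (hj : j < q) : dist (v i) (v j) ∈ dD q v := by
  unfold dD
  refine Finset.mem_image.2 ⟨(i, j), ?_, rfl⟩
  rw [Finset.mem_filter, Finset.mem_product, Finset.mem_range, Finset.mem_range]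
  exact ⟨⟨hij.trans hj, hj⟩, hij⟩

theorem WRK_le {q : ℕ} {v : ℕ → ℂ} (hv : Chain q v) {i a b l : ℕ} (hia : i ≤ a) (hab : a < b) (hbl : b ≤ l)
    (hl : l < q) : dist (v a) (v b) ≤ dist (v i) (v l) := by
  have h1 : dist (v a) (v b) ≤ dist (v i) (v b) := by
    rcases hia.eq_or_lt with h | h
    · rw [h]
    · exact (mon2 hv h hab (hbl.trans_lt hl)).le
  have h2 : dist (v i) (v b) ≤ dist (v i) (v l) := by
    rcases hbl.eq_or_lt with h | h
    · rw [h]
    · exact (mon1 hv (hia.trans_lt hab) h hl).le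
  exact h1.trans h2

theorem WRK_step {q : ℕ} {v : ℕ → ℂ} (hv : Chain q v) {i j : ℕ} (hij : i < j) (G : ℕ) (h : j + G < q) :
    rkD q v (dist (v i) (v j)) + G ≤ rkD q v (dist (v i) (v (j + G))) := by
  induction G with
  | zero => exact le_refl _
  | succ G ih =>
    have h1 := ih (by omega)
    have h2 := WRK_succ q v (WRK_mem v (q := q) (i := i) (j := j + G) (by omega) (by omega))
      (mon1 hv (i := i) (j := j + G) (l := j + (G + 1)) (by omega) (by omega) h)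
    omega

theorem WRK1 {q : ℕ} {v : ℕ → ℂ} (hv : Chain q v) (G B : ℕ) (hG : 1 ≤ G) (p : ℕ → ℕ) (W : ℕ → Finset ℕ)
    (hp : ∀ b b', b < b' → b' < B → p b + G ≤ p b') (hpq : ∀ b < B, p b + G < q) (hW : ∀ b < B, W b ⊆ Finset.Ioc (p b) (p b + G)) :
    ∀ b b', b < b' → b' < B → ∀ d ∈ dst v (W b) (W b'), d ∈ dD q v ∧ wlo q v G p b b' ≤ rkD q v d ∧ rkD q v d ≤ whi q v G p b b' := by
  intro b b' hb hb' d hd
  obtain ⟨⟨j, l⟩, hjl, rfl⟩ := Finset.mem_image.1 hd
  obtain ⟨hj, hl⟩ := Finset.mem_product.1 hjl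
  have h1 := Finset.mem_Ioc.1 (hW b (hb.trans hb') hj)
  have h2 := Finset.mem_Ioc.1 (hW b' hb' hl)
  have h3 := hp b b' hb hb'
  have h4 := hpq b' hb'
  simp only at h1 h2
  refine ⟨WRK_mem v (by simp only; omega) (by simp only; omega), ?_, ?_⟩
  · unfold wlo
    apply WRK_mono
    exact WRK_le hv (by simp only; omega) (by omega) (by simp only; omega) (by simp only; omega)
  · unfold whi
    apply WRK_mono
    exact WRK_le hv (by simp only; omega) (by simp only; omega) (by simp only; omega) (by omega)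

theorem WRK2 (q : ℕ) (v : ℕ → ℂ) (G : ℕ) (p : ℕ → ℕ) (b b' : ℕ) : whi q v G p b b' ≤ (dD q v).card := by
  unfold whi rkD
  exact Finset.card_filter_le _ _

theorem WRK3 {q : ℕ} {v : ℕ → ℂ} (hv : Chain q v) (G B : ℕ) (hG : 1 ≤ G) (p : ℕ → ℕ)
    (hp : ∀ b b', b < b' → b' < B → p b + G ≤ p b') (hpq : ∀ b < B, p b + G < q) :
    ∀ b b', b + 1 < b' → b' + 1 < B → whi q v G p (b + 1) b' ≤ wlo q v G p b (b' + 1) := by
  intro b b' hb hb'
  unfold whi wlo
  apply WRK_mono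
  have h1 := hp b (b + 1) (by omega) (by omega)
  have h2 := hp (b + 1) b' hb (by omega)
  have h3 := hp b' (b' + 1) (by omega) hb'
  have h4 := hpq (b' + 1) hb'
  exact WRK_le hv (by omega) (by omega) (by omega) (by omega)

theorem WRK4 {q : ℕ} {v : ℕ → ℂ} (hv : Chain q v) (G B : ℕ) (hG : 1 ≤ G) (p : ℕ → ℕ)
    (hp : ∀ b b', b < b' → b' < B → p b + G ≤ p b') (hpq : ∀ b < B, p b + G < q) :
    ∀ b b', b < b' → b' + 1 < B → whi q v G p b b' + G ≤ whi q v G p b (b' + 1) := by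
  intro b b' hb hb'
  unfold whi
  have h2 := hp b b' hb (by omega)
  have h3 := hp b' (b' + 1) (by omega) hb'
  have h4 := hpq (b' + 1) hb'
  have h5 := WRK_step hv (i := p b + 1) (j := p b' + G) (by omega) G (by omega)
  refine h5.trans (WRK_mono q v ?_)
  exact WRK_le hv (le_refl _) (by omega) (by omega) (by omega)

theorem WRK5 {q : ℕ} {v : ℕ → ℂ} (hv : Chain q v) (G B : ℕ) (hG : 1 ≤ G) (p : ℕ → ℕ) (W : ℕ → Finset ℕ)
    (hp : ∀ b b', b < b' → b' < B → p b + G ≤ p b') (hpq : ∀ b < B, p b + G < q) (hW : ∀ b < B, W b ⊆ Finset.Ioc (p b) (p b + G)) :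
    ∀ b b', b < b' → b' < B → (W b).Nonempty → (W b').card ≤ (dst v (W b) (W b')).card := by
  intro b b' hb hb' hne
  obtain ⟨j, hj⟩ := hne
  have h1 := Finset.mem_Ioc.1 (hW b (hb.trans hb') hj)
  have h3 := hp b b' hb hb'
  have h4 := hpq b' hb'
  apply Finset.card_le_card_of_injOn (fun l => dist (v j) (v l))
  · intro l hl
    exact Finset.mem_coe.2 (Finset.mem_image.2 ⟨(j, l), Finset.mem_product.2 ⟨hj, Finset.mem_coe.1 hl⟩, rfl⟩)
  · intro l hl l' hl' h
    have h5 := Finset.mem_Ioc.1 (hW b' hb' (Finset.mem_coe.1 hl))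
    have h6 := Finset.mem_Ioc.1 (hW b' hb' (Finset.mem_coe.1 hl'))
    have h7 : dist (v j) (v l) = dist (v j) (v l') := h
    rcases lt_trichotomy l l' with h8 | h8 | h8
    · have := mon1 hv (i := j) (j := l) (l := l') (by omega) h8 (by omega)
      linarith
    · exact h8
    · have := mon1 hv (i := j) (j := l') (l := l) (by omega) h8 (by omega)
      linarith

end Pool.Agent.H3.FQ
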